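import Pool.Agent.H33.EQ.XrA

/-!
# EL-08: `h_a(c)` is a product of root elements
-/

namespace Pool.Agent.H33.EQ

variable {n : ℕ} {C : Matrix (Fin n) (Fin n) ℤ} {K : Type} [Field K] [Fintype (Rt C)]

theorem hdX_e (y : Fin n → ℤ) (c : Kˣ) (b : Rt C) :
    hd C y c (e K b) = ((c ^ (ip C y b.1) : Kˣ) : K) • e K b := by
  refine Prod.ext ?_ (funext fun d => ?_)
  · change (0 : Fin n → K) = ((c ^ (ip C y b.1) : Kˣ) : K) • (0 : Fin n → K)
    rw [smul_zero]
  · change ((c ^ (ip C y d.1) : Kˣ) : K) * (e K b).2 d =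
      ((c ^ (ip C y b.1) : Kˣ) : K) * (e K b).2 d
    by_cases h : d = b
    · rw [h]
    · rw [e_snd_ne h, mul_zero, mul_zero]

theorem hdX_hh (y : Fin n → ℤ) (c : Kˣ) (h : Fin n → K) :
    hd C y c (hh C h) = hh C h := by
  refine Prod.ext rfl (funext fun d => ?_)
  change ((c ^ (ip C y d.1) : Kˣ) : K) * 0 = 0
  rw [mul_zero]

/-- `x_(-a)(t)` on `e_a` -/
theorem hdX_ng_e (H : Hyp C K) (a : Rt C) (t : K) :
    xr (ng a) t (e K a) = e K a + t • hh C (zk a.1) + (t ^ 2) • e K (ng a) := by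
  have h := xr_e_ng H (ng a) t
  rw [ng_ng, ng_val, zk_neg, hh_neg, smul_neg, sub_neg_eq_add] at h
  exact h

theorem hdX_ng_hh (H : Hyp C K) (a : Rt C) (t : K) (h : Fin n → K) :
    xr (ng a) t (hh C h) = hh C h + (t * fk C h (zk a.1)) • e K (ng a) := by
  rw [xr_hh H, ng_val, zk_neg, fk_neg_right, mul_neg, neg_smul, sub_neg_eq_add]

theorem hdX_ip_ng (a b : Rt C) : ip C (ng a).1 b.1 = -ip C a.1 b.1 := by
  rw [ng_val, ip_neg_left]

theorem hdX_fk_self (a : Rt C) : fk C (zk a.1 : Fin n → K) (zk a.1) = 2 := by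
  rw [fk_zk_zk, a.2]
  norm_num

theorem hdX_W_hh (H : Hyp C K) (a : Rt C) {c t : K} (hct : c * t = 1) (h : Fin n → K) :
    xr a c (xr (ng a) t (xr a c (hh C h))) = hh C h - fk C h (zk a.1) • hh C (zk a.1) := by
  have e1 : xr (ng a) t (xr a c (hh C h)) =
      hh C h - fk C h (zk a.1) • hh C (zk a.1) - (c * fk C h (zk a.1)) • e K a := by
    rw [xr_hh H, map_sub, map_smul, hdX_ng_hh H, hdX_ng_e H]
    have h1 : c * fk C h (zk a.1) * t = fk C h (zk a.1) := by
      linear_combination fk C h (zk a.1) * hct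
    have h2 : c * fk C h (zk a.1) * t ^ 2 = t * fk C h (zk a.1) := by
      linear_combination t * fk C h (zk a.1) * hct
    rw [smul_add, smul_add, smul_smul, smul_smul, h1, h2]
    abel
  rw [e1, map_sub, map_sub, map_smul, map_smul, xr_hh H, xr_hh H,
    xr_e_nonneg H a c (b := a) (by rw [a.2]; norm_num), hdX_fk_self]
  module

theorem hdX_W_zero (H : Hyp C K) (a b : Rt C) (c t : K) (h : ip C a.1 b.1 = 0) :
    xr a c (xr (ng a) t (xr a c (e K b))) = e K b := by
  rw [xr_e_nonneg H a c (b := b) h.ge, xr_e_nonneg H (ng a) t (b := b)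
    (by rw [hdX_ip_ng, h, neg_zero]), xr_e_nonneg H a c (b := b) h.ge]

theorem hdX_W_neg (H : Hyp C K) (a b d : Rt C) {c t : K} (hct : c * t = 1)
    (h : ip C a.1 b.1 = -1) (hd : d.1 = a.1 + b.1) :
    xr a c (xr (ng a) t (xr a c (e K b))) = (c * ek K C a.1 b.1) • e K d := by
  have hb : b.1 = (ng a).1 + d.1 := by rw [ng_val, hd]; abel
  have had : ip C a.1 d.1 = 1 := by rw [hd, ip_add_right, a.2, h]; norm_num
  have e1 : ek K C (ng a).1 d.1 = -ek K C a.1 b.1 := by
    rw [ng_val, ek_neg_left, hd, ek_add_right, ek_self H, neg_one_mul]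
  have h2 := ek_mul_self (K := K) (C := C) a.1 b.1
  rw [xr_e_add H a c hd, map_add, map_smul, xr_e_nonneg H (ng a) t (b := b)
    (by rw [hdX_ip_ng, h]; norm_num), xr_e_add H (ng a) t hb, e1, map_add, map_smul, map_add,
    map_smul, xr_e_add H a c hd, xr_e_nonneg H a c (b := d) (by rw [had]; norm_num)]
  have h3 : c * ek K C a.1 b.1 * (t * -ek K C a.1 b.1) = -1 := by
    linear_combination (-(ek K C a.1 b.1 * ek K C a.1 b.1)) * hct - h2
  rw [smul_add, smul_smul, h3]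
  module

theorem hdX_W_pos (H : Hyp C K) (a b d : Rt C) {c t : K} (hct : c * t = 1)
    (h : ip C a.1 b.1 = 1) (hd : d.1 = b.1 - a.1) :
    xr a c (xr (ng a) t (xr a c (e K b))) = (t * ek K C a.1 b.1) • e K d := by
  have hb : b.1 = a.1 + d.1 := by rw [hd]; abel
  have hd' : d.1 = (ng a).1 + b.1 := by rw [ng_val, hd]; abel
  have e1 : ek K C a.1 d.1 = -ek K C a.1 b.1 := by
    have h4 : ek K C a.1 b.1 = ek K C a.1 a.1 * ek K C a.1 d.1 := by
      rw [← ek_add_right, ← hb]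
    rw [h4, ek_self H]
    ring
  have h2 := ek_mul_self (K := K) (C := C) a.1 b.1
  rw [xr_e_nonneg H a c (b := b) (by rw [h]; norm_num), xr_e_add H (ng a) t hd', map_add,
    map_smul, xr_e_nonneg H a c (b := b) (by rw [h]; norm_num), xr_e_add H a c hb, e1, ng_val,
    ek_neg_left, smul_add, smul_smul]
  have h3 : t * ek K C a.1 b.1 * (c * -ek K C a.1 b.1) = -1 := by
    linear_combination (-(ek K C a.1 b.1 * ek K C a.1 b.1)) * hct - h2
  rw [h3]
  module

theorem hdX_W_self (H : Hyp C K) (a : Rt C) {c t : K} (hct : c * t = 1) :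
    xr a c (xr (ng a) t (xr a c (e K a))) = (t ^ 2) • e K (ng a) := by
  rw [xr_e_nonneg H a c (b := a) (by rw [a.2]; norm_num), hdX_ng_e H, map_add, map_add,
    map_smul, map_smul, xr_e_nonneg H a c (b := a) (by rw [a.2]; norm_num), xr_hh H,
    xr_e_ng H, hdX_fk_self, smul_sub, smul_add, smul_sub, smul_smul, smul_smul, smul_smul]
  have h1 : t * (c * 2) = 2 := by linear_combination 2 * hct
  have h2 : t ^ 2 * c = t := by linear_combination t * hct
  have h3 : t ^ 2 * c ^ 2 = 1 := by linear_combination (c * t + 1) * hct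
  rw [h1, h2, h3]
  module

theorem hdX_W_ng (H : Hyp C K) (a : Rt C) {c t : K} (hct : c * t = 1) :
    xr a c (xr (ng a) t (xr a c (e K (ng a)))) = (c ^ 2) • e K a := by
  rw [xr_e_ng H, map_add, map_sub, map_smul, map_smul, hdX_ng_e H, hdX_ng_hh H, hdX_fk_self,
    xr_e_nonneg H (ng a) t (b := ng a) (by rw [(ng a).2]; norm_num), smul_add, smul_add,
    smul_add, smul_smul, smul_smul, smul_smul]
  have h1 : c * (t * 2) = 2 := by linear_combination 2 * hct
  have h2 : c ^ 2 * t = c := by linear_combination c * hct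
  have h3 : c ^ 2 * t ^ 2 = 1 := by linear_combination (c * t + 1) * hct
  rw [h1, h2, h3]
  have h4 : e K (ng a) - (c • hh C (zk a.1) + (2 : K) • e K (ng a)) +
      (c ^ 2 • e K a + c • hh C (zk a.1) + (1 : K) • e K (ng a)) = c ^ 2 • e K a := by
    module
  rw [h4, map_smul, xr_e_nonneg H a c (b := a) (by rw [a.2]; norm_num)]

/-- `h_a(c)` as a product of root elements, `w(c) = x_a(c) x_(-a)(c⁻¹) x_a(c)`:
`h_a(c) = w(c) w(1)⁻¹`.  Check on `e_b` for the five values of `(a,b)` and on `hh h`: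
`w(c)` maps `hh h` to `hh (h - (h,a) a)`, `e_b` with `(a,b) = 0` to itself, `e_b` with
`(a,b) = -1` to `c ε(a,b) e_(a+b)`, `e_b` with `(a,b) = 1` to
`c⁻¹ ε(a,b) e_(b-a)`, `e_a` to
`c^(-2) e_(-a)`, `e_(-a)` to `c^2 e_a`. -/
theorem hd_eq (H : Hyp C K) (a : Rt C) (c : Kˣ) :
    hd C a.1 c = (xr a (c : K) * xr (ng a) ((c⁻¹ : Kˣ) : K) * xr a (c : K)) *
      (xr a (1 : K) * xr (ng a) (1 : K) * xr a (1 : K))⁻¹ := by
  rw [eq_mul_inv_iff_mul_eq]
  have hct : (c : K) * ((c⁻¹ : Kˣ) : K) = 1 := Units.mul_inv c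
  have h11 : (1 : K) * 1 = 1 := mul_one 1
  apply LinearEquiv.toLinearMap_injective
  apply ext_basis
  · intro h
    change hd C a.1 c (xr a (1 : K) (xr (ng a) (1 : K) (xr a (1 : K) (hh C h)))) =
      xr a (c : K) (xr (ng a) ((c⁻¹ : Kˣ) : K) (xr a (c : K) (hh C h)))
    rw [hdX_W_hh H a h11, hdX_W_hh H a hct, map_sub, map_smul, hdX_hh, hdX_hh]
  · intro b
    change hd C a.1 c (xr a (1 : K) (xr (ng a) (1 : K) (xr a (1 : K) (e K b)))) =
      xr a (c : K) (xr (ng a) ((c⁻¹ : Kˣ) : K) (xr a (c : K) (e K b)))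
    rcases ip_cases H a b with h | h | h | h | h
    · subst h
      rw [hdX_W_ng H a h11, hdX_W_ng H a hct, map_smul, hdX_e, smul_smul, a.2]
      congr 1
      rw [one_pow, one_mul]
      norm_cast
    · obtain ⟨d, hd⟩ : ∃ d : Rt C, d.1 = a.1 + b.1 := ⟨⟨a.1 + b.1, root_add H h⟩, rfl⟩
      have had : ip C a.1 d.1 = 1 := by rw [hd, ip_add_right, a.2, h]; norm_num
      rw [hdX_W_neg H a b d h11 h hd, hdX_W_neg H a b d hct h hd, map_smul, hdX_e, smul_smul,
        had, zpow_one]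
      congr 1
      ring
    · rw [hdX_W_zero H a b _ _ h, hdX_W_zero H a b _ _ h, hdX_e, h, zpow_zero, Units.val_one,
        one_smul]
    · have hs : ip C (b.1 - a.1) (b.1 - a.1) = 2 := by
        rw [← neg_sub, ip_neg_left, ip_neg_right, neg_neg]
        exact root_sub H h
      obtain ⟨d, hd⟩ : ∃ d : Rt C, d.1 = b.1 - a.1 := ⟨⟨b.1 - a.1, hs⟩, rfl⟩
      have had : ip C a.1 d.1 = -1 := by rw [hd, ip_sub_right, a.2, h]; norm_num
      rw [hdX_W_pos H a b d h11 h hd, hdX_W_pos H a b d hct h hd, map_smul, hdX_e, smul_smul,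
        had, zpow_neg_one]
      congr 1
      ring
    · subst h
      have had : ip C b.1 (ng b).1 = -2 := by rw [ng_val, ip_neg_right, b.2]
      rw [hdX_W_self H b h11, hdX_W_self H b hct, map_smul, hdX_e, smul_smul, had]
      congr 1
      rw [one_pow, one_mul, ← Units.val_pow_eq_pow_val]
      norm_cast

end Pool.Agent.H33.EQ
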