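import Pool.Agent.H33.EQ.Std0
import Pool.Agent.H33.EQ.HdX

/-!
# EL-54: the standard description in every group of the isogeny type

`π : G →* GL(L)` with image in `Gr C K ≤ GG C K`; `T ≤ G` with `π(T) = T1`, `ker π ≤ T`,
`X a ≤ G` with `π(X a) = Xg a`.  For `T ≤ F`: `F = π⁻¹(π F)`; `(GSt T X S).map π =
GSt T1 Xg S` and `GSt T X S = π⁻¹ (GSt T1 Xg S)` since `ker π ≤ T`.  So the condition on `S` for
`F` is equivalent to the condition for `F.map π`, and `std0` applies (a prime `p` with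
`CharP K p` exists since `K` is finite; `p` from `H.card`, `CharP.exists`).
`T1_le_Gr`: `hd_eq`.
-/

namespace Pool.Agent.H33.EQ

variable {n : ℕ} {C : Matrix (Fin n) (Fin n) ℤ} {K : Type} [Field K] [Fintype (Rt C)]

theorem Gr_le_GG (H : Hyp C K) : Gr C K ≤ GG C K := by
  refine iSup_le fun a => (Subgroup.closure_le _).2 ?_
  rintro g ⟨s, rfl⟩
  exact xr_mem_GG H a s

theorem Std_xr_mem (a : Rt C) (s : K) : xr a s ∈ Gr C K :=
  (le_iSup (fun a : Rt C => Xg K a) a) (Subgroup.subset_closure ⟨s, rfl⟩)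

theorem T1_le_Gr (H : Hyp C K) : T1 C K ≤ Gr C K := by
  refine (Subgroup.closure_le _).2 ?_
  rintro g ⟨a, c, rfl⟩
  rw [SetLike.mem_coe, hd_eq H a c]
  exact mul_mem (mul_mem (mul_mem (Std_xr_mem _ _) (Std_xr_mem _ _)) (Std_xr_mem _ _))
    (inv_mem (mul_mem (mul_mem (Std_xr_mem _ _) (Std_xr_mem _ _)) (Std_xr_mem _ _)))

theorem std_gen (H : Hyp C K)
    (hno : ∀ F : Subgroup (LL C K ≃ₗ[K] LL C K), Ctx F → False) {G : Type} [Group G] (π : G →* (LL C K ≃ₗ[K] LL C K))
    (hπ : π.range ≤ Gr C K) (T : Subgroup G) (hT : T.map π = T1 C K) (hk : π.ker ≤ T)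
    (X : Rt C → Subgroup G) (hX : ∀ a, (X a).map π = Xg K a) (F : Subgroup G)
    (hF : T ≤ F) : StdDesc T X F := by
  have hfin : Finite K := Nat.finite_of_card_ne_zero (by rw [H.card]; norm_num)
  obtain ⟨p, hp⟩ := CharP.exists K
  have hpp : Fact p.Prime := ⟨CharP.char_is_prime K p⟩
  have h0 := std0 H (p := p) hno (F.map π)
    (((Subgroup.map_le_range π F).trans hπ).trans (Gr_le_GG H))
    (by rw [← hT]; exact Subgroup.map_mono hF)
  -- the groups `G(S)` in `G` and in `GL(L)`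
  have hm : ∀ S : Set (Rt C), (GSt T X S).map π = GSt (T1 C K) (fun a : Rt C => Xg K a) S := by
    intro S
    unfold GSt
    rw [Subgroup.map_sup, hT, Subgroup.map_iSup]
    congr 1
    refine iSup_congr fun a => ?_
    rw [Subgroup.map_iSup]
    exact iSup_congr fun _ => hX a
  have hc : ∀ S : Set (Rt C), ∀ x : G, x ∈ GSt T X S ↔
      π x ∈ GSt (T1 C K) (fun a : Rt C => Xg K a) S := by
    intro S x
    have h1 : GSt T X S ⊔ π.ker = GSt T X S := sup_eq_left.2 (hk.trans le_sup_left)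
    rw [← hm S, ← Subgroup.mem_comap, Subgroup.comap_map_eq, h1]
  have hcF : ∀ x : G, x ∈ F ↔ π x ∈ F.map π := by
    intro x
    rw [← Subgroup.mem_comap, Subgroup.comap_map_eq, sup_eq_left.2 (hk.trans hF)]
  have key : ∀ S : Set (Rt C),
      (ClosedRt S ∧ GSt T X S ≤ F ∧ ∀ f ∈ F, ∀ x, x ∈ GSt T X S ↔ f * x * f⁻¹ ∈ GSt T X S) ↔
      (ClosedRt S ∧ GSt (T1 C K) (fun a : Rt C => Xg K a) S ≤ F.map π ∧ ∀ f ∈ F.map π, ∀ x,
        x ∈ GSt (T1 C K) (fun a : Rt C => Xg K a) S ↔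
          f * x * f⁻¹ ∈ GSt (T1 C K) (fun a : Rt C => Xg K a) S) := by
    intro S
    refine and_congr_right fun _ => ⟨?_, ?_⟩
    · rintro ⟨h1, h2⟩
      refine ⟨by rw [← hm S]; exact Subgroup.map_mono h1, ?_⟩
      rintro f ⟨g, hg, rfl⟩ x
      constructor
      · intro hx
        rw [← hm S] at hx
        obtain ⟨y, hy, rfl⟩ := hx
        have := (hc S _).1 ((h2 g hg y).1 hy)
        rwa [map_mul, map_mul, map_inv] at this
      · intro hx
        rw [← hm S] at hx
        obtain ⟨y, hy, hyx⟩ := hx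
        have h3 : g⁻¹ * y * g ∈ GSt T X S := by
          rw [h2 g hg]
          have : g * (g⁻¹ * y * g) * g⁻¹ = y := by group
          rw [this]
          exact hy
        have h4 := (hc S _).1 h3
        have h5 : π (g⁻¹ * y * g) = x := by
          rw [map_mul, map_mul, map_inv, hyx]
          group
        rwa [h5] at h4
    · rintro ⟨h1, h2⟩
      refine ⟨fun x hx => (hcF x).2 (h1 ((hc S x).1 hx)), fun f hf x => ?_⟩
      rw [hc S, hc S, map_mul, map_mul, map_inv]
      exact h2 (π f) ((hcF f).1 hf) (π x)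
  unfold StdDesc at h0 ⊢
  simp only [key]
  exact h0

end Pool.Agent.H33.EQ
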