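import Pool.Agent.H33.EQ.Ik

/-!
# EL-03: bracket and form on the basis `hh h`, `e a`

Unfold `br`, `brf`, `fm`, `fmf`; the sums collapse since `(e K a).2 = Pi.single a 1`.
-/

namespace Pool.Agent.H33.EQ

variable {n : ℕ} {C : Matrix (Fin n) (Fin n) ℤ} {K : Type} [Field K] [Fintype (Rt C)]

omit [Fintype (Rt C)] in
theorem hh_fst (h : Fin n → K) : (hh C h).1 = h := rfl
omit [Fintype (Rt C)] in
theorem hh_snd (h : Fin n → K) (a : Rt C) : (hh C h).2 a = 0 := rfl
omit [Fintype (Rt C)] in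
theorem e_fst (a : Rt C) : (e K a).1 = 0 := rfl
omit [Fintype (Rt C)] in
theorem e_snd_self (a : Rt C) : (e K a).2 a = 1 := by
  show (Pi.single a 1 : Rt C → K) a = 1
  exact Pi.single_eq_same a 1
omit [Fintype (Rt C)] in
theorem e_snd_ne {a b : Rt C} (h : b ≠ a) : (e K a).2 b = 0 := by
  show (Pi.single a 1 : Rt C → K) b = 0
  exact Pi.single_eq_of_ne h 1
omit [Fintype (Rt C)] in
theorem e_ne_zero (a : Rt C) : e K a ≠ 0 := by
  intro h
  have h1 := congrArg (fun u : LL C K => u.2 a) h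
  simp only [e_snd_self] at h1
  exact one_ne_zero h1
omit [Fintype (Rt C)] in
theorem hh_add (h k : Fin n → K) : hh C (h + k) = hh C h + hh C k := by
  refine Prod.ext rfl ?_
  show (0 : Rt C → K) = 0 + 0
  rw [add_zero]
omit [Fintype (Rt C)] in
theorem hh_smul (c : K) (h : Fin n → K) : hh C (c • h) = c • hh C h := by
  refine Prod.ext rfl ?_
  show (0 : Rt C → K) = c • 0
  rw [smul_zero]
omit [Fintype (Rt C)] in
theorem hh_neg (h : Fin n → K) : hh C (-h) = -hh C h := by
  refine Prod.ext rfl ?_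
  show (0 : Rt C → K) = -0
  rw [neg_zero]
omit [Fintype (Rt C)] in
theorem hh_zero : hh C (0 : Fin n → K) = 0 := rfl
omit [Fintype (Rt C)] in
theorem mem_L0 (x : LL C K) : x ∈ L0 C K ↔ x.2 = 0 := Iff.rfl
omit [Fintype (Rt C)] in
theorem hh_mem_L0 (h : Fin n → K) : hh C h ∈ L0 C K := rfl
omit [Fintype (Rt C)] in
theorem eq_hh_of_mem {x : LL C K} (hx : x ∈ L0 C K) : x = hh C x.1 := Prod.ext rfl hx

theorem decomp (x : LL C K) : x = hh C x.1 + ∑ a : Rt C, x.2 a • e K a := by
  refine Prod.ext ?_ (funext fun r => ?_)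
  · rw [Prod.fst_add, Prod.fst_sum]
    have h1 : ∀ a : Rt C, (x.2 a • e K a).1 = 0 := fun a => by
      rw [Prod.smul_fst, e_fst, smul_zero]
    simp only [h1, Finset.sum_const_zero, add_zero]
    rfl
  · rw [Prod.snd_add, Prod.snd_sum, Pi.add_apply, Finset.sum_apply, hh_snd, zero_add,
      Finset.sum_eq_single r]
    · rw [Prod.smul_snd, Pi.smul_apply, e_snd_self, smul_eq_mul, mul_one]
    · intro b _ hb
      rw [Prod.smul_snd, Pi.smul_apply, e_snd_ne hb.symm, smul_zero]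
    · intro h
      exact absurd (Finset.mem_univ r) h

theorem ext_basis {M : Type*} [AddCommGroup M] [Module K M] {f g : LL C K →ₗ[K] M}
    (h1 : ∀ h : Fin n → K, f (hh C h) = g (hh C h)) (h2 : ∀ a : Rt C, f (e K a) = g (e K a)) :
    f = g := by
  refine LinearMap.ext fun x => ?_
  rw [decomp x, map_add, map_add, map_sum, map_sum, h1]
  simp only [map_smul, h2]

omit [Fintype (Rt C)] in
private theorem brB_fk_zero_left (k : Fin n → K) : fk C 0 k = 0 := by
  simp [fk]

omit [Fintype (Rt C)] in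
private theorem brB_fk_zero_right (k : Fin n → K) : fk C k 0 = 0 := by
  simp [fk]

private theorem brB_e_fst (a : Rt C) (x : LL C K) :
    (br (e K a) x).1 = -(x.2 (ng a)) • zk a.1 := by
  show -∑ b : Rt C, ((e K a).2 b * x.2 (ng b)) • (zk b.1 : Fin n → K) = _
  rw [Finset.sum_eq_single a]
  · rw [e_snd_self, one_mul, neg_smul]
  · intro b _ hb
    rw [e_snd_ne hb, zero_mul, zero_smul]
  · intro h
    exact absurd (Finset.mem_univ a) h

private theorem brB_e_snd (a : Rt C) (x : LL C K) (r : Rt C) :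
    (br (e K a) x).2 r = -fk C x.1 (zk r.1) * (e K a).2 r +
      (if h : ip C (r.1 - a.1) (r.1 - a.1) = 2 then
        ek K C a.1 (r.1 - a.1) * x.2 ⟨r.1 - a.1, h⟩ else 0) := by
  show fk C (e K a).1 (zk r.1) * x.2 r - fk C x.1 (zk r.1) * (e K a).2 r
     + ∑ b : Rt C, (if h : ip C (r.1 - b.1) (r.1 - b.1) = 2 then
         ek K C b.1 (r.1 - b.1) * ((e K a).2 b * x.2 ⟨r.1 - b.1, h⟩) else 0) = _
  rw [e_fst, brB_fk_zero_left, zero_mul, zero_sub, Finset.sum_eq_single a]
  · rw [e_snd_self, neg_mul]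
    simp only [one_mul]
  · intro b _ hb
    rw [e_snd_ne hb]
    simp
  · intro h
    exact absurd (Finset.mem_univ a) h

private theorem brB_hh_snd (h : Fin n → K) (x : LL C K) (r : Rt C) :
    (br (hh C h) x).2 r = fk C h (zk r.1) * x.2 r := by
  show fk C (hh C h).1 (zk r.1) * x.2 r - fk C x.1 (zk r.1) * (hh C h).2 r
     + ∑ b : Rt C, (if h' : ip C (r.1 - b.1) (r.1 - b.1) = 2 then
         ek K C b.1 (r.1 - b.1) * ((hh C h).2 b * x.2 ⟨r.1 - b.1, h'⟩) else 0) = _
  simp [hh_snd, hh_fst]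

private theorem brB_hh_fst (h : Fin n → K) (x : LL C K) : (br (hh C h) x).1 = 0 := by
  show -∑ b : Rt C, ((hh C h).2 b * x.2 (ng b)) • (zk b.1 : Fin n → K) = _
  simp [hh_snd]

theorem br_hh_hh (h k : Fin n → K) : br (hh C h) (hh C k) = 0 := by
  refine Prod.ext (brB_hh_fst _ _) (funext fun r => ?_)
  rw [brB_hh_snd, hh_snd, mul_zero]
  rfl
theorem br_hh_e (h : Fin n → K) (a : Rt C) :
    br (hh C h) (e K a) = fk C h (zk a.1) • e K a := by
  refine Prod.ext ?_ (funext fun r => ?_)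
  · rw [brB_hh_fst, Prod.smul_fst, e_fst, smul_zero]
  · rw [brB_hh_snd, Prod.smul_snd, Pi.smul_apply, smul_eq_mul]
    by_cases hr : r = a
    · rw [hr]
    · rw [e_snd_ne hr, mul_zero, mul_zero]
theorem br_e_hh (h : Fin n → K) (a : Rt C) :
    br (e K a) (hh C h) = -(fk C h (zk a.1)) • e K a := by
  refine Prod.ext ?_ (funext fun r => ?_)
  · rw [brB_e_fst, hh_snd, Prod.smul_fst, e_fst, smul_zero, neg_zero, zero_smul]
  · rw [brB_e_snd, Prod.smul_snd, Pi.smul_apply, smul_eq_mul, hh_fst]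
    have h1 : (if h' : ip C (r.1 - a.1) (r.1 - a.1) = 2 then
        ek K C a.1 (r.1 - a.1) * (hh C h).2 ⟨r.1 - a.1, h'⟩ else 0) = 0 := by
      split_ifs with h'
      · rw [hh_snd, mul_zero]
      · rfl
    rw [h1, add_zero]
    by_cases hr : r = a
    · rw [hr]
    · rw [e_snd_ne hr, mul_zero, mul_zero]

omit [Fintype (Rt C)] in
private theorem brB_ip_zero : ip C 0 0 = 0 := by
  simp [ip]

private theorem brB_sum_ne (a b r : Rt C) (h : ∀ h' : ip C (r.1 - a.1) (r.1 - a.1) = 2,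
    (⟨r.1 - a.1, h'⟩ : Rt C) ≠ b) :
    (if h' : ip C (r.1 - a.1) (r.1 - a.1) = 2 then
        ek K C a.1 (r.1 - a.1) * (e K b).2 ⟨r.1 - a.1, h'⟩ else 0) = 0 := by
  split_ifs with h'
  · rw [e_snd_ne (h h'), mul_zero]
  · rfl

theorem br_e_ng (H : Hyp C K) (a : Rt C) :
    br (e K a) (e K (ng a)) = -hh C (zk a.1) := by
  refine Prod.ext ?_ (funext fun r => ?_)
  · rw [brB_e_fst, e_snd_self]
    show _ = -(zk a.1 : Fin n → K)
    rw [neg_smul, one_smul]
  · rw [brB_e_snd, e_fst, brB_fk_zero_left, neg_zero, zero_mul, zero_add, brB_sum_ne]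
    · show (0 : K) = -0
      rw [neg_zero]
    · intro h' h2
      have h3 : r.1 - a.1 = -a.1 := congrArg Subtype.val h2
      have h4 : r.1 = 0 := by
        have := congrArg (fun z => z + a.1) h3
        simpa using this
      have h5 := r.2
      rw [h4, brB_ip_zero] at h5
      exact absurd h5 (by norm_num)
theorem br_e_e_add (H : Hyp C K) {a b c : Rt C} (hc : c.1 = a.1 + b.1) :
    br (e K a) (e K b) = ek K C a.1 b.1 • e K c := by
  have hcb : c.1 - a.1 = b.1 := by
    rw [hc]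
    abel
  refine Prod.ext ?_ (funext fun r => ?_)
  · rw [brB_e_fst, Prod.smul_fst, e_fst, smul_zero, e_snd_ne, neg_zero, zero_smul]
    intro h1
    have h2 : -a.1 = b.1 := congrArg Subtype.val h1
    have h3 : c.1 = 0 := by
      rw [hc, ← h2]
      abel
    have h5 := c.2
    rw [h3, brB_ip_zero] at h5
    exact absurd h5 (by norm_num)
  · rw [brB_e_snd, e_fst, brB_fk_zero_left, neg_zero, zero_mul, zero_add, Prod.smul_snd,
      Pi.smul_apply, smul_eq_mul]
    by_cases hr : r = c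
    · subst hr
      have h1 : ip C (r.1 - a.1) (r.1 - a.1) = 2 := by
        rw [hcb]
        exact b.2
      have h2 : (⟨r.1 - a.1, h1⟩ : Rt C) = b := Subtype.ext hcb
      rw [dif_pos h1, h2, e_snd_self, e_snd_self, hcb]
    · rw [e_snd_ne hr, mul_zero, brB_sum_ne]
      intro h' h2
      have h3 : r.1 - a.1 = b.1 := congrArg Subtype.val h2
      exact hr (Subtype.ext (by rw [hc, ← h3]; abel))
theorem br_e_e_zero (H : Hyp C K) {a b : Rt C} (h : 0 ≤ ip C a.1 b.1) :
    br (e K a) (e K b) = 0 := by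
  refine Prod.ext ?_ (funext fun r => ?_)
  · rw [brB_e_fst, e_snd_ne, neg_zero, zero_smul]
    · rfl
    · intro h1
      have h2 : -a.1 = b.1 := congrArg Subtype.val h1
      rw [← h2, ip_neg_right, a.2] at h
      exact absurd h (by norm_num)
  · rw [brB_e_snd, e_fst, brB_fk_zero_left, neg_zero, zero_mul, zero_add, brB_sum_ne]
    · rfl
    · intro h' h2
      have h3 : r.1 - a.1 = b.1 := congrArg Subtype.val h2
      have h4 : a.1 + b.1 = r.1 := by
        rw [← h3]
        abel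
      have h5 := ip_of_root_add (K := K) H (a := a) (b := b) (by rw [h4]; exact r.2)
      rw [h5] at h
      exact absurd h (by norm_num)

/-- coordinates of a bracket with a root vector -/
theorem br_e_snd (H : Hyp C K) (a : Rt C) (x : LL C K) (r : Rt C)
    (hr : ip C r.1 a.1 = 1) (d : Rt C) (hd : d.1 = r.1 - a.1) :
    (br (e K a) x).2 r = ek K C a.1 d.1 * x.2 d := by
  have hra : r ≠ a := by
    intro h
    rw [h, a.2] at hr
    exact absurd hr (by norm_num)
  have h1 : ip C (r.1 - a.1) (r.1 - a.1) = 2 := by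
    rw [← hd]
    exact d.2
  have h2 : (⟨r.1 - a.1, h1⟩ : Rt C) = d := Subtype.ext hd.symm
  rw [brB_e_snd, e_snd_ne hra, mul_zero, zero_add, dif_pos h1, h2, hd]
theorem br_e_snd_self (H : Hyp C K) (a : Rt C) (x : LL C K) :
    (br (e K a) x).2 a = -fk C x.1 (zk a.1) := by
  have h1 : ¬ ip C (a.1 - a.1) (a.1 - a.1) = 2 := by
    rw [sub_self, brB_ip_zero]
    norm_num
  rw [brB_e_snd, e_snd_self, mul_one, dif_neg h1, add_zero]
theorem br_e_snd_zero (H : Hyp C K) (a : Rt C) (x : LL C K) (r : Rt C)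
    (hr : ip C r.1 a.1 ≠ 1) (hra : r ≠ a) : (br (e K a) x).2 r = 0 := by
  have h1 : ¬ ip C (r.1 - a.1) (r.1 - a.1) = 2 := fun h => hr (ip_of_root_sub (K := K) H h)
  rw [brB_e_snd, e_snd_ne hra, mul_zero, zero_add, dif_neg h1]
theorem br_e_fst (H : Hyp C K) (a : Rt C) (x : LL C K) :
    (br (e K a) x).1 = -(x.2 (ng a)) • zk a.1 := brB_e_fst a x
theorem br_hh_snd (h : Fin n → K) (x : LL C K) (r : Rt C) :
    (br (hh C h) x).2 r = fk C h (zk r.1) * x.2 r := brB_hh_snd h x r
theorem br_hh_fst (h : Fin n → K) (x : LL C K) : (br (hh C h) x).1 = 0 := brB_hh_fst h x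

theorem fm_e_left (a : Rt C) (x : LL C K) : fm (e K a) x = -x.2 (ng a) := by
  show fk C (e K a).1 x.1 - ∑ b : Rt C, (e K a).2 b * x.2 (ng b) = _
  rw [e_fst, brB_fk_zero_left, zero_sub, Finset.sum_eq_single a]
  · rw [e_snd_self, one_mul]
  · intro b _ hb
    rw [e_snd_ne hb, zero_mul]
  · intro h
    exact absurd (Finset.mem_univ a) h
theorem fm_e_right (a : Rt C) (x : LL C K) : fm x (e K a) = -x.2 (ng a) := by
  show fk C x.1 (e K a).1 - ∑ b : Rt C, x.2 b * (e K a).2 (ng b) = _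
  rw [e_fst, brB_fk_zero_right, zero_sub, Finset.sum_eq_single (ng a)]
  · rw [ng_ng, e_snd_self, mul_one]
  · intro b _ hb
    rw [e_snd_ne, mul_zero]
    intro h
    exact hb (by rw [← h, ng_ng])
  · intro h
    exact absurd (Finset.mem_univ _) h
theorem fm_hh_left (h : Fin n → K) (x : LL C K) : fm (hh C h) x = fk C h x.1 := by
  show fk C (hh C h).1 x.1 - ∑ b : Rt C, (hh C h).2 b * x.2 (ng b) = _
  simp [hh_snd, hh_fst]
theorem fm_hh_right (h : Fin n → K) (x : LL C K) : fm x (hh C h) = fk C x.1 h := by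
  show fk C x.1 (hh C h).1 - ∑ b : Rt C, x.2 b * (hh C h).2 (ng b) = _
  simp [hh_snd, hh_fst]

end Pool.Agent.H33.EQ
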