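import Pool.Agent.H33.EQ.PG
import Pool.Agent.H33.EQ.HdX

/-!
# EL-27: the nilpotent subalgebra of a `T1`-invariant `p`-group

`SF_closed`: `xr_conj_add` with all `s`, `t`.
`SF_no_opp`: if `a, ng a ∈ SF P` then `hd a c ∈ P` (`hd_eq`), so `hd a c = 1` by `TT_order`
(elements of a `p`-group), but `wt (hd a c) a = c²` and there is `c` with `c² ≠ 1`.
`ext_in_sp`: let `S = SF P`, closed, without opposite roots.  By `pg` `P` is generated by the
`xr b s`, `b ∈ S`; for such a generator `u`: `u x - x ∈ sp S` for `x ∈ L0`, and `u x ∈ sp S` for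
`x ∈ sp S` (`e_c`, `c ∈ S`: `b + c` is not zero and if it is a root it is in `S`); so the same
holds for all `u ∈ P`.  For `h ∈ L0`: `ex v h - ex (-v) h = 2 [v,h]` is in `sp S`, so for every
root `b` not in `S`: `(h,b) v_b = 0` for all `h`, so `v_b = 0` (`(h,b) ≠ 0` for
`h = zk y`, `ip y b = 1`).  So `v = v_0 + v'`, `v' ∈ sp S`.  For `h ∈ L0` the `L0`-part of
`[v,[v,h]] = -2 fm v h v`: `[v,h] = [v',h] ∈ sp S`, `[v_0 + v', sp S] ⊆ sp S` (no opposite
roots), so `0 = -2 (v_0,h) v_0`; so `v_0 = 0` (`fk_nondeg`).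
`sp_inv`: `f (xr a s) f⁻¹ = ex (s • f (e a)) ∈ P`.
-/

namespace Pool.Agent.H33.EQ

variable {n : ℕ} {C : Matrix (Fin n) (Fin n) ℤ} {K : Type} [Field K] [Fintype (Rt C)]

/-- the span of the root vectors in `S` -/
def sp (C : Matrix (Fin n) (Fin n) ℤ) (K : Type) [Field K] (S : Set (Rt C)) :
    Submodule K (LL C K) where
  carrier := {x | x.1 = 0 ∧ ∀ b : Rt C, b ∉ S → x.2 b = 0}
  add_mem' := by
    rintro x y ⟨h1, h2⟩ ⟨h3, h4⟩
    refine ⟨?_, fun b hb => ?_⟩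
    · simp [h1, h3]
    · simp [h2 b hb, h4 b hb]
  zero_mem' := ⟨rfl, fun _ _ => rfl⟩
  smul_mem' := by
    rintro c x ⟨h1, h2⟩
    refine ⟨?_, fun b hb => ?_⟩
    · simp [h1]
    · simp [h2 b hb]

theorem SF_closed (H : Hyp C K) (F : Subgroup (LL C K ≃ₗ[K] LL C K)) {a b c : Rt C}
    (hc : c.1 = a.1 + b.1) (ha : a ∈ SF F) (hb : b ∈ SF F) : c ∈ SF F := by
  intro s
  have h := xr_conj_add H hc (s * ek K C a.1 b.1) (1 : K)
  have h1 : s * ek K C a.1 b.1 * 1 * ek K C a.1 b.1 = s := by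
    rw [mul_one, mul_assoc, ek_mul_self, mul_one]
  rw [h1] at h
  have h2 : xr c s = (xr b (1 : K))⁻¹ * (xr a (s * ek K C a.1 b.1) * xr b (1 : K) *
      (xr a (s * ek K C a.1 b.1))⁻¹) := by
    rw [h]; group
  rw [h2]
  exact mul_mem (inv_mem (hb _)) (mul_mem (mul_mem (ha _) (hb _)) (inv_mem (ha _)))

private theorem CAa_exists (H : Hyp C K) : ∃ c : K, c ≠ 0 ∧ c ≠ 1 ∧ c ≠ -1 := by
  by_contra hcon
  push Not at hcon
  have h1 : (Set.univ : Set K) ⊆ {0, 1, -1} := by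
    intro c _
    by_cases h0 : c = 0
    · exact Or.inl h0
    · by_cases h1 : c = 1
      · exact Or.inr (Or.inl h1)
      · exact Or.inr (Or.inr (hcon c h0 h1))
  have h2 : (Set.univ : Set K).ncard ≤ ({0, 1, -1} : Set K).ncard :=
    Set.ncard_le_ncard h1 (Set.toFinite _)
  have h3 : ({0, 1, -1} : Set K).ncard ≤ 3 := by
    refine (Set.ncard_insert_le _ _).trans ?_
    have := Set.ncard_insert_le (1 : K) {-1}
    rw [Set.ncard_singleton] at this
    omega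
  rw [Set.ncard_univ] at h2
  have hc8 := H.card; omega

theorem SF_no_opp (H : Hyp C K) {p : ℕ} [Fact p.Prime] [CharP K p]
    (P : Subgroup (LL C K ≃ₗ[K] LL C K)) (hP : IsPGroup p P) {a : Rt C} (ha : a ∈ SF P) :
    ng a ∉ SF P := by
  intro hna
  obtain ⟨c, hc0, hc1, hc2⟩ := CAa_exists H
  have hmem : (hd C a.1 (Units.mk0 c hc0) : LL C K ≃ₗ[K] LL C K) ∈ P := by
    rw [hd_eq H a]
    exact mul_mem (mul_mem (mul_mem (ha _) (hna _)) (ha _))
      (inv_mem (mul_mem (mul_mem (ha _) (hna _)) (ha _)))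
  obtain ⟨k, hk⟩ := hP ⟨_, hmem⟩
  have hk' : (hd C a.1 (Units.mk0 c hc0) : LL C K ≃ₗ[K] LL C K) ^ p ^ k = 1 := by
    have := congrArg Subtype.val hk
    simpa using this
  have h1 := TT_order H (hd_mem_TT H a.1 (Units.mk0 c hc0)) k hk'
  have h2 := wt_hd (K := K) a.1 (Units.mk0 c hc0) a
  rw [h1, wt_one, a.2] at h2
  have h3 : c * c = 1 := by
    have h4 : ((Units.mk0 c hc0 ^ (2 : ℤ) : Kˣ) : K) = c * c := by
      rw [show (2 : ℤ) = ((2 : ℕ) : ℤ) from rfl, zpow_natCast, Units.val_pow_eq_pow_val,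
        Units.val_mk0, sq]
    rw [← h4]; exact h2.symm
  rcases mul_self_eq_one_iff.1 h3 with h | h
  · exact hc1 h
  · exact hc2 h

private theorem CAa_e_mem {S : Set (Rt C)} {b : Rt C} (hb : b ∈ S) : e K b ∈ sp C K S := by
  refine ⟨e_fst b, fun d hd => e_snd_ne ?_⟩
  rintro rfl
  exact hd hb

private def CAaQ (S : Set (Rt C)) (u : LL C K ≃ₗ[K] LL C K) : Prop :=
  (∀ x ∈ L0 C K, u x - x ∈ sp C K S) ∧ ∀ x ∈ sp C K S, u x ∈ sp C K S

private theorem CAa_gen (H : Hyp C K) {S : Set (Rt C)}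
    (hcl : ∀ a b c : Rt C, c.1 = a.1 + b.1 → a ∈ S → b ∈ S → c ∈ S)
    (hno : ∀ a : Rt C, a ∈ S → ng a ∉ S) {b : Rt C} (hb : b ∈ S) (s : K) :
    CAaQ S (xr b s) := by
  constructor
  · intro x hx
    rw [eq_hh_of_mem hx, xr_hh H b s, sub_sub_cancel_left]
    exact neg_mem (Submodule.smul_mem _ _ (CAa_e_mem hb))
  · rintro x ⟨h1, h2⟩
    refine ⟨?_, fun d hd => ?_⟩
    · rw [xr_fst H, h1, h2 _ (hno b hb), mul_zero, zero_smul, sub_zero]
    · by_cases hdb : d = b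
      · exact absurd (hdb ▸ hb) hd
      · by_cases h3 : ip C d.1 b.1 = 1
        · have h4 := root_sub H h3
          have h5 : (⟨d.1 - b.1, h4⟩ : Rt C) ∉ S := by
            intro h6
            refine hd (hcl _ _ _ ?_ h6 hb)
            show d.1 = (d.1 - b.1) + b.1
            abel
          rw [xr_snd_one H b s x d ⟨d.1 - b.1, h4⟩ rfl, h2 d hd, h2 _ h5, mul_zero, add_zero]
        · rw [xr_snd_other H b s x d h3 hdb, h2 d hd]

private theorem CAa_mul {S : Set (Rt C)} {u v : LL C K ≃ₗ[K] LL C K} (hu : CAaQ S u)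
    (hv : CAaQ S v) : CAaQ S (u * v) := by
  constructor
  · intro x hx
    have e : (u * v) x - x = u (v x - x) + (u x - x) := by
      rw [LinearEquiv.mul_apply, map_sub]; abel
    rw [e]
    exact add_mem (hu.2 _ (hv.1 x hx)) (hu.1 x hx)
  · intro x hx
    exact hu.2 _ (hv.2 x hx)

private theorem CAa_all (H : Hyp C K) {p : ℕ} [Fact p.Prime] [CharP K p]
    (P : Subgroup (LL C K ≃ₗ[K] LL C K)) (hP : IsPGroup p P) (hPG : P ≤ GG C K)
    (hT : ∀ t ∈ T1 C K, ∀ u ∈ P, t * u * t⁻¹ ∈ P) {u : LL C K ≃ₗ[K] LL C K} (hu : u ∈ P) :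
    CAaQ (SF P) u := by
  have hcl : ∀ a b c : Rt C, c.1 = a.1 + b.1 → a ∈ SF P → b ∈ SF P → c ∈ SF P :=
    fun a b c hc ha hb => SF_closed H P hc ha hb
  have hno : ∀ a : Rt C, a ∈ SF P → ng a ∉ SF P := fun a ha => SF_no_opp H P hP ha
  have key : ∀ w ∈ Subgroup.closure {g : LL C K ≃ₗ[K] LL C K | ∃ b ∈ SF P, ∃ s : K, g = xr b s},
      CAaQ (SF P) w ∧ CAaQ (SF P) w⁻¹ := by
    intro w hw
    refine Subgroup.closure_induction (p := fun w _ => CAaQ (SF P) w ∧ CAaQ (SF P) w⁻¹)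
      ?_ ?_ ?_ ?_ hw
    · rintro g ⟨b, hb, s, rfl⟩
      refine ⟨CAa_gen H hcl hno hb s, ?_⟩
      rw [← xr_neg H]
      exact CAa_gen H hcl hno hb (-s)
    · refine ⟨⟨fun x _ => ?_, fun x hx => hx⟩, ?_⟩
      · show x - x ∈ _
        rw [sub_self]; exact zero_mem _
      · rw [inv_one]
        refine ⟨fun x _ => ?_, fun x hx => hx⟩
        show x - x ∈ _
        rw [sub_self]; exact zero_mem _
    · intro x y _ _ hx hy
      refine ⟨CAa_mul hx.1 hy.1, ?_⟩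
      rw [mul_inv_rev]
      exact CAa_mul hy.2 hx.2
    · intro x _ hx
      refine ⟨hx.2, ?_⟩
      rw [inv_inv]
      exact hx.1
  exact (key u (pg H P hP hPG hT hu)).1

theorem ext_in_sp (H : Hyp C K) {p : ℕ} [Fact p.Prime] [CharP K p]
    (P : Subgroup (LL C K ≃ₗ[K] LL C K)) (hP : IsPGroup p P) (hPG : P ≤ GG C K)
    (hT : ∀ t ∈ T1 C K, ∀ u ∈ P, t * u * t⁻¹ ∈ P) {v : LL C K} (hv : IsExt v)
    (hvP : ∀ s : K, ex (s • v) ∈ P) : v ∈ sp C K (SF P) := by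
  have h1 : ex v ∈ P := by simpa using hvP 1
  obtain ⟨c, hc0, hc1, -⟩ := CAa_exists H
  have h2 : ex (c • v) ∈ P := hvP c
  have k1 := CAa_all H P hP hPG hT h1
  have k2 := CAa_all H P hP hPG hT h2
  have h2ne : c * (c - 1) ≠ 0 := mul_ne_zero hc0 (sub_ne_zero.2 hc1)
  have hbr : ∀ x ∈ L0 C K, br v x ∈ sp C K (SF P) := by
    intro x hx
    have a1 := k1.1 x hx
    have a2 := k2.1 x hx
    rw [ex_apply' H hv] at a1
    rw [ex_apply' H (hv.smul c)] at a2
    have e : (c * c) • (x + br v x - fm v x • v - x) -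
        (x + br (c • v) x - fm (c • v) x • (c • v) - x) = (c * (c - 1)) • br v x := by
      rw [map_smul, LinearMap.smul_apply, map_smul, LinearMap.smul_apply, smul_eq_mul]
      module
    have a3 := sub_mem (Submodule.smul_mem _ (c * c) a1) a2
    rw [e] at a3
    exact (Submodule.smul_mem_iff _ h2ne).1 a3
  have hfm : ∀ x ∈ L0 C K, fm v x • v ∈ sp C K (SF P) := by
    intro x hx
    have a1 := k1.1 x hx
    rw [ex_apply' H hv] at a1
    have e : fm v x • v = br v x - (x + br v x - fm v x • v - x) := by abel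
    rw [e]
    exact sub_mem (hbr x hx) a1
  by_cases h0 : v.1 = 0
  · refine ⟨h0, fun b hb => ?_⟩
    obtain ⟨y, hy⟩ := exists_one H b
    have a1 := (hbr (hh C (zk y.1)) (hh_mem_L0 _)).2 b hb
    rw [br_skew H, Prod.snd_neg, Pi.neg_apply, br_hh_snd, fk_zk_zk, hy, Int.cast_one,
      one_mul] at a1
    exact neg_eq_zero.1 a1
  · exfalso
    apply h0
    apply fk_nondeg H
    intro a
    by_contra hne
    have a1 := hfm (hh C (zk a.1)) (hh_mem_L0 _)
    rw [fm_hh_right] at a1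
    exact h0 ((Submodule.smul_mem_iff _ hne).1 a1).1

theorem sp_inv (H : Hyp C K) {p : ℕ} [Fact p.Prime] [CharP K p]
    (P F : Subgroup (LL C K ≃ₗ[K] LL C K)) (hP : IsPGroup p P) (hPG : P ≤ GG C K)
    (hT : ∀ t ∈ T1 C K, ∀ u ∈ P, t * u * t⁻¹ ∈ P) (hF : F ≤ GG C K)
    (hn : ∀ f ∈ F, ∀ u ∈ P, f * u * f⁻¹ ∈ P) :
    ∀ f ∈ F, ∀ x : LL C K, f x ∈ sp C K (SF P) ↔ x ∈ sp C K (SF P) := by
  have key : ∀ f ∈ F, ∀ x ∈ sp C K (SF P), f x ∈ sp C K (SF P) := by
    rintro f hf x ⟨h1, h2⟩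
    have hd := decomp x
    rw [h1, hh_zero, zero_add] at hd
    rw [hd, map_sum]
    refine sum_mem fun a _ => ?_
    rw [map_smul]
    by_cases ha : a ∈ SF P
    · refine Submodule.smul_mem _ _ (ext_in_sp H P hP hPG hT ((isExt_e H a).map (hF hf)) fun s => ?_)
      rw [← conj_xr H (hF hf)]
      exact hn f hf _ (ha s)
    · rw [h2 a ha, zero_smul]; exact zero_mem _
  intro f hf x
  refine ⟨fun h => ?_, fun h => key f hf x h⟩
  have h3 := key f⁻¹ (inv_mem hf) _ h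
  have h4 : f⁻¹ (f x) = x := f.symm_apply_apply x
  rwa [h4] at h3

end Pool.Agent.H33.EQ
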