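import Pool.Agent.H33.EQ.CAc
import Pool.Agent.H33.EQ.Fil

/-!
# EL-30: an automorphism which preserves `sp S` is in `Par (∑ S)`
-/

namespace Pool.Agent.H33.EQ

variable {n : ℕ} {C : Matrix (Fin n) (Fin n) ℤ} {K : Type} [Field K] [Fintype (Rt C)]

theorem CAd_cnt (H : Hyp C K) (S : Finset (Rt C)) (a : Rt C) :
    ∑ s ∈ S, (ip C a.1 s.1 + 2) =
      ∑ i ∈ ({-1, 0, 1, 2} : Finset ℤ), ((S.filter fun s => i ≤ ip C a.1 s.1).card : ℤ) := by
  simp only [Finset.card_filter, Nat.cast_sum]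
  rw [Finset.sum_comm]
  refine Finset.sum_congr rfl fun s _ => ?_
  have h1 := ip_le_two H a s
  have h2 := neg_two_le_ip H a s
  generalize ip C a.1 s.1 = k at h1 h2
  interval_cases k <;> decide

theorem CAd_mono (H : Hyp C K) (S : Finset (Rt C)) (a b : Rt C)
    (h : ∀ i : ℤ, (S.filter fun s => i ≤ ip C a.1 s.1).card ≤
      (S.filter fun s => i ≤ ip C b.1 s.1).card) :
    ip C (∑ s ∈ S, s.1) a.1 ≤ ip C (∑ s ∈ S, s.1) b.1 := by
  have h1 := CAd_cnt H S a
  have h2 := CAd_cnt H S b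
  have h3 : ∑ i ∈ ({-1, 0, 1, 2} : Finset ℤ), ((S.filter fun s => i ≤ ip C a.1 s.1).card : ℤ) ≤
      ∑ i ∈ ({-1, 0, 1, 2} : Finset ℤ), ((S.filter fun s => i ≤ ip C b.1 s.1).card : ℤ) :=
    Finset.sum_le_sum fun i _ => by exact_mod_cast h i
  rw [← h1, ← h2, Finset.sum_add_distrib, Finset.sum_add_distrib] at h3
  rw [ip_sum_left, ip_sum_left]
  have h4 : ∀ c : Rt C, ∑ s ∈ S, ip C s.1 c.1 = ∑ s ∈ S, ip C c.1 s.1 := fun c =>
    Finset.sum_congr rfl fun s _ => ip_comm H.symm _ _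
  rw [h4, h4]
  linarith

theorem inv_Par (H : Hyp C K) (S : Finset (Rt C)) {g : LL C K ≃ₗ[K] LL C K}
    (hg : g ∈ GG C K)
    (hS : ∀ x : LL C K, g x ∈ sp C K (S : Set (Rt C)) ↔ x ∈ sp C K (S : Set (Rt C))) :
    g ∈ Par C K (∑ b ∈ S, b.1) := by
  classical
  apply mem_Par_of_root H hg
  intro a
  set δ : Fin n → ℤ := ∑ b ∈ S, b.1 with hδ
  have hv : IsExt (g (e K a)) := (isExt_e H a).map hg
  have hv0 : g (e K a) ≠ 0 := fun h => e_ne_zero (K := K) a (g.injective (h.trans (map_zero g).symm))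
  set v : LL C K := g (e K a) with hvdef
  obtain ⟨l, hl1, hl2, hl3, hl4⟩ := exists_refine H δ
  -- the minimal root
  obtain ⟨a0, ha0⟩ := ext_root_coord H hv hv0
  obtain ⟨B, hBm, hBmin⟩ := Finset.exists_min_image
    (Finset.univ.filter fun d : Rt C => v.2 d ≠ 0) (fun d => l d.1)
    ⟨ng a0, by rw [Finset.mem_filter]; exact ⟨Finset.mem_univ _, ha0⟩⟩
  have hB : v.2 B ≠ 0 := (Finset.mem_filter.mp hBm).2
  have hmin : ∀ d : Rt C, v.2 d ≠ 0 → l B.1 ≤ l d.1 := fun d hd =>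
    hBmin d (Finset.mem_filter.mpr ⟨Finset.mem_univ _, hd⟩)
  set b : Rt C := ng B with hb
  have hnb : ng b = B := ng_ng B
  have hlb : l b.1 = -l B.1 := by rw [hb, ng_val, map_neg]
  have hc : v.2 (ng b) ≠ 0 := by rw [hnb]; exact hB
  obtain ⟨r, hr, t, hvt⟩ := xd H hv b hc
  rw [hnb] at hvt
  have hr' : r ∈ Subgroup.closure {g | ∃ (b : Rt C) (s : K), 0 < l b.1 ∧ g = xr b s} := by
    refine Subgroup.closure_mono ?_ hr
    rintro _ ⟨b', d, s, -, hd, hvd, rfl⟩
    refine ⟨b', s, ?_, rfl⟩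
    have h1 := hmin d hvd
    rw [hd, map_sub, hlb] at h1
    have h2 := hl3 b'
    omega
  -- `t = 0` or `l b > 0`
  have ht : t = 0 ∨ 0 < l b.1 := by
    by_contra hcon
    push Not at hcon
    obtain ⟨ht0, hlb0⟩ := hcon
    have hlb1 := hl3 b
    apply ht0
    have hvW : v ∈ Wl C K l (-1) := by
      refine ⟨fun d hd => ?_, fun h => absurd h (by norm_num)⟩
      by_contra hne
      have := hmin d hne
      omega
    have h1 := (pos_act H l (inv_mem hr')).1 (-1) v hvW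
    have h2 : r⁻¹ v = v.2 B • xr b t (e K B) := by
      have h3 : r⁻¹ (r (xr b t (e K B))) = xr b t (e K B) := r.symm_apply_apply _
      conv_lhs => rw [hvt]
      rw [map_smul, h3]
    rw [h2] at h1
    have h4 := h1.1 b (by omega)
    have h5 : (v.2 B • xr b t (e K B)).2 b = v.2 B * t ^ 2 := by
      rw [Prod.smul_snd, Pi.smul_apply, smul_eq_mul, xr_snd_self H, hnb, e_snd_self, e_fst,
        fk_zero_left, e_snd_ne (a := B) (b := b) (by rw [hb]; exact ng_ne H B)]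
      ring
    rw [h5] at h4
    rcases mul_eq_zero.mp h4 with h6 | h6
    · exact absurd h6 hB
    · exact pow_eq_zero_iff (by norm_num) |>.mp h6
  set r' : LL C K ≃ₗ[K] LL C K := r * xr b t with hr'def
  have hr'2 : r' ∈ Subgroup.closure {g | ∃ (b : Rt C) (s : K), 0 < l b.1 ∧ g = xr b s} := by
    refine mul_mem hr' ?_
    rcases ht with h | h
    · rw [h, xr_zero H]
      exact one_mem _
    · exact Subgroup.subset_closure ⟨b, t, h, rfl⟩
  have hr'G : r' ∈ GG C K := by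
    refine (Subgroup.closure_le (GG C K)).mpr ?_ hr'2
    rintro _ ⟨b', s, -, rfl⟩
    exact xr_mem_GG H b' s
  have hvr : v = v.2 B • r' (e K B) := hvt
  have hmap : (r'⁻¹ * g) (e K a) = v.2 B • e K B := by
    show r'⁻¹ v = _
    have h3 : r'⁻¹ (r' (e K B)) = e K B := r'.symm_apply_apply _
    conv_lhs => rw [hvr]
    rw [map_smul, h3]
  have hFil := fun i x => Fil_map H (mul_mem (inv_mem hr'G) hg) hmap i x
  -- the two images coincide
  have himg : ∀ i, (Fil C K a.1 i).map (g : LL C K →ₗ[K] LL C K) =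
      (Fil C K B.1 i).map (r' : LL C K →ₗ[K] LL C K) := by
    intro i
    ext y
    constructor
    · rintro ⟨x, hx, rfl⟩
      refine ⟨(r'⁻¹ * g) x, (hFil i x).mpr hx, ?_⟩
      exact r'.apply_symm_apply (g x)
    · rintro ⟨x, hx, rfl⟩
      refine ⟨g⁻¹ (r' x), ?_, ?_⟩
      · show g⁻¹ (r' x) ∈ Fil C K a.1 i
        rw [← hFil i]
        have h3 : (r'⁻¹ * g) (g⁻¹ (r' x)) = x := by
          show r'⁻¹ (g (g⁻¹ (r' x))) = x
          have h4 : g (g⁻¹ (r' x)) = r' x := g.apply_symm_apply _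
          rw [h4]
          exact r'.symm_apply_apply x
        rw [h3]
        exact hx
      · exact g.apply_symm_apply _
  have hcard : ∀ i : ℤ, (S.filter fun s => i ≤ ip C a.1 s.1).card ≤
      (S.filter fun s => i ≤ ip C B.1 s.1).card := by
    intro i
    have h1 := sp_Fil_dim (K := K) H S a.1 i
    have h2 := tri_dim (K := K) H S B.1 i l hl3 hl4 hr'2
    rw [← himg i] at h2
    have h3 : (sp C K (S : Set (Rt C)) ⊓ Fil C K a.1 i : Submodule K (LL C K)).map
        (g : LL C K →ₗ[K] LL C K) = sp C K (S : Set (Rt C)) ⊓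
        (Fil C K a.1 i).map (g : LL C K →ₗ[K] LL C K) := by
      ext y
      constructor
      · rintro ⟨x, ⟨hx1, hx2⟩, rfl⟩
        exact ⟨(hS x).mpr hx1, ⟨x, hx2, rfl⟩⟩
      · rintro ⟨hy, ⟨x, hx, rfl⟩⟩
        exact ⟨x, ⟨(hS x).mp hy, hx⟩, rfl⟩
    have h4 := LinearEquiv.finrank_map_eq g
      (sp C K (S : Set (Rt C)) ⊓ Fil C K a.1 i : Submodule K (LL C K))
    rw [h3] at h4
    rw [← h1, ← h4]
    exact h2
  have hle := CAd_mono H S a B hcard
  rw [← hδ] at hle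
  refine ⟨fun d hd => ?_, fun hpos => ?_⟩
  · by_contra hne
    have h1 := hmin d hne
    have h2 : ¬ ip C δ d.1 < ip C δ B.1 := fun h => absurd (hl1 _ _ h) (by omega)
    omega
  · have h1 : 0 < l B.1 := hl2 B (by omega)
    have h2 := ((pos_act H l hr'2).2.1 B).2 h1.le
    have h3 : (r' (e K B)).1 = 0 := by
      have h4 : (r' (e K B) - e K B).1 = (r' (e K B)).1 - (e K B).1 := rfl
      rw [h4, e_fst, sub_zero] at h2
      exact h2
    rw [hvr, Prod.smul_fst, h3, smul_zero]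

end Pool.Agent.H33.EQ
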