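import Pool.Agent.H33.EQ.XrA

/-!
# EL-16 (step 2): decomposition of extremal vectors

Let `v` be extremal with `v.2 (ng a) = c ≠ 0`.  The degree is `ip · a` (`-2` at `ng a`).
Step 1: there is `r1` in the group generated by the `xr b s` with `ip b a = 1` and
`v.2 (b - a) ≠ 0` such that `r1⁻¹ v` has `ng a`-coordinate `c` and all coordinates of degree
`-1` zero.  Induction on the number of non zero coordinates of degree `-1`: `xr b s v` changes
among the coordinates of degree `≤ -1` only the one at `b - a`, by `s ε(b,-a) c`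
(`xr_snd_one`, `xr_snd_other`; `d = r - b` has degree `deg r - 1`, so `d` has degree `-2` only
if `r = b - a`; `xr_snd_self` is in degree 1).
Step 2: let `v` be extremal, `v = c e_(-a) + v_0 + v_1 + v_2`, degrees `0,1,2`.
 For `x = e_y` of degree `-1`... use: for all `x` of degree 1 (`x = e_y`, `ip y a = 1`)
 `fm v x = 0` (no coordinate of degree `-1`), so `[v,[v,x]] = 0`; its part of degree `-1` is
 `[c e_(-a),[v_0,x]] + [v_0,[c e_(-a),x]] = 0`.  With `[v_0,[e_(-a),x]] = [[v_0,e_(-a)],x] +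
 [e_(-a),[v_0,x]]` and `[v_0,e_(-a)] = λ e_(-a)` (degree `-2` is one dimensional,
 `λ = -(v.1, a)`): `2 [e_(-a),[v_0,x]] = -λ [e_(-a),x]`, and `ad e_(-a)` is injective on
 degree 1: `[v_0,x] = -(λ/2) x`, i.e. `v_0` acts on degree 1 as the scalar `μ = (v.1,a)/2`.
 For `b` with `ip b a = 0`: choose `y` with `ip y a = 1`, `ip y b = -1` (`H.rb`): the
 coordinate of `[v_0,e_y]` at `y + b` is `± v_b`, so `v_b = 0`.  So `v_0 = hh v.1`,
 `(v.1, y) = μ` for all `y` with `ip y a = 1`; then `v.1 = μ • zk a` by `fk_nondeg`: check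
 `(v.1 - μ a, y) = 0` for `ip y a = ±1` (clear), `y = ±a` (definition of `μ`), and
 `ip y a = 0`: there is a root `z`, `ip z a = 1`, `ip z y = -1` (`H.rb`), `y = (z+y) - z`.
 Next `x = e_b` with `ip b a = 0`: `[c e_(-a), e_b] = 0`, and the part of degree `-1` of
 `[v,[v,e_b]] = -2 fm v e_b v` is `[c e_(-a),[v_1,e_b]] = 0` (`v` has no part of degree `-1`),
 so `[v_1,e_b] = 0`.  For `y` of degree 1 take `b` with `ip b a = 0`, `ip b y = -1`
 (`H.ra` for `ng y, a`): the coordinate of `[v_1,e_b]` at `y+b` is `± v_y`: so `v_1 = 0`.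
 Finally `0 = fm v v = 2 μ² - 2 c v_a`, so `v = c (e_(-a) + (μ/c) h_a + (μ/c)² e_a)
 = c xr a (-μ/c) e_(-a)` by `xr_e_ng`.
-/

namespace Pool.Agent.H33.EQ

variable {n : ℕ} {C : Matrix (Fin n) (Fin n) ℤ} {K : Type} [Field K] [Fintype (Rt C)]

/-- all coordinates of degree less than `i` (with respect to `ip · a`) vanish -/
def XDbDeg (a : Rt C) (i : ℤ) (u : LL C K) : Prop :=
  (∀ r : Rt C, ip C r.1 a.1 < i → u.2 r = 0) ∧ (0 < i → u.1 = 0)

theorem XDb_br (a : Rt C) {i j : ℤ} {u w : LL C K} (hu : XDbDeg a i u) (hw : XDbDeg a j w) :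
    XDbDeg a (i + j) (br u w) := by
  refine ⟨fun r hr => ?_, fun hij => ?_⟩
  · show (brf u w).2 r = 0
    unfold brf
    dsimp only
    have h1 : fk C u.1 (zk r.1) * w.2 r = 0 := by
      by_cases hi : 0 < i
      · rw [hu.2 hi, fk_zero_left, zero_mul]
      · rw [hw.1 r (by omega), mul_zero]
    have h2 : fk C w.1 (zk r.1) * u.2 r = 0 := by
      by_cases hj : 0 < j
      · rw [hw.2 hj, fk_zero_left, zero_mul]
      · rw [hu.1 r (by omega), mul_zero]
    rw [h1, h2, sub_zero, zero_add]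
    refine Finset.sum_eq_zero fun b _ => ?_
    split_ifs with h
    · have h3 : ip C (r.1 - b.1) a.1 = ip C r.1 a.1 - ip C b.1 a.1 := ip_sub_left _ _ _
      by_cases hb : ip C b.1 a.1 < i
      · rw [hu.1 b hb, zero_mul, mul_zero]
      · rw [hw.1 ⟨r.1 - b.1, h⟩ (by show ip C (r.1 - b.1) a.1 < j; omega), mul_zero, mul_zero]
    · rfl
  · show (brf u w).1 = 0
    unfold brf
    dsimp only
    rw [neg_eq_zero]
    refine Finset.sum_eq_zero fun b _ => ?_
    have h3 : ip C (ng b).1 a.1 = -ip C b.1 a.1 := by rw [ng_val, ip_neg_left]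
    by_cases hb : ip C b.1 a.1 < i
    · rw [hu.1 b hb, zero_mul, zero_smul]
    · rw [hw.1 (ng b) (by omega), mul_zero, zero_smul]

theorem XDb_e (a b : Rt C) {i : ℤ} (h : i ≤ ip C b.1 a.1) : XDbDeg a i (e K b) := by
  refine ⟨fun r hr => ?_, fun _ => e_fst b⟩
  apply e_snd_ne
  intro h1
  rw [h1] at hr
  omega

theorem XDb_coord_f (H : Hyp C K) (a p r : Rt C) (hr : r.1 = p.1 - a.1) (hp : ip C p.1 a.1 = 1)
    (z : LL C K) : (br (e K (ng a)) z).2 r = ek K C (ng a).1 p.1 * z.2 p := by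
  apply br_e_snd H (ng a) z r
  · rw [ng_val, ip_neg_right, hr, ip_sub_left, hp, a.2]
    norm_num
  · rw [ng_val, hr]
    abel

/-- `[v, e_a]` when the coordinates of degree `-1` vanish -/
theorem XDb_va (H : Hyp C K) {v : LL C K} (a : Rt C)
    (h1 : ∀ d : Rt C, ip C d.1 a.1 = -1 → v.2 d = 0) :
    br v (e K a) = v.2 (ng a) • hh C (zk a.1) + fk C v.1 (zk a.1) • e K a := by
  rw [br_skew H]
  refine Prod.ext ?_ (funext fun r => ?_)
  · show -(br (e K a) v).1 = v.2 (ng a) • zk a.1 + fk C v.1 (zk a.1) • (e K a).1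
    rw [br_e_fst H, e_fst, smul_zero, add_zero, neg_smul, neg_neg]
  · show -(br (e K a) v).2 r = v.2 (ng a) * 0 + fk C v.1 (zk a.1) * (e K a).2 r
    rw [mul_zero, zero_add]
    by_cases hra : r = a
    · rw [hra, br_e_snd_self H, neg_neg, e_snd_self, mul_one]
    · rw [e_snd_ne hra, mul_zero]
      by_cases hr1 : ip C r.1 a.1 = 1
      · rw [br_e_snd H a v r hr1 ⟨r.1 - a.1, root_sub H hr1⟩ rfl, h1, mul_zero, neg_zero]
        show ip C (r.1 - a.1) a.1 = -1
        rw [ip_sub_left, hr1, a.2]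
        norm_num
      · rw [br_e_snd_zero H a v r hr1 hra, neg_zero]

/-- the relation (E2) for `x = e_a`, `y = hh k` -/
theorem XDb_rel (H : Hyp C K) {v : LL C K} (hv : IsExt v) (a : Rt C) (hc : v.2 (ng a) ≠ 0)
    (h1 : ∀ d : Rt C, ip C d.1 a.1 = -1 → v.2 d = 0) (k : Fin n → K) :
    fk C k (zk a.1) • v.1 =
      (fk C v.1 (zk a.1) * fk C k (zk a.1) - fk C v.1 k) • (zk a.1 : Fin n → K) ∧
    ∀ r : Rt C, r ≠ a → v.2 r * (fk C k (zk r.1) + ((ip C a.1 r.1 : ℤ) : K) * fk C k (zk r.1) -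
      fk C k (zk a.1)) = 0 := by
  obtain ⟨c, hcdef⟩ : ∃ c, c = v.2 (ng a) := ⟨_, rfl⟩
  have hE := hv.2 (e K a) (hh C k)
  obtain ⟨W, hW⟩ : ∃ W, W = br v (hh C k) := ⟨_, rfl⟩
  have hW1 : W.1 = 0 := by
    rw [hW, br_skew H]
    show -(br (hh C k) v).1 = 0
    rw [br_hh_fst, neg_zero]
  have hW2 : ∀ r : Rt C, W.2 r = -(fk C k (zk r.1) * v.2 r) := by
    intro r
    rw [hW, br_skew H]
    show -(br (hh C k) v).2 r = _
    rw [br_hh_snd]
  have heW : br (e K a) W = (-(W.2 (ng a))) • hh C (zk a.1) := by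
    refine Prod.ext ?_ (funext fun r => ?_)
    · rw [br_e_fst H]
      rfl
    · show _ = -(W.2 (ng a)) * 0
      rw [mul_zero]
      by_cases hra : r = a
      · rw [hra, br_e_snd_self H, hW1, fk_zero_left, neg_zero]
      · by_cases hr1 : ip C r.1 a.1 = 1
        · rw [br_e_snd H a W r hr1 ⟨r.1 - a.1, root_sub H hr1⟩ rfl, hW2, h1, mul_zero, neg_zero,
            mul_zero]
          show ip C (r.1 - a.1) a.1 = -1
          rw [ip_sub_left, hr1, a.2]
          norm_num
        · rw [br_e_snd_zero H a W r hr1 hra]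
  have hfb : fm v (br (e K a) (hh C k)) = c * fk C k (zk a.1) := by
    rw [br_e_hh, map_smul, fm_e_right, smul_eq_mul, ← hcdef]
    ring
  rw [← hW, XDb_va H a h1, ← hcdef, map_add, LinearMap.add_apply, map_smul, map_smul,
    LinearMap.smul_apply, LinearMap.smul_apply, heW, hfb, fm_e_right, ← hcdef, fm_hh_right] at hE
  rw [← hcdef] at hc
  have hWn : W.2 (ng a) = c * fk C k (zk a.1) := by
    rw [hW2, ng_val, zk_neg, fk_neg_right, ← hcdef]
    ring
  rw [hWn] at hE
  constructor
  · have hE1 := congrArg Prod.fst hE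
    have hE2 : ∀ i, fk C v.1 (zk a.1) * (-(c * fk C k (zk a.1)) * (zk a.1 : Fin n → K) i) =
        -(fk C v.1 k * (c * (zk a.1 : Fin n → K) i)) - c * fk C k (zk a.1) * v.1 i := by
      intro i
      have h3 := congrFun hE1 i
      simp only [Prod.fst_add, Prod.smul_fst, Prod.fst_sub, br_hh_fst, hW1, hh_fst, e_fst,
        smul_zero, zero_add, add_zero, Pi.smul_apply, Pi.sub_apply, smul_eq_mul, zero_sub,
        Pi.neg_apply] at h3
      linear_combination h3
    funext i
    show fk C k (zk a.1) * v.1 i = (fk C v.1 (zk a.1) * fk C k (zk a.1) - fk C v.1 k) *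
      (zk a.1 : Fin n → K) i
    apply mul_left_cancel₀ hc
    linear_combination hE2 i
  · intro r hra
    have h3 := congrArg (fun z : LL C K => z.2 r) hE
    simp only [Prod.snd_add, Prod.smul_snd, Prod.snd_sub, Pi.add_apply, Pi.sub_apply,
      Pi.smul_apply, smul_eq_mul, br_hh_snd, hh_snd, e_snd_ne hra, hW2 r, mul_zero, add_zero,
      fk_zk_zk, sub_zero] at h3
    apply mul_left_cancel₀ hc
    linear_combination -h3

/-- Step 2 -/
theorem xd_step2 (H : Hyp C K) {v : LL C K} (hv : IsExt v) (a : Rt C) (hc : v.2 (ng a) ≠ 0)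
    (h1 : ∀ d : Rt C, ip C d.1 a.1 = -1 → v.2 d = 0) :
    ∃ t : K, v = v.2 (ng a) • xr a t (e K (ng a)) := by
  have hrel := XDb_rel H hv a hc h1
  obtain ⟨c, hcdef⟩ : ∃ c, c = v.2 (ng a) := ⟨_, rfl⟩
  rw [← hcdef] at hc ⊢
  have hipna : ip C (ng a).1 a.1 = -2 := by rw [ng_val, ip_neg_left, a.2]
  have hC : ∀ b : Rt C, ip C b.1 a.1 = 0 → v.2 b = 0 := by
    intro b hb
    obtain ⟨y, hy1, hy2⟩ := H.ra b a (Or.inl hb)
    have hba : b ≠ a := by
      rintro rfl
      rw [b.2] at hb
      norm_num at hb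
    have h3 := (hrel (zk y.1)).2 b hba
    rw [fk_zk_zk, fk_zk_zk, hy1, hy2, ip_comm H.symm, hb] at h3
    push_cast at h3
    linear_combination h3
  obtain ⟨y, hya⟩ := exists_one H a
  have hE : ∀ b : Rt C, ip C b.1 a.1 = 1 → v.2 b = 0 := by
    intro b hb
    have hba : b ≠ a := by
      rintro rfl
      rw [b.2] at hb
      norm_num at hb
    have h3 := (hrel (zk y.1)).2 b hba
    rw [fk_zk_zk, fk_zk_zk, hya, ip_comm H.symm a.1, hb] at h3
    push_cast at h3
    have h4 := H.two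
    linear_combination v.2 b * ((ip C y.1 b.1 : ℤ) : K) * h4 - h3
  obtain ⟨m, hm⟩ : ∃ m : K, v.1 = m • zk a.1 := by
    have h3 := (hrel (zk y.1)).1
    rw [fk_zk_zk, hya, Int.cast_one, one_smul] at h3
    exact ⟨_, h3⟩
  have hfin : v = c • e K (ng a) + hh C (m • zk a.1) + v.2 a • e K a := by
    refine Prod.ext ?_ (funext fun r => ?_)
    · show v.1 = c • (e K (ng a)).1 + (hh C (m • zk a.1)).1 + v.2 a • (e K a).1
      rw [e_fst, e_fst, smul_zero, smul_zero, zero_add, add_zero, hh_fst, hm]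
    · show v.2 r = c * (e K (ng a)).2 r + (hh C (m • zk a.1)).2 r + v.2 a * (e K a).2 r
      rw [hh_snd, add_zero]
      by_cases hra : r = ng a
      · have hne : ng a ≠ a := ng_ne H a
        rw [hra, e_snd_self, e_snd_ne hne, mul_one, mul_zero, add_zero, hcdef]
      · rw [e_snd_ne hra, mul_zero, zero_add]
        by_cases hra2 : r = a
        · rw [hra2, e_snd_self, mul_one]
        · rw [e_snd_ne hra2, mul_zero]
          rcases ip_cases H a r with h | h | h | h | h
          · exact absurd h hra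
          · exact h1 r (by rw [ip_comm H.symm, h])
          · exact hC r (by rw [ip_comm H.symm, h])
          · exact hE r (by rw [ip_comm H.symm, h])
          · exact absurd h hra2
  have hquad : c * v.2 a = m ^ 2 := by
    have hz : ip C (y.1 - a.1) (y.1 - a.1) = 2 := root_sub H hya
    obtain ⟨z, hzdef⟩ : ∃ z : Rt C, z.1 = y.1 - a.1 := ⟨⟨_, hz⟩, rfl⟩
    have hzn : z.1 = (ng a).1 + y.1 := by rw [hzdef, ng_val]; abel
    have hzy : y.1 = a.1 + z.1 := by rw [hzdef]; abel
    have hfv : fm v (e K y) = 0 := by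
      rw [fm_e_right, h1, neg_zero]
      rw [ng_val, ip_neg_left, hya]
    have hEE : br v (br v (e K y)) = 0 := by
      rw [hv.1, hfv, mul_zero, zero_smul]
    have hvy : br v (e K y) = (c * ek K C (ng a).1 y.1) • e K z + m • e K y := by
      rw [hfin, map_add, map_add, LinearMap.add_apply, LinearMap.add_apply, map_smul,
        LinearMap.smul_apply, map_smul, LinearMap.smul_apply, br_e_e_add H hzn, br_hh_e,
        br_e_e_zero H (by rw [ip_comm H.symm, hya]; norm_num), smul_zero, add_zero, smul_smul,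
        fk_smul_left, fk_zk_zk, ip_comm H.symm a.1, hya, Int.cast_one, mul_one]
    have hvz : br v (e K z) = (-m) • e K z + (v.2 a * ek K C a.1 z.1) • e K y := by
      have hfin' := congrArg (fun u : LL C K => br u (e K z)) hfin
      rw [hfin', map_add, map_add, LinearMap.add_apply, LinearMap.add_apply, map_smul,
        LinearMap.smul_apply, map_smul, LinearMap.smul_apply, br_e_e_add H hzy, br_hh_e,
        br_e_e_zero H (a := ng a) (b := z) (by
          rw [ng_val, ip_neg_left, hzdef, ip_sub_right, a.2, ip_comm H.symm a.1, hya]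
          norm_num), smul_zero, zero_add, smul_smul,
        fk_smul_left, fk_zk_zk, hzdef, ip_sub_right, a.2, ip_comm H.symm a.1, hya]
      push_cast
      congr 2
      ring
    rw [hvy, map_add, map_smul, map_smul, hvz, hvy] at hEE
    have h3 := congrArg (fun u : LL C K => u.2 y) hEE
    have hyz : y ≠ z := by
      intro h
      have h4 := congrArg Subtype.val h
      rw [hzdef] at h4
      have h5 : a.1 = 0 := by
        have h6 : y.1 - (y.1 - a.1) = 0 := by rw [← h4, sub_self]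
        rwa [sub_sub_cancel] at h6
      have h6 := a.2
      rw [h5, ip_zero_left] at h6
      omega
    simp only [Prod.snd_add, Prod.smul_snd, Pi.add_apply, Pi.smul_apply, smul_eq_mul,
      e_snd_self, e_snd_ne hyz, mul_zero, zero_add, mul_one] at h3
    change _ = (0 : K) at h3
    have h4 : ek K C (ng a).1 y.1 * ek K C a.1 z.1 = -1 := by
      rw [ng_val, ek_neg_left, hzdef, sub_eq_add_neg, ek_add_right, ek_neg_right, ek_self H,
        ← mul_assoc, ek_mul_self, one_mul]
    linear_combination c * v.2 a * h4 - h3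
  refine ⟨-(m / c), ?_⟩
  rw [xr_e_ng H]
  conv_lhs => rw [hfin]
  have h5 : v.2 a = c * (-(m / c)) ^ 2 := by
    have : c * (-(m / c)) ^ 2 = m ^ 2 / c := by
      field_simp
    rw [this, ← hquad]
    field_simp
  have h6 : hh C (m • zk a.1) = (m : K) • hh C (zk a.1) := hh_smul _ _
  rw [h6, h5, smul_add, smul_sub, smul_smul, smul_smul]
  have h7 : c * -(m / c) = -m := by
    field_simp
  rw [h7, neg_smul, sub_neg_eq_add]

end Pool.Agent.H33.EQ
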