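import Pool.Agent.H33.EQ.PG
import Pool.Agent.H33.EQ.XD
import Pool.Agent.H33.EQ.Fil
import Pool.Agent.H33.EQ.HdX

/-!
# EL-33: the basic lemma (P) of Case B

`Qr b` is generated by the `xr c s` with `ip c b ≥ 1` (so `c = b` or `ip c b = 1`).
* `Qr b ≤ Rad b.1` (`gr_xr_pos`), so it is a `p`-group; `xr c s ∈ Qr b`, `s ≠ 0`, implies
  `1 ≤ ip c b` (`xr c s ∈ Par b.1` gives `ip b c ≥ 0`, `gr_xr_zero` excludes 0).
  It is normalised by `TT`.  All its elements commute with `xr b s` (`xr_comm`) and fix `e b`.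
* `Qr_fix`: if `u ∈ Qr b` commutes with `h = hd b z`, `z` a generator of `K^*`, then `u = 1`: the
  subgroup of such `u` is a `T1`-invariant `p`-group (`T1` is abelian), so by `pg` it is generated
  by root elements `xr c s` in it; these satisfy `z^(ip b c) s = s`, `ip b c ∈ {1,2}`, and the
  order of `z` is at least 6, so `s = 0`.
* `PP`: `xd` gives `v = c • r1 (xr b t (e (ng b)))`, `r = r1 * xr b t ∈ Qr b`.
  `ex (s • v) = r * xr (ng b) (s c) * r⁻¹ ∈ F` and `xr b s = r * xr b s * r⁻¹ ∈ F`, so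
  `r h r⁻¹ ∈ F` by `hd_eq`, `h = hd b z ∈ T1`.  So `w = h⁻¹ (r h r⁻¹)` is in `R = F ⊓ Qr b`
  (`h⁻¹ r h ∈ Qr b`).  `y ↦ h⁻¹ y h y⁻¹` maps `R` to `R` and is injective on `Qr b`
  (`y h y⁻¹ = y' h y'⁻¹` implies that `y'⁻¹ y` commutes with `h`, `Qr_fix`), so it is bijective on
  the finite `R`; `w` is the image of some `y ∈ R`, and of `r`, so `r = y ∈ F`.
  `R` is a `T1`-invariant `p`-group, `pg`: generated by `xr c s`, `c ∈ SF R`, these `c` satisfy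
  `c ∈ SF F`, `1 ≤ ip c b`.  Finally `xr (ng b) (s c) = r⁻¹ ex (s • v) r ∈ F`.
-/

namespace Pool.Agent.H33.EQ

variable {n : ℕ} {C : Matrix (Fin n) (Fin n) ℤ} {K : Type} [Field K] [Fintype (Rt C)]

/-- the unipotent radical attached to the root `b` -/
def Qr (K : Type) [Field K] (b : Rt C) : Subgroup (LL C K ≃ₗ[K] LL C K) :=
  Subgroup.closure {g | ∃ (c : Rt C) (s : K), 1 ≤ ip C c.1 b.1 ∧ g = xr c s}

theorem CBb_mem (b c : Rt C) (s : K) (h : 1 ≤ ip C c.1 b.1) : xr c s ∈ Qr K b :=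
  Subgroup.subset_closure ⟨c, s, h, rfl⟩

theorem CBb_le_Rad (H : Hyp C K) (b : Rt C) : Qr K b ≤ Rad H b.1 := by
  unfold Qr
  rw [Subgroup.closure_le]
  rintro g ⟨c, s, hc, rfl⟩
  have h : 0 < ip C b.1 c.1 := by
    rw [ip_comm H.symm]
    omega
  exact (mem_Rad H ⟨xr c s, xr_mem_Par H b.1 c s h.le⟩).2 (gr_xr_pos H b.1 c s h)

theorem CBb_le_GG (H : Hyp C K) (b : Rt C) : Qr K b ≤ GG C K := by
  unfold Qr
  rw [Subgroup.closure_le]
  rintro g ⟨c, s, -, rfl⟩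
  exact xr_mem_GG H c s

theorem CBb_Par (H : Hyp C K) {d : Fin n → ℤ} {c : Rt C} {s : K} (hs : s ≠ 0)
    (h : xr c s ∈ Par C K d) : 0 ≤ ip C d c.1 := by
  by_contra hlt
  push Not at hlt
  have h1 : (e K (ng c) : LL C K) ∈ Fil C K d (-ip C d c.1) :=
    Fil_e_fil d (ng c) (by rw [ng_val, ip_neg_right])
  have h2 := (h.2 _ _).2 h1
  have h3 := h2.2 (by omega)
  rw [xr_e_ng H] at h3
  have h4 : (e K (ng c) - s • hh C (zk c.1) + (s ^ 2) • e K c : LL C K).1 =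
      -(s • (zk c.1 : Fin n → K)) := by
    change (0 : Fin n → K) - s • (zk c.1 : Fin n → K) + (s ^ 2) • (0 : Fin n → K) = _
    rw [smul_zero, add_zero, zero_sub]
  rw [h4, neg_eq_zero] at h3
  rcases smul_eq_zero.1 h3 with h5 | h5
  · exact hs h5
  · exact Fil_zk_ne H c h5

theorem Qr_p (H : Hyp C K) {p : ℕ} [Fact p.Prime] [CharP K p] (b : Rt C) :
    IsPGroup p (Qr K b) := (Rad_pgroup H b.1).to_le (CBb_le_Rad H b)

theorem Qr_xr (H : Hyp C K) (b c : Rt C) {s : K} (hs : s ≠ 0) (h : xr c s ∈ Qr K b) :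
    1 ≤ ip C c.1 b.1 := by
  have h1 := CBb_le_Rad H b h
  have h2 := Rad_le H b.1 h1
  have h3 := CBb_Par H hs h2
  rw [ip_comm H.symm]
  by_contra hlt
  have h4 : ip C b.1 c.1 = 0 := by omega
  have h5 := (mem_Rad H ⟨xr c s, xr_mem_Par H b.1 c s h4.ge⟩).1 h1
  rw [gr_xr_zero H b.1 c s h4] at h5
  rw [← xr_zero H c] at h5
  exact hs (xr_inj H c h5)

theorem Qr_T (H : Hyp C K) (b : Rt C) {t u : LL C K ≃ₗ[K] LL C K} (ht : t ∈ TT C K)
    (hu : u ∈ Qr K b) : t * u * t⁻¹ ∈ Qr K b := by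
  have h1 : Qr K b ≤ (Qr K b).comap (MulAut.conj t).toMonoidHom := by
    conv_lhs => unfold Qr
    rw [Subgroup.closure_le]
    rintro g ⟨c, s, hc, rfl⟩
    change t * xr c s * t⁻¹ ∈ Qr K b
    rw [TT_conj_xr H ht]
    exact CBb_mem b c _ hc
  exact h1 hu

theorem Qr_comm (H : Hyp C K) (b : Rt C) {u : LL C K ≃ₗ[K] LL C K} (hu : u ∈ Qr K b)
    (s : K) : u * xr b s = xr b s * u := by
  have h1 : Qr K b ≤ Subgroup.centralizer ({xr b s} : Set (LL C K ≃ₗ[K] LL C K)) := by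
    conv_lhs => unfold Qr
    rw [Subgroup.closure_le]
    rintro g ⟨c, s', hc, rfl⟩
    rw [SetLike.mem_coe, Subgroup.mem_centralizer_iff]
    intro h hh
    rw [Set.mem_singleton_iff] at hh
    subst hh
    exact (xr_comm H (a := c) (b := b) (by omega) s' s).symm
  have h2 := h1 hu
  rw [Subgroup.mem_centralizer_iff] at h2
  exact (h2 _ rfl).symm

theorem Qr_e (H : Hyp C K) (b : Rt C) {u : LL C K ≃ₗ[K] LL C K} (hu : u ∈ Qr K b) :
    u (e K b) = e K b := by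
  unfold Qr at hu
  induction hu using Subgroup.closure_induction with
  | mem x hx =>
    obtain ⟨c, s, hc, rfl⟩ := hx
    exact xr_e_nonneg H c s (by omega)
  | one => rfl
  | mul x y _ _ hx hy =>
    rw [LinearEquiv.mul_apply, hy, hx]
  | inv x _ hx =>
    apply x.injective
    rw [hx]
    exact x.apply_symm_apply _

theorem Qr_fix (H : Hyp C K) {p : ℕ} [Fact p.Prime] [CharP K p] (b : Rt C) {z : Kˣ}
    (hz : ∀ x : Kˣ, x ∈ Subgroup.zpowers z) {u : LL C K ≃ₗ[K] LL C K} (hu : u ∈ Qr K b)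
    (hc : u * hd C b.1 z = hd C b.1 z * u) : u = 1 := by
  have hfK : Finite K := by
    apply Nat.finite_of_card_ne_zero
    rw [H.card]; norm_num
  have hord : 3 ≤ orderOf z := by
    rw [orderOf_eq_card_of_forall_mem_zpowers hz, Nat.card_units]
    rw [H.card]; norm_num
  let P : Subgroup (LL C K ≃ₗ[K] LL C K) :=
    Qr K b ⊓ Subgroup.centralizer ({hd C b.1 z} : Set (LL C K ≃ₗ[K] LL C K))
  have hmem : ∀ w, w ∈ P ↔ w ∈ Qr K b ∧ w * hd C b.1 z = hd C b.1 z * w := by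
    intro w
    change w ∈ Qr K b ⊓ Subgroup.centralizer ({hd C b.1 z} : Set (LL C K ≃ₗ[K] LL C K)) ↔ _
    rw [Subgroup.mem_inf, Subgroup.mem_centralizer_iff]
    constructor
    · rintro ⟨h1, h2⟩
      exact ⟨h1, (h2 _ rfl).symm⟩
    · rintro ⟨h1, h2⟩
      refine ⟨h1, fun h hh => ?_⟩
      rw [Set.mem_singleton_iff] at hh
      subst hh
      exact h2.symm
  have hPle : P ≤ Qr K b := fun w hw => ((hmem w).1 hw).1
  have hhd := hd_mem_TT H b.1 z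
  have hPT : ∀ t ∈ T1 C K, ∀ w ∈ P, t * w * t⁻¹ ∈ P := by
    intro t ht w hw
    obtain ⟨h1, h2⟩ := (hmem w).1 hw
    have htT := T1_le_TT H ht
    rw [hmem]
    refine ⟨Qr_T H b htT h1, ?_⟩
    have h3 : t⁻¹ * hd C b.1 z = hd C b.1 z * t⁻¹ := TT_comm H (inv_mem htT) hhd
    have h4 : t * hd C b.1 z = hd C b.1 z * t := TT_comm H htT hhd
    calc t * w * t⁻¹ * hd C b.1 z = t * w * (t⁻¹ * hd C b.1 z) := by group
      _ = t * (w * hd C b.1 z) * t⁻¹ := by rw [h3]; group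
      _ = (t * hd C b.1 z) * w * t⁻¹ := by rw [h2]; group
      _ = hd C b.1 z * (t * w * t⁻¹) := by rw [h4]; group
  have h5 := pg H P ((Qr_p H b).to_le hPle) (hPle.trans (CBb_le_GG H b)) hPT
  have h6 : SF P = ∅ := by
    rw [Set.eq_empty_iff_forall_notMem]
    intro c hcP
    have h7 : xr c (1 : K) ∈ P := hcP 1
    obtain ⟨h8, h9⟩ := (hmem _).1 h7
    have h10 := Qr_xr H b c one_ne_zero h8
    have h11 : hd C b.1 z * xr c (1 : K) * (hd C b.1 z)⁻¹ = xr c (1 : K) := by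
      rw [← h9, mul_inv_cancel_right]
    rw [TT_conj_xr H hhd, wt_hd, mul_one, ip_comm H.symm] at h11
    have h12 := xr_inj H c h11
    have h13 : z ^ (ip C c.1 b.1) = 1 := Units.ext h12
    have h14 := ip_le_two H c b
    have h15 : ip C c.1 b.1 = 1 ∨ ip C c.1 b.1 = 2 := by omega
    rcases h15 with h15 | h15
    · rw [h15, zpow_one] at h13
      rw [h13, orderOf_one] at hord
      omega
    · rw [h15] at h13
      have h16 : z ^ 2 = 1 := by exact_mod_cast h13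
      have h17 := orderOf_le_of_pow_eq_one (by norm_num) h16
      omega
  have h18 : u ∈ P := (hmem u).2 ⟨hu, hc⟩
  have h19 := h5 h18
  have h20 : {g : LL C K ≃ₗ[K] LL C K | ∃ b ∈ SF P, ∃ s : K, g = xr b s} = ∅ := by
    rw [Set.eq_empty_iff_forall_notMem]
    rintro g ⟨c, hc', -⟩
    rw [h6] at hc'
    exact hc'
  rw [h20, Subgroup.closure_empty, Subgroup.mem_bot] at h19
  exact h19

theorem PP (H : Hyp C K) {p : ℕ} [Fact p.Prime] [CharP K p]
    (F : Subgroup (LL C K ≃ₗ[K] LL C K)) (hF : F ≤ GG C K) (hT : T1 C K ≤ F) {b : Rt C}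
    (hb : b ∈ SF F) {v : LL C K} (hv : IsExt v) (hvF : ∀ s : K, ex (s • v) ∈ F)
    (hne : v.2 (ng b) ≠ 0) :
    ng b ∈ SF F ∧ ∃ r ∈ Subgroup.closure {g : LL C K ≃ₗ[K] LL C K |
        ∃ (c : Rt C) (s : K), c ∈ SF F ∧ 1 ≤ ip C c.1 b.1 ∧ g = xr c s},
      ∃ k : K, k ≠ 0 ∧ v = k • r (e K (ng b)) := by
  have hfK : Finite K := by
    apply Nat.finite_of_card_ne_zero
    rw [H.card]; norm_num
  haveI hfin : Finite (LL C K ≃ₗ[K] LL C K) := finite_group H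
  obtain ⟨z, hz⟩ := IsCyclic.exists_generator (α := Kˣ)
  obtain ⟨r1, hr1, t, hvt⟩ := xd H hv b hne
  have hr1Q : r1 ∈ Qr K b := by
    refine (Subgroup.closure_mono ?_ : _ ≤ Qr K b) hr1
    rintro g ⟨b', d, s, h1, -, -, rfl⟩
    exact ⟨b', s, h1.ge, rfl⟩
  obtain ⟨r, hr⟩ : ∃ r, r = r1 * xr b t := ⟨_, rfl⟩
  obtain ⟨k, hk⟩ : ∃ k, k = v.2 (ng b) := ⟨_, rfl⟩
  have hrQ : r ∈ Qr K b := by
    rw [hr]
    exact mul_mem hr1Q (CBb_mem b b t (by rw [b.2]; norm_num))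
  have hvr : v = k • r (e K (ng b)) := by
    rw [hr, hk]
    exact hvt
  have hk0 : k ≠ 0 := by rw [hk]; exact hne
  have hrG : r ∈ GG C K := CBb_le_GG H b hrQ
  have hconj : ∀ s : K, r * xr (ng b) s * r⁻¹ ∈ F := by
    intro s
    rw [conj_xr H hrG]
    have h1 := hvF (s * k⁻¹)
    rw [hvr, smul_smul, mul_assoc, inv_mul_cancel₀ hk0, mul_one] at h1
    exact h1
  have hconj2 : ∀ s : K, r * xr b s * r⁻¹ ∈ F := by
    intro s
    rw [Qr_comm H b hrQ, mul_inv_cancel_right]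
    exact hb s
  obtain ⟨h, hh⟩ : ∃ h : LL C K ≃ₗ[K] LL C K, h = hd C b.1 z := ⟨_, rfl⟩
  have hhT : h ∈ T1 C K := by rw [hh]; exact hd_mem_T1 H _ _
  have hhTT : h ∈ TT C K := T1_le_TT H hhT
  have hhc : r * h * r⁻¹ ∈ F := by
    have h1 : ∀ s : K, xr b s ∈ F.comap (MulAut.conj r).toMonoidHom := fun s => hconj2 s
    have h2 : ∀ s : K, xr (ng b) s ∈ F.comap (MulAut.conj r).toMonoidHom := fun s => hconj s
    have h3 : h ∈ F.comap (MulAut.conj r).toMonoidHom := by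
      rw [hh, hd_eq H b z]
      exact mul_mem (mul_mem (mul_mem (h1 _) (h2 _)) (h1 _))
        (inv_mem (mul_mem (mul_mem (h1 _) (h2 _)) (h1 _)))
    exact h3
  let R : Subgroup (LL C K ≃ₗ[K] LL C K) := F ⊓ Qr K b
  have hRF : R ≤ F := inf_le_left
  have hRQ : R ≤ Qr K b := inf_le_right
  -- the map `y ↦ h⁻¹ y h y⁻¹`
  have hinj : ∀ y ∈ Qr K b, ∀ y' ∈ Qr K b, h⁻¹ * y * h * y⁻¹ = h⁻¹ * y' * h * y'⁻¹ → y = y' := by
    intro y hy y' hy' hyy
    have h1 : y * h * y⁻¹ = y' * h * y'⁻¹ := by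
      have h2 := congrArg (fun x => h * x) hyy
      calc y * h * y⁻¹ = h * (h⁻¹ * y * h * y⁻¹) := by group
        _ = h * (h⁻¹ * y' * h * y'⁻¹) := h2
        _ = y' * h * y'⁻¹ := by group
    have h3 : (y'⁻¹ * y) * h = h * (y'⁻¹ * y) := by
      calc (y'⁻¹ * y) * h = y'⁻¹ * (y * h * y⁻¹) * y := by group
        _ = y'⁻¹ * (y' * h * y'⁻¹) * y := by rw [h1]
        _ = h * (y'⁻¹ * y) := by group
    have h4 : y'⁻¹ * y = 1 := Qr_fix H b hz (mul_mem (inv_mem hy') hy) (by rw [← hh]; exact h3)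
    exact (inv_mul_eq_one.1 h4).symm
  have hmap : ∀ y ∈ Qr K b, h⁻¹ * y * h * y⁻¹ ∈ Qr K b := by
    intro y hy
    have h1 := Qr_T H b (inv_mem hhTT) hy
    rw [inv_inv] at h1
    exact mul_mem h1 (inv_mem hy)
  have hmapR : ∀ y ∈ R, h⁻¹ * y * h * y⁻¹ ∈ R := by
    intro y hy
    refine Subgroup.mem_inf.2 ⟨?_, hmap y (hRQ hy)⟩
    exact mul_mem (mul_mem (mul_mem (inv_mem (hT hhT)) (hRF hy)) (hT hhT)) (inv_mem (hRF hy))
  let φ : R → R := fun y => ⟨h⁻¹ * y * h * (y : LL C K ≃ₗ[K] LL C K)⁻¹, hmapR y y.2⟩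
  have hφ : Function.Injective φ := by
    intro y y' hyy
    have h1 := congrArg Subtype.val hyy
    exact Subtype.ext (hinj y (hRQ y.2) y' (hRQ y'.2) h1)
  have hφs : Function.Surjective φ := Finite.surjective_of_injective hφ
  have hw : h⁻¹ * r * h * r⁻¹ ∈ R := by
    refine Subgroup.mem_inf.2 ⟨?_, hmap r hrQ⟩
    have h1 : h⁻¹ * r * h * r⁻¹ = h⁻¹ * (r * h * r⁻¹) := by group
    rw [h1]
    exact mul_mem (inv_mem (hT hhT)) hhc
  obtain ⟨y, hy⟩ := hφs ⟨_, hw⟩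
  have hyr : (y : LL C K ≃ₗ[K] LL C K) = r :=
    hinj y (hRQ y.2) r hrQ (congrArg Subtype.val hy)
  have hrR : r ∈ R := by rw [← hyr]; exact y.2
  have hRT : ∀ t ∈ T1 C K, ∀ u ∈ R, t * u * t⁻¹ ∈ R := by
    intro t ht u hu
    refine Subgroup.mem_inf.2 ⟨?_, Qr_T H b (T1_le_TT H ht) (hRQ hu)⟩
    exact mul_mem (mul_mem (hT ht) (hRF hu)) (inv_mem (hT ht))
  have hpg := pg H R ((Qr_p H b).to_le hRQ) (hRF.trans hF) hRT
  refine ⟨?_, r, ?_, k, hk0, hvr⟩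
  · intro s
    have h1 := hconj s
    have hrF := hRF hrR
    have h2 := mul_mem (mul_mem (inv_mem hrF) h1) hrF
    have h3 : r⁻¹ * (r * xr (ng b) s * r⁻¹) * r = xr (ng b) s := by group
    rw [h3] at h2
    exact h2
  · refine (Subgroup.closure_mono ?_) (hpg hrR)
    rintro g ⟨c, hc, s, rfl⟩
    exact ⟨c, s, fun s => hRF (hc s), Qr_xr H b c one_ne_zero (hRQ (hc 1)), rfl⟩

end Pool.Agent.H33.EQ
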