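import Pool.Agent.H33.EQ.CBc
import Pool.Agent.H33.EQ.CAb

/-!
# Case B, commuting components, over the field with 8 elements (header for `CBf`, `CBg`)

`G' = cj g F`, `A = g T1 g⁻¹` (the map of `T1`), `E1 = E1 F b`,
`D = closure {t e t⁻¹ : t ∈ A, e ∈ E1}`, `F1 = A ⊔ E1`.  `D` is normal in `F1`, `F1 = D A`,
`E1 ≤ D`.
(1) For `c ∈ SF G'` and `s`: `y = g (xr c s) g⁻¹ = ex (s • g (e c))` commutes with `E1`
(`hcomm` for `b' = c`, `e c ∈ O1 G' c`; `ex_commute`) and for `t ∈ A`, `t⁻¹ y t` is again of this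
form; so `y` commutes with `D`.
(2) `F1 = F` is impossible: take `c ∈ SF G'`; `Y = {g (xr c s) g⁻¹ : s ∈ K}` is a non trivial
`p`-subgroup of `F`, normalised by `A` and centralised by `D`, so normal in `F1 = F`, against `hO`.
(3) So `|F1| < |F|`.  `G1 = cj g F1` contains `T1`, `|G1| = |F1|`; by `IH`: `Dst G1`.  Let
`S' = SF G1 ⊆ SF G'`, `D' = cj g D` (`= g⁻¹ D g`, normal in `G1`, `G1 = D' T1`).  `G1/D'` is a
`p'`-group so all `p`-elements of `G1` are in `D'`.  So for `c ∈ S'`: `xr c s ∈ D'` and it commutes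
with `D'` (1).  `K' = closure {xr c s : c ∈ S'}` is an abelian group of exponent `p`, central in
`D'`, normalised by `TT`.
(4) Let `u ∈ D' ⊓ G1`, `u^7 = 1`.  `Dst G1` for the element `u`: `k ∈ Fo G1`, `k⁻¹ u ∈ NN`,
`k = k' τ`, `k' ∈ K'`, `τ ∈ TT ⊓ G1`; `y = k'⁻¹ u ∈ NN`, and `k'` commutes with `u`, so
`y^7 = k'^(-7) = k'⁻¹` and `u = k' y ∈ NN`.
(5) Let in addition `u` satisfy a polynomial of degree 5: `u^5 = ∑_(i<5) al_i u^i` (the elements
`h_b(c)` have this property, their eigenvalues are `c^(-2), …, c^2`).  An orbit of `u` on the root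
lines has length 1 or 7; in the second case `e, u e, …, u^5 e` would be linearly independent.  So
`u ∈ TT` (`CBf_five`).
(6) Apply this to `u1 = g⁻¹ h g`, `u2 = g⁻¹ x h x⁻¹ g`, `h = h_b(c)`, `x = xr b 1`, `c² ≠ 1`:
`u2 u1⁻¹ = g⁻¹ (xr b (1 - c²)) g` is in `TT` and of order 2, so it is trivial (`TT_order`).
-/

namespace Pool.Agent.H33.EQ

variable {n : ℕ} {C : Matrix (Fin n) (Fin n) ℤ} {K : Type} [Field K] [Fintype (Rt C)]

theorem CBf_per {α : Type} (w : α → α) {m : ℕ} {a : α}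
    (h : w^[7] a = a) (hm : w^[m] a = a) (h7 : Nat.gcd 7 m = 1) : w a = a := by
  have h5 : Function.IsPeriodicPt w (Nat.gcd 7 m) a := Function.IsPeriodicPt.gcd h hm
  rw [h7] at h5
  exact h5

/-- an element of order 7 of `NN` which satisfies a polynomial of degree 5 is in `TT` -/
theorem CBf_five (H : Hyp C K) {y : LL C K ≃ₗ[K] LL C K} (hy : y ∈ NN C K) (hy7 : y ^ 7 = 1)
    {al : ℕ → K}
    (h : ∀ u : LL C K, (y ^ 5) u = ∑ i ∈ Finset.range 5, al i • (y ^ i) u) : y ∈ TT C K := by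
  obtain ⟨w, kk, hk, hw, -, -, -⟩ := NN_perm H hy
  refine mem_TT_of H (NN_le_GG hy) fun a => ?_
  have hpow : ∀ (m : ℕ) (b : Rt C), ∃ c : K, c ≠ 0 ∧ (y ^ m) (e K b) = c • e K (w^[m] b) := by
    intro m
    induction m with
    | zero => exact fun b => ⟨1, one_ne_zero, (one_smul K _).symm⟩
    | succ m ih =>
      intro b
      obtain ⟨c, hc0, hc⟩ := ih b
      refine ⟨c * kk (w^[m] b), mul_ne_zero hc0 (hk _), ?_⟩
      rw [pow_succ', Function.iterate_succ_apply']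
      show y ((y ^ m) (e K b)) = _
      rw [hc, map_smul, hw, smul_smul]
  have hper : ∀ b : Rt C, w^[7] b = b := by
    intro b
    obtain ⟨c, hc0, hc⟩ := hpow 7 b
    rw [hy7] at hc
    have h3 : (e K b).2 b = (c • e K (w^[7] b)).2 b := by
      rw [← hc]
      rfl
    by_contra hne
    have h4 : (c • e K (w^[7] b)).2 b = c * (e K (w^[7] b)).2 b := rfl
    rw [h4, e_snd_self, e_snd_ne (Ne.symm hne), mul_zero] at h3
    exact one_ne_zero h3
  by_cases hwa : w a = a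
  · exact ⟨kk a, by rw [hw, hwa]⟩
  exfalso
  have hne : ∀ i < 5, w^[5] a ≠ w^[i] a := by
    intro i hi heq
    apply hwa
    have h1 : w^[5 - i] a = a := by
      have h2 : w^[i] (w^[5 - i] a) = w^[i] a := by
        rw [← Function.iterate_add_apply, show i + (5 - i) = 5 by omega, heq]
      exact (w.injective.iterate i) h2
    refine CBf_per w (hper a) h1 ?_
    have h3 : 5 - i = 1 ∨ 5 - i = 2 ∨ 5 - i = 3 ∨ 5 - i = 4 ∨ 5 - i = 5 := by omega
    rcases h3 with h3 | h3 | h3 | h3 | h3 <;> rw [h3] <;> decide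
  have h1 := congrArg (fun z : LL C K => z.2 (w^[5] a)) (h (e K a))
  obtain ⟨c, hc0, hc⟩ := hpow 5 a
  have h2 : ((y ^ 5) (e K a)).2 (w^[5] a) = c := by
    rw [hc]
    show c * (e K (w^[5] a)).2 (w^[5] a) = c
    rw [e_snd_self, mul_one]
  have h3 : (∑ i ∈ Finset.range 5, al i • (y ^ i) (e K a)).2 (w^[5] a) = 0 := by
    rw [Prod.snd_sum, Finset.sum_apply]
    refine Finset.sum_eq_zero fun i hi => ?_
    obtain ⟨c', -, hc'⟩ := hpow i a
    rw [hc']
    show al i * (c' * (e K (w^[i] a)).2 (w^[5] a)) = 0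
    rw [e_snd_ne (hne i (Finset.mem_range.1 hi)), mul_zero, mul_zero]
  exact hc0 (h2.symm.trans (h1.trans h3))

/-- `h_b(c)` satisfies a polynomial of degree 5 -/
theorem CBf_hd5 (H : Hyp C K) (b : Rt C) (c : Kˣ) : ∃ al : ℕ → K, ∀ u : LL C K,
    ((hd C b.1 c : LL C K ≃ₗ[K] LL C K) ^ 5) u =
      ∑ i ∈ Finset.range 5, al i • ((hd C b.1 c : LL C K ≃ₗ[K] LL C K) ^ i) u := by
  classical
  let f : ℕ → Polynomial K := fun j => Polynomial.X - Polynomial.C ((c ^ ((j : ℤ) - 2) : Kˣ) : K)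
  let P : Polynomial K := ∏ j ∈ Finset.range 5, f j
  have hmon : P.Monic := Polynomial.monic_prod_of_monic _ _ fun j _ => Polynomial.monic_X_sub_C _
  have hdeg : P.natDegree = 5 := by
    rw [Polynomial.natDegree_prod_of_monic _ _ fun j _ => Polynomial.monic_X_sub_C _]
    simp only [f, Polynomial.natDegree_X_sub_C, Finset.sum_const, Finset.card_range,
      smul_eq_mul, mul_one]
  have hcoef : P.coeff 5 = 1 := by
    rw [← hdeg]
    exact hmon
  have hev : ∀ k : ℤ, -2 ≤ k → k ≤ 2 → P.eval ((c ^ k : Kˣ) : K) = 0 := by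
    intro k hk1 hk2
    rw [Polynomial.eval_prod]
    refine Finset.prod_eq_zero (i := (k + 2).toNat) (Finset.mem_range.2 (by omega)) ?_
    have h1 : (((k + 2).toNat : ℕ) : ℤ) - 2 = k := by omega
    simp only [f, Polynomial.eval_sub, Polynomial.eval_X, Polynomial.eval_C, h1, sub_self]
  have hz : ∀ k : ℤ, -2 ≤ k → k ≤ 2 → (((c ^ k : Kˣ) : K)) ^ 5 =
      ∑ i ∈ Finset.range 5, (-P.coeff i) * ((c ^ k : Kˣ) : K) ^ i := by
    intro k hk1 hk2
    have h1 := hev k hk1 hk2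
    rw [Polynomial.eval_eq_sum_range, hdeg, Finset.sum_range_succ, hcoef, one_mul] at h1
    rw [← sub_eq_zero, ← h1]
    simp only [neg_mul, Finset.sum_neg_distrib]
    ring
  have hpe : ∀ (m : ℕ) (a : Rt C), ((hd C b.1 c : LL C K ≃ₗ[K] LL C K) ^ m) (e K a) =
      (((c ^ (ip C b.1 a.1) : Kˣ) : K) ^ m) • e K a := by
    intro m a
    induction m with
    | zero => rw [pow_zero, pow_zero, one_smul]; rfl
    | succ m ih =>
      rw [pow_succ', LinearEquiv.mul_apply, ih, map_smul, hd_e, smul_smul, pow_succ]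
  have hph : ∀ (m : ℕ) (k : Fin n → K), ((hd C b.1 c : LL C K ≃ₗ[K] LL C K) ^ m) (hh C k) =
      hh C k := by
    intro m k
    induction m with
    | zero => rw [pow_zero]; rfl
    | succ m ih => rw [pow_succ', LinearEquiv.mul_apply, ih, hd_hh]
  refine ⟨fun i => -P.coeff i, ?_⟩
  let L1 : LL C K →ₗ[K] LL C K := ((hd C b.1 c : LL C K ≃ₗ[K] LL C K) ^ 5).toLinearMap
  let L2 : LL C K →ₗ[K] LL C K := ∑ i ∈ Finset.range 5,
    (-P.coeff i) • ((hd C b.1 c : LL C K ≃ₗ[K] LL C K) ^ i).toLinearMap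
  have hL2 : ∀ u, L2 u = ∑ i ∈ Finset.range 5,
      (-P.coeff i) • ((hd C b.1 c : LL C K ≃ₗ[K] LL C K) ^ i) u := by
    intro u
    simp only [L2, LinearMap.sum_apply, LinearMap.smul_apply]
    rfl
  have hLL : L1 = L2 := by
    apply ext_basis
    · intro k
      rw [hL2]
      have h1 : L1 (hh C k) = hh C k := hph 5 k
      have h2 := hz 0 (by norm_num) (by norm_num)
      rw [zpow_zero, Units.val_one] at h2
      simp only [one_pow, mul_one] at h2
      rw [h1]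
      simp only [hph]
      rw [← Finset.sum_smul, ← h2, one_smul]
    · intro a
      rw [hL2]
      have h1 : L1 (e K a) = (((c ^ (ip C b.1 a.1) : Kˣ) : K) ^ 5) • e K a := hpe 5 a
      rw [h1]
      simp only [hpe, smul_smul]
      rw [← Finset.sum_smul, ← hz _ (neg_two_le_ip H b a) (ip_le_two H b a)]
  intro u
  rw [← hL2, ← hLL]
  rfl

/-- the property of `CBf_five` is invariant under conjugation -/
theorem CBf_conj {h : LL C K ≃ₗ[K] LL C K} (g : LL C K ≃ₗ[K] LL C K) {al : ℕ → K}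
    (hh : ∀ u : LL C K, (h ^ 5) u = ∑ i ∈ Finset.range 5, al i • (h ^ i) u) :
    ∀ u : LL C K, ((g * h * g⁻¹) ^ 5) u =
      ∑ i ∈ Finset.range 5, al i • ((g * h * g⁻¹) ^ i) u := by
  have h1 : ∀ (m : ℕ) (u : LL C K), ((g * h * g⁻¹) ^ m) u = g ((h ^ m) (g⁻¹ u)) := by
    intro m u
    rw [conj_pow]
    rfl
  intro u
  rw [h1, hh, map_sum]
  refine Finset.sum_congr rfl fun i _ => ?_
  rw [h1, map_smul]

end Pool.Agent.H33.EQ
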