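import Pool.Agent.H33.EQ.CBf

/-!
# Case B, commuting components: proof in the header of `CBf`
-/

namespace Pool.Agent.H33.EQ

variable {n : ℕ} {C : Matrix (Fin n) (Fin n) ℤ} {K : Type} [Field K] [Fintype (Rt C)]

theorem CBg_prod {G : Type} [Group G] (D A : Subgroup G)
    (h : ∀ t ∈ A, ∀ d ∈ D, t * d * t⁻¹ ∈ D) {x : G} (hx : x ∈ D ⊔ A) :
    ∃ d ∈ D, ∃ t ∈ A, x = d * t := by
  let M : Subgroup G :=
    { carrier := {x | ∃ d ∈ D, ∃ t ∈ A, x = d * t}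
      one_mem' := ⟨1, D.one_mem, 1, A.one_mem, by simp⟩
      mul_mem' := by
        rintro _ _ ⟨d1, hd1, t1, ht1, rfl⟩ ⟨d2, hd2, t2, ht2, rfl⟩
        refine ⟨d1 * (t1 * d2 * t1⁻¹), D.mul_mem hd1 (h t1 ht1 d2 hd2), t1 * t2,
          A.mul_mem ht1 ht2, by group⟩
      inv_mem' := by
        rintro _ ⟨d1, hd1, t1, ht1, rfl⟩
        have h1 := h t1⁻¹ (A.inv_mem ht1) d1⁻¹ (D.inv_mem hd1)
        refine ⟨t1⁻¹ * d1⁻¹ * t1⁻¹⁻¹, h1, t1⁻¹, A.inv_mem ht1, by group⟩ }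
  have hle : D ⊔ A ≤ M := sup_le (fun d hd => ⟨d, hd, 1, A.one_mem, by simp⟩)
    (fun t ht => ⟨1, D.one_mem, t, ht, by simp⟩)
  exact hle hx

theorem CBg_pow {G : Type} [Group G] (D A : Subgroup G)
    (h : ∀ t ∈ A, ∀ d ∈ D, t * d * t⁻¹ ∈ D) {d t : G} (hd : d ∈ D) (ht : t ∈ A) (m : ℕ) :
    ∃ d' ∈ D, (d * t) ^ m = d' * t ^ m := by
  induction m with
  | zero => exact ⟨1, D.one_mem, by simp⟩
  | succ m ih =>
    obtain ⟨d', hd', he⟩ := ih
    refine ⟨d' * (t ^ m * d * (t ^ m)⁻¹), D.mul_mem hd' (h _ (A.pow_mem ht m) d hd), ?_⟩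
    rw [pow_succ, he, pow_succ t m]
    simp only [mul_assoc, inv_mul_cancel_left]

theorem CBg_pelt {G : Type} [Group G] [Finite G] {p : ℕ} [Fact p.Prime] (D A : Subgroup G)
    (h : ∀ t ∈ A, ∀ d ∈ D, t * d * t⁻¹ ∈ D) (hA : ¬ p ∣ Nat.card A) {x : G}
    (hx : x ∈ D ⊔ A) (hp : x ^ p = 1) : x ∈ D := by
  obtain ⟨d, hd, t, ht, rfl⟩ := CBg_prod D A h hx
  obtain ⟨d', hd', he⟩ := CBg_pow D A h hd ht p
  rw [hp] at he
  have h1 : t ^ p ∈ D := by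
    have h2 : t ^ p = d'⁻¹ := (inv_eq_of_mul_eq_one_right he.symm).symm
    rw [h2]
    exact D.inv_mem hd'
  have h2 : t ^ Nat.card A = 1 := by
    have h3 : (⟨t, ht⟩ : A) ^ Nat.card A = 1 := pow_card_eq_one'
    exact congrArg Subtype.val h3
  have h3 : IsCoprime (p : ℤ) (Nat.card A : ℤ) :=
    Nat.isCoprime_iff_coprime.2 (((Fact.out : p.Prime).coprime_iff_not_dvd).2 hA)
  obtain ⟨u, v, huv⟩ := h3
  have h4 : t = (t ^ p) ^ u * (t ^ Nat.card A) ^ v := by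
    rw [← zpow_natCast, ← zpow_natCast, ← zpow_mul, ← zpow_mul, ← zpow_add]
    rw [mul_comm (p : ℤ) u, mul_comm (Nat.card A : ℤ) v, huv, zpow_one]
  refine D.mul_mem hd ?_
  rw [h4, h2, one_zpow, mul_one]
  exact D.zpow_mem h1 u

theorem CBg_mem_cj {g x : LL C K ≃ₗ[K] LL C K} {F : Subgroup (LL C K ≃ₗ[K] LL C K)} :
    x ∈ cj g F ↔ g * x * g⁻¹ ∈ F := Iff.rfl

theorem CBg_gen (H : Hyp C K) : ∃ z : Kˣ, z ^ 2 ≠ 1 := by
  have hfin : Finite K := by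
    apply Nat.finite_of_card_ne_zero
    rw [H.card]; norm_num
  have := Fintype.ofFinite K
  obtain ⟨z, hz⟩ := IsCyclic.exists_generator (α := Kˣ)
  refine ⟨z, fun h => ?_⟩
  have h1 : orderOf z = Nat.card Kˣ := orderOf_eq_card_of_forall_mem_zpowers hz
  have h2 : orderOf z ≤ 2 := Nat.le_of_dvd (by norm_num) (orderOf_dvd_of_pow_eq_one h)
  rw [Nat.card_units, H.card] at h1
  omega

theorem caseB2 (H : Hyp C K) {p : ℕ} [Fact p.Prime] [CharP K p]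
    (F : Subgroup (LL C K ≃ₗ[K] LL C K)) (hF : F ≤ GG C K) (hT : T1 C K ≤ F)
    {g : LL C K ≃ₗ[K] LL C K} (hg : g ∈ GG C K) (hgT : T1 C K ≤ cj g F)
    (hsym : ∀ c ∈ SF F, ng c ∈ SF F)
    (hO : ∀ P : Subgroup (LL C K ≃ₗ[K] LL C K), P ≤ F →
      (∀ f ∈ F, ∀ u ∈ P, f * u * f⁻¹ ∈ P) → IsPGroup p P → P = ⊥)
    {b : Rt C} (hb : b ∈ SF F) (hne : (SF (cj g F)).Nonempty)
    (hcomm : ∀ b' ∈ SF (cj g F), ∀ v ∈ O1 F b, ∀ w ∈ O1 (cj g F) b',
      br v (g w) = 0 ∧ fm v (g w) = 0)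
    (IH : ∀ F' : Subgroup (LL C K ≃ₗ[K] LL C K), F' ≤ GG C K → T1 C K ≤ F' →
      Nat.card F' < Nat.card F → Dst F') : False := by
  classical
  haveI hfin : Finite (LL C K ≃ₗ[K] LL C K) := finite_group H
  let A : Subgroup (LL C K ≃ₗ[K] LL C K) := (T1 C K).map (MulAut.conj g).toMonoidHom
  have hA : ∀ t, t ∈ A ↔ ∃ t0 ∈ T1 C K, g * t0 * g⁻¹ = t := by
    intro t
    exact Subgroup.mem_map
  let E : Subgroup (LL C K ≃ₗ[K] LL C K) := E1 F b
  let D : Subgroup (LL C K ≃ₗ[K] LL C K) :=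
    Subgroup.closure {u | ∃ t ∈ A, ∃ f ∈ E, u = t * f * t⁻¹}
  let F1 : Subgroup (LL C K ≃ₗ[K] LL C K) := A ⊔ E
  have hAF : A ≤ F := by
    intro t ht
    obtain ⟨t0, ht0, rfl⟩ := (hA t).1 ht
    exact hgT ht0
  have hEF : E ≤ F := E1_le F b H hb
  have hF1F : F1 ≤ F := sup_le hAF hEF
  have hED : E ≤ D := by
    intro f hf
    exact Subgroup.subset_closure ⟨1, A.one_mem, f, hf, by simp⟩
  have hAD : ∀ t ∈ A, ∀ d ∈ D, t * d * t⁻¹ ∈ D := by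
    intro t ht d hd
    have h1 : D ≤ D.comap (MulAut.conj t).toMonoidHom := by
      rw [Subgroup.closure_le]
      rintro _ ⟨t', ht', f, hf, rfl⟩
      change t * (t' * f * t'⁻¹) * t⁻¹ ∈ D
      refine Subgroup.subset_closure ⟨t * t', A.mul_mem ht ht', f, hf, by group⟩
    exact h1 hd
  have hF1DA : F1 ≤ D ⊔ A := sup_le le_sup_right (hED.trans le_sup_left)
  have hF1D : ∀ x ∈ F1, ∀ d ∈ D, x * d * x⁻¹ ∈ D := by
    intro x hx d hd
    obtain ⟨d1, hd1, t1, ht1, rfl⟩ := CBg_prod D A hAD (hF1DA hx)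
    have h1 := hAD t1 ht1 d hd
    have h2 := D.mul_mem (D.mul_mem hd1 h1) (D.inv_mem hd1)
    have h3 : d1 * t1 * d * (d1 * t1)⁻¹ = d1 * (t1 * d * t1⁻¹) * d1⁻¹ := by group
    rw [h3]
    exact h2
  have hDF1 : D ≤ F1 := by
    rw [Subgroup.closure_le]
    rintro _ ⟨t, ht, f, hf, rfl⟩
    have h1 : t ∈ F1 := (le_sup_left : A ≤ F1) ht
    have h2 : f ∈ F1 := (le_sup_right : E ≤ F1) hf
    exact F1.mul_mem (F1.mul_mem h1 h2) (F1.inv_mem h1)
  -- (1)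
  have hyE : ∀ c ∈ SF (cj g F), ∀ s : K, ∀ f ∈ E,
      (g * xr c s * g⁻¹) * f = f * (g * xr c s * g⁻¹) := by
    intro c hc s f hf
    have hcO : e K c ∈ O1 (cj g F) c := e_mem_O1 (cj g F) c H (cmp_self (cj g F) c)
    have hle : E ≤ Subgroup.centralizer ({g * xr c s * g⁻¹} : Set (LL C K ≃ₗ[K] LL C K)) := by
      change E1 F b ≤ _
      unfold E1
      rw [Subgroup.closure_le]
      rintro _ ⟨d, s', hd, rfl⟩
      have h1 := (hcomm c hc (e K d) (e_mem_O1 F b H hd) (e K c) hcO).1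
      rw [SetLike.mem_coe, Subgroup.mem_centralizer_singleton_iff, conj_xr H hg]
      change ex (s' • e K d) * ex (s • g (e K c)) = ex (s • g (e K c)) * ex (s' • e K d)
      refine ex_commute H ((isExt_e H d).smul s') (((isExt_e H c).map hg).smul s) ?_
      rw [map_smul, map_smul, LinearMap.smul_apply, h1, smul_zero, smul_zero]
    have h2 := hle hf
    rw [Subgroup.mem_centralizer_singleton_iff] at h2
    exact h2.symm
  have hconjA : ∀ (c : Rt C) (s : K), ∀ t ∈ A, ∃ s' : K,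
      t * (g * xr c s * g⁻¹) * t⁻¹ = g * xr c s' * g⁻¹ := by
    intro c s t ht
    obtain ⟨t0, ht0, rfl⟩ := (hA t).1 ht
    refine ⟨wt t0 c * s, ?_⟩
    rw [← TT_conj_xr H (T1_le_TT H ht0) c s]
    group
  have hyD : ∀ c ∈ SF (cj g F), ∀ s : K, ∀ d ∈ D,
      (g * xr c s * g⁻¹) * d = d * (g * xr c s * g⁻¹) := by
    intro c hc s d hd
    have hle : D ≤ Subgroup.centralizer ({g * xr c s * g⁻¹} : Set (LL C K ≃ₗ[K] LL C K)) := by
      rw [Subgroup.closure_le]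
      rintro _ ⟨t, ht, f, hf, rfl⟩
      rw [SetLike.mem_coe, Subgroup.mem_centralizer_singleton_iff]
      obtain ⟨s', hs'⟩ := hconjA c s t⁻¹ (A.inv_mem ht)
      rw [inv_inv] at hs'
      have h1 := hyE c hc s' f hf
      rw [← hs'] at h1
      have h2 : t * f * t⁻¹ * (g * xr c s * g⁻¹) =
          t * (f * (t⁻¹ * (g * xr c s * g⁻¹) * t)) * t⁻¹ := by group
      rw [h2, ← h1]
      group
    have h2 := hle hd
    rw [Subgroup.mem_centralizer_singleton_iff] at h2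
    exact h2.symm
  -- (2)
  have hne1 : F1 ≠ F := by
    intro heq
    obtain ⟨c, hc⟩ := hne
    let Y : Subgroup (LL C K ≃ₗ[K] LL C K) :=
      { carrier := {u | ∃ s : K, u = g * xr c s * g⁻¹}
        one_mem' := ⟨0, by rw [xr_zero H]; group⟩
        mul_mem' := by
          rintro _ _ ⟨s, rfl⟩ ⟨s', rfl⟩
          refine ⟨s + s', ?_⟩
          rw [xr_add H]
          group
        inv_mem' := by
          rintro _ ⟨s, rfl⟩
          refine ⟨-s, ?_⟩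
          rw [xr_neg H]
          group }
    have hYF : Y ≤ F := by
      rintro _ ⟨s, rfl⟩
      exact hc s
    have hYn : ∀ f ∈ F, ∀ u ∈ Y, f * u * f⁻¹ ∈ Y := by
      intro f hf u hu
      rw [← heq] at hf
      obtain ⟨d, hd, t, ht, rfl⟩ := CBg_prod D A hAD (hF1DA hf)
      obtain ⟨s, rfl⟩ := hu
      obtain ⟨s', hs'⟩ := hconjA c s t ht
      refine ⟨s', ?_⟩
      have h1 := hyD c hc s' d hd
      have h2 : d * t * (g * xr c s * g⁻¹) * (d * t)⁻¹ =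
          d * (t * (g * xr c s * g⁻¹) * t⁻¹) * d⁻¹ := by group
      rw [h2, hs', ← h1]
      group
    have hYp : IsPGroup p Y := by
      rintro ⟨_, s, rfl⟩
      refine ⟨1, ?_⟩
      apply Subtype.ext
      change (g * xr c s * g⁻¹) ^ p ^ 1 = 1
      rw [pow_one, conj_pow, xr_pow H, CharP.cast_eq_zero, zero_mul, xr_zero H]
      group
    have hbot := hO Y hYF hYn hYp
    have h1 : g * xr c (1 : K) * g⁻¹ ∈ Y := ⟨1, rfl⟩
    rw [hbot, Subgroup.mem_bot] at h1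
    have h2 : xr c (1 : K) = 1 := by
      have h3 : xr c (1 : K) = g⁻¹ * (g * xr c (1 : K) * g⁻¹) * g := by group
      rw [h3, h1]
      group
    have h3 : xr c (1 : K) = xr c 0 := by rw [h2, xr_zero H]
    exact one_ne_zero (xr_inj H c h3)
  -- (3)
  have hcardF1 : Nat.card F1 < Nat.card F := by
    have h1 : (F1 : Set (LL C K ≃ₗ[K] LL C K)) ⊂ F :=
      Set.ssubset_iff_subset_ne.2 ⟨hF1F, fun h => hne1 (SetLike.coe_injective h)⟩
    exact Set.ncard_lt_ncard h1 (Set.toFinite _)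
  let G1 : Subgroup (LL C K ≃ₗ[K] LL C K) := cj g F1
  have hG1card : Nat.card G1 < Nat.card F := by
    refine lt_of_le_of_lt ?_ hcardF1
    refine Nat.card_le_card_of_injective
      (fun x : G1 => (⟨g * x.1 * g⁻¹, x.2⟩ : F1)) ?_
    intro x y hxy
    have h1 : g * x.1 * g⁻¹ = g * y.1 * g⁻¹ := congrArg Subtype.val hxy
    apply Subtype.ext
    have h2 : x.1 = g⁻¹ * (g * x.1 * g⁻¹) * g := by group
    rw [h2, h1]
    group
  have hG1GG : G1 ≤ GG C K := by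
    intro x hx
    have h1 : g * x * g⁻¹ ∈ GG C K := hF (hF1F hx)
    have h2 : x = g⁻¹ * (g * x * g⁻¹) * g := by group
    rw [h2]
    exact (GG C K).mul_mem ((GG C K).mul_mem ((GG C K).inv_mem hg) h1) hg
  have hT1G1 : T1 C K ≤ G1 := by
    intro t ht
    exact (le_sup_left : A ≤ F1) ((hA _).2 ⟨t, ht, rfl⟩)
  have hDst := IH G1 hG1GG hT1G1 hG1card
  have hG1G : G1 ≤ cj g F := fun x hx => hF1F hx
  have hSS : ∀ c ∈ SF G1, c ∈ SF (cj g F) := fun c hc s => hG1G (hc s)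
  let D' : Subgroup (LL C K ≃ₗ[K] LL C K) := cj g D
  have hT1D' : ∀ t ∈ T1 C K, ∀ d ∈ D', t * d * t⁻¹ ∈ D' := by
    intro t ht d hd
    have h1 := hAD (g * t * g⁻¹) ((hA _).2 ⟨t, ht, rfl⟩) (g * d * g⁻¹) hd
    change g * (t * d * t⁻¹) * g⁻¹ ∈ D
    have h2 : g * (t * d * t⁻¹) * g⁻¹ = g * t * g⁻¹ * (g * d * g⁻¹) * (g * t * g⁻¹)⁻¹ := by
      group
    rw [h2]
    exact h1
  have hG1D' : G1 ≤ D' ⊔ T1 C K := by
    intro x hx
    obtain ⟨d, hd, t, ht, he⟩ := CBg_prod D A hAD (hF1DA hx)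
    obtain ⟨t0, ht0, rfl⟩ := (hA t).1 ht
    have h1 : x = (g⁻¹ * d * g) * t0 := by
      have h2 : x = g⁻¹ * (g * x * g⁻¹) * g := by group
      have h3 : g * x * g⁻¹ = d * (g * t0 * g⁻¹) := he
      rw [h2, h3]
      group
    rw [h1]
    refine Subgroup.mul_mem_sup ?_ ht0
    change g * (g⁻¹ * d * g) * g⁻¹ ∈ D
    have h2 : g * (g⁻¹ * d * g) * g⁻¹ = d := by group
    rw [h2]
    exact hd
  have hxrD' : ∀ c ∈ SF G1, ∀ s : K, xr c s ∈ D' := by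
    intro c hc s
    refine CBg_pelt (p := p) D' (T1 C K) hT1D' (T1_card H) (hG1D' (hc s)) ?_
    rw [xr_pow H, CharP.cast_eq_zero, zero_mul, xr_zero H]
  have hxrC : ∀ c ∈ SF G1, ∀ s : K, ∀ d ∈ D', xr c s * d = d * xr c s := by
    intro c hc s d hd
    have h1 := hyD c (hSS c hc) s (g * d * g⁻¹) hd
    have h2 : xr c s * d = g⁻¹ * (g * xr c s * g⁻¹ * (g * d * g⁻¹)) * g := by group
    rw [h2, h1]
    group
  let K' : Subgroup (LL C K ≃ₗ[K] LL C K) :=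
    Subgroup.closure {u | ∃ c ∈ SF G1, ∃ s : K, u = xr c s}
  have hK'D' : K' ≤ D' := by
    rw [Subgroup.closure_le]
    rintro _ ⟨c, hc, s, rfl⟩
    exact hxrD' c hc s
  have hK'G1 : K' ≤ G1 := by
    rw [Subgroup.closure_le]
    rintro _ ⟨c, hc, s, rfl⟩
    exact hc s
  have hK'C : ∀ k ∈ K', ∀ d ∈ D', k * d = d * k := by
    intro k hk d hd
    have hle : K' ≤ Subgroup.centralizer ({d} : Set (LL C K ≃ₗ[K] LL C K)) := by
      rw [Subgroup.closure_le]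
      rintro _ ⟨c, hc, s, rfl⟩
      rw [SetLike.mem_coe, Subgroup.mem_centralizer_singleton_iff]
      exact hxrC c hc s d hd
    have h2 := hle hk
    rw [Subgroup.mem_centralizer_singleton_iff] at h2
    exact h2
  have hK'p : ∀ k ∈ K', k ^ p = 1 := by
    intro k hk
    refine Subgroup.closure_induction (p := fun k _ => k ^ p = 1) ?_ ?_ ?_ ?_ hk
    · rintro _ ⟨c, hc, s, rfl⟩
      rw [xr_pow H, CharP.cast_eq_zero, zero_mul, xr_zero H]
    · exact one_pow p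
    · intro x y hx hy h1 h2
      have h3 : Commute x y := hK'C x hx y (hK'D' hy)
      rw [h3.mul_pow, h1, h2, one_mul]
    · intro x hx h1
      rw [inv_pow, h1, inv_one]
  have hTK' : ∀ t ∈ TT C K ⊓ G1, ∀ k ∈ K', t * k * t⁻¹ ∈ K' := by
    intro t ht k hk
    have h1 : K' ≤ K'.comap (MulAut.conj t).toMonoidHom := by
      rw [Subgroup.closure_le]
      rintro _ ⟨c, hc, s, rfl⟩
      change t * xr c s * t⁻¹ ∈ K'
      rw [TT_conj_xr H (Subgroup.mem_inf.1 ht).1]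
      exact Subgroup.subset_closure ⟨c, hc, _, rfl⟩
    exact h1 hk
  have hFo : Fo G1 ≤ K' ⊔ (TT C K ⊓ G1) := by
    unfold Fo
    rw [Subgroup.closure_le]
    rintro u (⟨h1, h2⟩ | ⟨a, ha, s, rfl⟩)
    · exact (le_sup_right : TT C K ⊓ G1 ≤ _) (Subgroup.mem_inf.2 ⟨h2, h1⟩)
    · exact (le_sup_left : K' ≤ _) (Subgroup.subset_closure ⟨a, ha, s, rfl⟩)
  have hp2 : p = 2 := by
    have h1 : (p : ℕ) ∣ 2 := (CharP.cast_eq_zero_iff K p 2).1 (by exact_mod_cast H.two)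
    rcases (Nat.dvd_prime Nat.prime_two).1 h1 with h2 | h2
    · exact absurd h2 (Fact.out : p.Prime).one_lt.ne'
    · exact h2
  have hK'2 : ∀ k ∈ K', k ^ 2 = 1 := by
    intro k hk
    have h1 := hK'p k hk
    rwa [hp2] at h1
  -- (4)
  have h4 : ∀ u ∈ D', u ∈ G1 → u ^ 7 = 1 → u ∈ NN C K := by
    intro u huD huG hu7
    obtain ⟨k, hk, hkx⟩ := hDst u (hG1GG huG) (by
      intro t ht
      rw [CBg_mem_cj]
      exact G1.mul_mem (G1.mul_mem huG (hT1G1 ht)) (G1.inv_mem huG))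
    obtain ⟨k', hk', τ, hτ, hkk⟩ := CBg_prod K' (TT C K ⊓ G1) hTK' (hFo hk)
    have hy'e : k'⁻¹ * u = τ * (k⁻¹ * u) := by
      rw [hkk]
      group
    have hy'N : k'⁻¹ * u ∈ NN C K := by
      rw [hy'e]
      exact (NN C K).mul_mem ((TT_le_NN H) (Subgroup.mem_inf.1 hτ).1) hkx
    have hy7 : (k'⁻¹ * u) ^ 7 = k'⁻¹ := by
      have h1 : Commute k'⁻¹ u := hK'C _ (K'.inv_mem hk') u huD
      have h2 := hK'2 _ (K'.inv_mem hk')
      rw [h1.mul_pow, hu7, mul_one, show (7 : ℕ) = 2 * 3 + 1 from rfl, pow_succ, pow_mul, h2,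
        one_pow, one_mul]
    have hk'N : k'⁻¹ ∈ NN C K := by
      rw [← hy7]
      exact (NN C K).pow_mem hy'N 7
    have h3 : u = (k'⁻¹)⁻¹ * (k'⁻¹ * u) := by group
    rw [h3]
    exact (NN C K).mul_mem ((NN C K).inv_mem hk'N) hy'N
  -- (5)
  have hbE : ∀ s : K, xr b s ∈ E := by
    intro s
    change xr b s ∈ E1 F b
    exact Subgroup.subset_closure ⟨b, s, cmp_self F b, rfl⟩
  have hnbE : ∀ s : K, xr (ng b) s ∈ E := by
    intro s
    change xr (ng b) s ∈ E1 F b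
    exact Subgroup.subset_closure ⟨ng b, s, cmp_ng F b H hb hsym (cmp_self F b), rfl⟩
  obtain ⟨c, hc⟩ := CBg_gen H
  have hhdE : (hd C b.1 c : LL C K ≃ₗ[K] LL C K) ∈ E := by
    rw [hd_eq H b]
    exact E.mul_mem (E.mul_mem (E.mul_mem (hbE _) (hnbE _)) (hbE _))
      (E.inv_mem (E.mul_mem (E.mul_mem (hbE _) (hnbE _)) (hbE _)))
  have hhd7 : (hd C b.1 c : LL C K ≃ₗ[K] LL C K) ^ 7 = 1 := by
    have h1 := TT_pow_card H (hd_mem_TT H b.1 c)
    rwa [H.card] at h1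
  obtain ⟨al, hal⟩ := CBf_hd5 H b c
  have h5 : ∀ f ∈ E, g⁻¹ * (f * hd C b.1 c * f⁻¹) * g ∈ TT C K := by
    intro f hf
    have h1 : f * hd C b.1 c * f⁻¹ ∈ E := E.mul_mem (E.mul_mem hf hhdE) (E.inv_mem hf)
    have h2 : g⁻¹ * (f * hd C b.1 c * f⁻¹) * g = (g⁻¹ * f) * hd C b.1 c * (g⁻¹ * f)⁻¹ := by group
    have h3 : g * (g⁻¹ * (f * hd C b.1 c * f⁻¹) * g) * g⁻¹ = f * hd C b.1 c * f⁻¹ := by group
    have h7 : (g⁻¹ * (f * hd C b.1 c * f⁻¹) * g) ^ 7 = 1 := by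
      rw [h2, conj_pow, hhd7]
      group
    refine CBf_five H (h4 _ ?_ ?_ h7) h7 (al := al) ?_
    · rw [CBg_mem_cj, h3]
      exact hED h1
    · rw [CBg_mem_cj, h3]
      exact (le_sup_right : E ≤ F1) h1
    · rw [h2]
      exact CBf_conj _ hal
  -- (6)
  have h6 : g⁻¹ * xr b (1 - ((c ^ (2 : ℤ) : Kˣ) : K)) * g ∈ TT C K := by
    have e1 := h5 1 E.one_mem
    have e2 := h5 (xr b (1 : K)) (hbE 1)
    have e3 := TT_conj_xr H (hd_mem_TT H b.1 c) b (-1 : K)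
    rw [wt_hd, b.2, mul_neg, mul_one] at e3
    have e4 : xr b (1 - ((c ^ (2 : ℤ) : Kˣ) : K)) =
        xr b (1 : K) * (hd C b.1 c * xr b (-1 : K) * (hd C b.1 c)⁻¹) := by
      rw [e3, ← xr_add H, ← sub_eq_add_neg]
    have e5 : g⁻¹ * xr b (1 - ((c ^ (2 : ℤ) : Kˣ) : K)) * g =
        (g⁻¹ * (xr b (1 : K) * hd C b.1 c * (xr b (1 : K))⁻¹) * g) *
          (g⁻¹ * (1 * hd C b.1 c * 1⁻¹) * g)⁻¹ := by
      rw [e4, xr_neg H]
      group
    rw [e5]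
    exact (TT C K).mul_mem e2 ((TT C K).inv_mem e1)
  have h7 : g⁻¹ * xr b (1 - ((c ^ (2 : ℤ) : Kˣ) : K)) * g = 1 := by
    refine TT_order H (p := p) h6 1 ?_
    have h8 : g⁻¹ * xr b (1 - ((c ^ (2 : ℤ) : Kˣ) : K)) * g =
        g⁻¹ * xr b (1 - ((c ^ (2 : ℤ) : Kˣ) : K)) * g⁻¹⁻¹ := by group
    rw [h8, pow_one, conj_pow, xr_pow H, CharP.cast_eq_zero, zero_mul, xr_zero H]
    group
  have h8 : xr b (1 - ((c ^ (2 : ℤ) : Kˣ) : K)) = xr b 0 := by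
    have h9 : xr b (1 - ((c ^ (2 : ℤ) : Kˣ) : K)) =
        g * (g⁻¹ * xr b (1 - ((c ^ (2 : ℤ) : Kˣ) : K)) * g) * g⁻¹ := by group
    rw [h9, h7, xr_zero H]
    group
  have h9 := xr_inj H b h8
  apply hc
  have h10 : ((c ^ (2 : ℤ) : Kˣ) : K) = ((1 : Kˣ) : K) := by
    rw [Units.val_one]
    exact (sub_eq_zero.1 h9).symm
  have h11 := Units.ext h10
  exact_mod_cast h11

end Pool.Agent.H33.EQ
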