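import Pool.Agent.H33.EQ.PGb
import Pool.Agent.H33.EL.GrpC

/-!
# EL-24: `pg`, proof in the header of `PGa`
-/

namespace Pool.Agent.H33.EQ

variable {n : ℕ} {C : Matrix (Fin n) (Fin n) ℤ} {K : Type} [Field K] [Fintype (Rt C)]

private theorem PG_TT_apply (H : Hyp C K) {t : LL C K ≃ₗ[K] LL C K} (ht : t ∈ TT C K)
    (x : LL C K) : (t x).1 = x.1 ∧ ∀ r, (t x).2 r = wt t r * x.2 r := by
  have h0 : t (hh C x.1) = hh C x.1 := TT_fix H ht (hh_mem_L0 x.1)
  have h1 : t x = hh C x.1 + ∑ a : Rt C, (wt t a * x.2 a) • e K a := by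
    conv_lhs => rw [decomp x]
    rw [map_add, map_sum, h0]
    congr 1
    refine Finset.sum_congr rfl fun a _ => ?_
    rw [map_smul, TT_e H ht a, smul_smul, mul_comm]
  have h2 : t x = (x.1, fun a => wt t a * x.2 a) := by
    rw [h1]
    exact (decomp ((x.1, fun a => wt t a * x.2 a) : LL C K)).symm
  rw [h2]
  exact ⟨rfl, fun r => rfl⟩

theorem pg (H : Hyp C K) {p : ℕ} [Fact p.Prime] [CharP K p]
    (P : Subgroup (LL C K ≃ₗ[K] LL C K)) (hP : IsPGroup p P) (hPG : P ≤ GG C K)
    (hT : ∀ t ∈ T1 C K, ∀ u ∈ P, t * u * t⁻¹ ∈ P) :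
    P ≤ Subgroup.closure {g | ∃ b ∈ SF P, ∃ s : K, g = xr b s} := by
  have hfin : Finite (LL C K ≃ₗ[K] LL C K) := finite_group H
  have hcomm : ∀ a ∈ T1 C K, ∀ b ∈ T1 C K, a * b = b * a := fun a ha b hb =>
    TT_comm H (T1_le_TT H ha) (T1_le_TT H hb)
  refine (EL.cop_gen P (T1 C K) hP (T1_card H) hcomm hT).trans ?_
  rw [Subgroup.closure_le]
  rintro u ⟨huP, B, hBT, ⟨z, hz, hcyc⟩, huB⟩
  -- the subgroup commuting with `B`
  let P0 : Subgroup (LL C K ≃ₗ[K] LL C K) :=
    P ⊓ Subgroup.centralizer (B : Set (LL C K ≃ₗ[K] LL C K))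
  have hP0P : P0 ≤ P := inf_le_left
  have hu0 : u ∈ P0 := by
    refine Subgroup.mem_inf.mpr ⟨huP, ?_⟩
    rw [Subgroup.mem_centralizer_iff]
    intro b hb
    exact huB b hb
  have hc0 : ∀ v ∈ P0, ∀ b ∈ B, b * v = v * b := by
    intro v hv b hb
    exact (Subgroup.mem_centralizer_iff.mp (Subgroup.mem_inf.mp hv).2) b hb
  have hP0p : IsPGroup p P0 := hP.to_le hP0P
  have hP0T : ∀ t ∈ T1 C K, ∀ v ∈ P0, t * v * t⁻¹ ∈ P0 := by
    intro t ht v hv
    refine Subgroup.mem_inf.mpr ⟨hT t ht v (hP0P hv), ?_⟩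
    rw [Subgroup.mem_centralizer_iff]
    intro b hb
    have h1 := hc0 v hv b hb
    have h2 := hcomm t ht b (hBT hb)
    have h3 : b * t⁻¹ = t⁻¹ * b := hcomm b (hBT hb) t⁻¹ ((T1 C K).inv_mem ht)
    calc b * (t * v * t⁻¹) = (b * t) * v * t⁻¹ := by group
      _ = t * (b * v) * t⁻¹ := by rw [← h2]; group
      _ = t * v * (b * t⁻¹) := by rw [h1]; group
      _ = t * v * t⁻¹ * b := by rw [h3]; group
  have hfix : ∀ v ∈ P0, ∀ x : LL C K, (∀ b ∈ B, b x = x) → ∀ b ∈ B, b (v x) = v x := by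
    intro v hv x hx b hb
    have h1 : (b * v) x = (v * b) x := by rw [hc0 v hv b hb]
    rw [LinearEquiv.mul_apply, LinearEquiv.mul_apply, hx b hb] at h1
    exact h1
  have hmono : Subgroup.closure {g | ∃ b ∈ SF P0, ∃ s : K, g = xr b s} ≤
      Subgroup.closure {g | ∃ b ∈ SF P, ∃ s : K, g = xr b s} := by
    apply Subgroup.closure_mono
    rintro g ⟨b, hb, s, rfl⟩
    exact ⟨b, fun s => hP0P (hb s), s, rfl⟩
  by_cases hroot : ∃ a : Rt C, ∀ b ∈ B, wt b a = 1
  · obtain ⟨a, ha⟩ := hroot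
    have hsl := pg_sl2 H P0 hP0p (hP0P.trans hPG) hP0T a (by
      intro v hv x hx d hda hdn
      -- `x` is fixed by `B`
      have hxf : ∀ b ∈ B, b x = x := by
        intro b hb
        have hbT := T1_le_TT H (hBT hb)
        obtain ⟨h1, h2⟩ := PG_TT_apply H hbT x
        refine Prod.ext h1 (funext fun r => ?_)
        rw [h2 r]
        by_cases hra : r = a
        · rw [hra, ha b hb, one_mul]
        · by_cases hrn : r = ng a
          · rw [hrn, wt_ng H hbT, ha b hb, inv_one, one_mul]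
          · rw [hx r hra hrn, mul_zero]
      have hvx := hfix v hv x hxf
      by_contra hne
      have hd : ∀ b ∈ B, wt b d = 1 := by
        intro b hb
        have hbT := T1_le_TT H (hBT hb)
        obtain ⟨h1, h2⟩ := PG_TT_apply H hbT (v x)
        have h3 := h2 d
        rw [hvx b hb] at h3
        have h4 : (wt b d - 1) * (v x).2 d = 0 := by
          rw [sub_mul, one_mul, ← h3, sub_self]
        rcases mul_eq_zero.mp h4 with h | h
        · exact sub_eq_zero.mp h
        · exact absurd h hne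
      rcases pg_rk1 H B hBT hz hcyc ha hd with h | h
      · exact hda h
      · exact hdn h)
    exact hmono (hsl hu0)
  · push Not at hroot
    have hP0N : P0 ≤ NN C K := by
      have key : ∀ v ∈ P0, ∀ x ∈ L0 C K, v x ∈ L0 C K := by
        intro v hv x hx
        have hxf : ∀ b ∈ B, b x = x := fun b hb => TT_fix H (T1_le_TT H (hBT hb)) hx
        have hvx := hfix v hv x hxf
        rw [mem_L0]
        funext d
        obtain ⟨b, hb, hbd⟩ := hroot d
        have hbT := T1_le_TT H (hBT hb)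
        obtain ⟨h1, h2⟩ := PG_TT_apply H hbT (v x)
        have h3 := h2 d
        rw [hvx b hb] at h3
        have h4 : (wt b d - 1) * (v x).2 d = 0 := by
          rw [sub_mul, one_mul, ← h3, sub_self]
        rcases mul_eq_zero.mp h4 with h | h
        · exact absurd (sub_eq_zero.mp h) hbd
        · exact h
      intro v hv
      refine ⟨hPG (hP0P hv), fun x => ⟨fun h => ?_, key v hv x⟩⟩
      have h1 := key v⁻¹ (P0.inv_mem hv) (v x) h
      have h2 : v⁻¹ (v x) = x := v.symm_apply_apply x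
      rwa [h2] at h1
    have hbot := pg_zero H P0 hP0p hP0N hP0T
    have : u = 1 := by
      have := hu0
      rw [hbot, Subgroup.mem_bot] at this
      exact this
    rw [this]
    exact Subgroup.one_mem _

end Pool.Agent.H33.EQ
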