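import Pool.Agent.H33.EQ.CAe
import Pool.Agent.H33.EQ.CAd

/-!
# EL-32: Case A

`F ≤ GG`, `T1 ≤ F`, `P ≠ 1` a normal `p`-subgroup of `F`.  `S = SF P` as a `Finset`,
`δ = ∑_(b ∈ S) b.1`.  `S ≠ ∅` by `pg`.  By `sp_inv` and `inv_Par`: `F ≤ Par δ`.
`P ≤ Rad δ`: `pg`, `delta_pos` (`SF_closed`, `SF_no_opp`), `gr_xr_pos`, `mem_Rad`.
So `F ⊓ Rad δ ≠ 1`.  `F' = grF H δ F` satisfies the hypotheses of the induction.

`Dst F`: let `g ∈ GG`, `g T1 g⁻¹ ≤ F ≤ Par δ`.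
(1) `sz_conj` with `Q = Rad δ`, `A = g T1 g⁻¹` (as a subgroup, map of `T1`), `B = gr A` (image;
`B ≤ grF`, `b = gr a` has `b a⁻¹ ∈ Rad` since `gr (gr a) = gr a`, `gr_gr`): `u ∈ Rad δ` with
`u A u⁻¹ = B`.
(2) `u g T1 (u g)⁻¹ = B ≤ F'`, so `Dst F'` gives `c ∈ Fo F'` with `c⁻¹ u g ∈ NN`.
`Fo F' ≤ Fo F` and every element of `Fo F'` is in `Par δ` and fixed by `gr`
(`grF_TT`, `grF_SF`, `grF_SF_deg`, `gr_TT`, `gr_xr_zero`).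
As `c⁻¹ u g` normalises `T1`: `c T1 c⁻¹ = u g T1 (u g)⁻¹ = B`.
(3) `A' = c T1 c⁻¹ = u A u⁻¹ ≤ F` and `A ≤ F`; for `a ∈ A`: `u a u⁻¹ a⁻¹ ∈ F ⊓ Rad δ`
(`Rad_normal`).  `sz_conj` with `Q = F ⊓ Rad δ` for `A', A`: `u' ∈ F ⊓ Rad δ` with
`u' A' u'⁻¹ = A`.  Then `(u' c) T1 (u' c)⁻¹ = g T1 g⁻¹`, so `(u' c)⁻¹ g ∈ NN`
(`mem_NN_of_conj`).  `u' ∈ Fo F` since `F ⊓ Rad δ` is a `T1`-invariant `p`-group (`pg`).
-/

namespace Pool.Agent.H33.EQ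

variable {n : ℕ} {C : Matrix (Fin n) (Fin n) ℤ} {K : Type} [Field K] [Fintype (Rt C)]

theorem caseA_Fo_le (F : Subgroup (LL C K ≃ₗ[K] LL C K)) : Fo F ≤ F := by
  unfold Fo
  rw [Subgroup.closure_le]
  rintro x (⟨hx, -⟩ | ⟨a, ha, s, rfl⟩)
  · exact hx
  · exact ha s

theorem caseA_Fo_mono (H : Hyp C K) {p : ℕ} [Fact p.Prime] [CharP K p] (d : Fin n → ℤ)
    (F : Subgroup (LL C K ≃ₗ[K] LL C K)) (hT : T1 C K ≤ F) : Fo (grF H d F) ≤ Fo F := by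
  unfold Fo
  rw [Subgroup.closure_le]
  rintro x (⟨hx, hx'⟩ | ⟨a, ha, s, rfl⟩)
  · exact Subgroup.subset_closure (Or.inl ⟨grF_TT (p := p) H d F hT hx hx', hx'⟩)
  · exact Subgroup.subset_closure (Or.inr ⟨a, grF_SF (p := p) H d F hT ha, s, rfl⟩)

theorem caseA_pgroup_le_Fo (H : Hyp C K) {p : ℕ} [Fact p.Prime] [CharP K p]
    (F Q : Subgroup (LL C K ≃ₗ[K] LL C K)) (hQF : Q ≤ F) (hQ : IsPGroup p Q)
    (hQG : Q ≤ GG C K) (hT : ∀ t ∈ T1 C K, ∀ u ∈ Q, t * u * t⁻¹ ∈ Q) : Q ≤ Fo F := by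
  refine (pg H Q hQ hQG hT).trans ?_
  rw [Subgroup.closure_le]
  rintro x ⟨b, hb, s, rfl⟩
  exact Subgroup.subset_closure (Or.inr ⟨b, fun s' => hQF (hb s'), s, rfl⟩)

theorem caseA_gr_mul (H : Hyp C K) {d : Fin n → ℤ} (g : Par C K d) :
    gr H d g * (g : LL C K ≃ₗ[K] LL C K)⁻¹ ∈ Rad H d := by
  have h1 := (mem_Rad H ((⟨gr H d g, gr_mem_Par H g⟩ : Par C K d) * g⁻¹)).2 (by
    rw [map_mul, gr_gr, map_inv, mul_inv_cancel])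
  exact h1

theorem caseA_PRad (H : Hyp C K) {p : ℕ} [Fact p.Prime] [CharP K p]
    (P : Subgroup (LL C K ≃ₗ[K] LL C K)) (hPG : P ≤ GG C K) (hP : IsPGroup p P)
    (hT : ∀ t ∈ T1 C K, ∀ u ∈ P, t * u * t⁻¹ ∈ P) (S : Finset (Rt C))
    (hS : (S : Set (Rt C)) = SF P) : P ≤ Rad H (∑ b ∈ S, b.1) := by
  refine (pg H P hP hPG hT).trans ?_
  rw [Subgroup.closure_le]
  rintro x ⟨b, hb, s, rfl⟩
  have hm : ∀ a : Rt C, a ∈ S ↔ a ∈ SF P := fun a => by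
    rw [← hS]
    exact Iff.rfl
  have h1 : 2 ≤ ip C (∑ b ∈ S, b.1) b.1 := delta_pos H S
    (fun a ha b hb c hc => (hm c).2 (SF_closed H P hc ((hm a).1 ha) ((hm b).1 hb)))
    (fun a ha h => SF_no_opp H P hP ((hm a).1 ha) ((hm _).1 h)) ((hm b).2 hb)
  have h2 : 0 < ip C (∑ b ∈ S, b.1) b.1 := by omega
  exact (mem_Rad H ⟨xr b s, xr_mem_Par H _ b s h2.le⟩).2 (gr_xr_pos H _ b s h2)

theorem caseA (H : Hyp C K) {p : ℕ} [Fact p.Prime] [CharP K p]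
    (F P : Subgroup (LL C K ≃ₗ[K] LL C K)) (hF : F ≤ GG C K) (hT : T1 C K ≤ F)
    (hPF : P ≤ F) (hn : ∀ f ∈ F, ∀ u ∈ P, f * u * f⁻¹ ∈ P) (hP : IsPGroup p P)
    (hP1 : P ≠ ⊥)
    (IH : ∀ F' : Subgroup (LL C K ≃ₗ[K] LL C K), F' ≤ GG C K → T1 C K ≤ F' →
      Nat.card F' < Nat.card F → Dst F') : Dst F := by
  classical
  haveI := finite_group H
  have hTn : ∀ t ∈ T1 C K, ∀ u ∈ P, t * u * t⁻¹ ∈ P := fun t ht => hn t (hT ht)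
  have hPG : P ≤ GG C K := hPF.trans hF
  obtain ⟨S, hS⟩ : ∃ S : Finset (Rt C), (S : Set (Rt C)) = SF P :=
    ⟨(Set.toFinite (SF P)).toFinset, Set.Finite.coe_toFinset _⟩
  set δ : Fin n → ℤ := ∑ b ∈ S, b.1 with hδ
  have hinv := sp_inv H P F hP hPG hTn hF hn
  have hPar : F ≤ Par C K δ := fun f hf => inv_Par H S (hF hf) (by
    rw [hS]
    exact hinv f hf)
  have hPR : P ≤ Rad H δ := caseA_PRad H P hPG hP hTn S hS
  have hR1 : F ⊓ Rad H δ ≠ ⊥ := fun h => hP1 (by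
    rw [eq_bot_iff, ← h]
    exact le_inf hPF hPR)
  have hD : Dst (grF H δ F) := IH _ (grF_le H δ F) (T1_le_grF H δ F hT)
    (grF_card H δ F hPar hR1)
  intro g hg hgT
  have hgF : ∀ t ∈ T1 C K, g * t * g⁻¹ ∈ F := fun t ht => hgT ht
  -- the torus `A = g T1 g⁻¹`
  let A : Subgroup (LL C K ≃ₗ[K] LL C K) := (T1 C K).map (MulAut.conj g).toMonoidHom
  have hAmem : ∀ t ∈ T1 C K, g * t * g⁻¹ ∈ A := fun t ht => ⟨t, ht, rfl⟩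
  have hAF : A ≤ F := by
    rintro _ ⟨t, ht, rfl⟩
    exact hgF t ht
  have hcA : ¬ p ∣ Nat.card A := by
    have h1 : Nat.card A = Nat.card (T1 C K) :=
      Subgroup.card_map_of_injective (MulAut.conj g).injective
    rw [h1]
    exact T1_card H
  let B : Subgroup (LL C K ≃ₗ[K] LL C K) := grF H δ A
  have hBF : B ≤ grF H δ F := by
    intro x hx
    obtain ⟨y, hy, hyx⟩ := (mem_grF H δ A x).1 hx
    exact (mem_grF H δ F x).2 ⟨y, hAF hy, hyx⟩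
  have hcB : ¬ p ∣ Nat.card B := by
    intro h
    apply hcA
    refine h.trans ((Subgroup.card_map_dvd (H := A.subgroupOf (Par C K δ)) (gr H δ)).trans ?_)
    have h1 : Nat.card (A.subgroupOf (Par C K δ)) = Nat.card A :=
      Nat.card_congr (Subgroup.subgroupOfEquivOfLe (hAF.trans hPar)).toEquiv
    rw [h1]
  obtain ⟨u, hu, huA, -⟩ := EL.sz_conj (p := p) (Rad H δ) A B (Rad_pgroup H δ) hcA hcB
    (fun a ha v hv => CAe_conj_Rad H (hPar (hAF ha)) hv)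
    (by
      intro b hb
      obtain ⟨y, hy, rfl⟩ := (mem_grF H δ A b).1 hb
      exact ⟨_, caseA_gr_mul H y, y, hy, by group⟩)
    (by
      intro a ha
      have h1 := caseA_gr_mul H (⟨a, hPar (hAF ha)⟩ : Par C K δ)
      refine ⟨_, inv_mem h1, gr H δ ⟨a, hPar (hAF ha)⟩,
        (mem_grF H δ A _).2 ⟨⟨a, hPar (hAF ha)⟩, ha, rfl⟩, ?_⟩
      show a = (gr H δ ⟨a, hPar (hAF ha)⟩ * a⁻¹)⁻¹ * gr H δ ⟨a, hPar (hAF ha)⟩
      group)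
  have huP : u ∈ Par C K δ := Rad_le H δ hu
  have hug : u * g ∈ GG C K := mul_mem huP.1 hg
  obtain ⟨c, hc, hcN⟩ := hD (u * g) hug (by
    intro t ht
    show u * g * t * (u * g)⁻¹ ∈ grF H δ F
    have h1 : u * g * t * (u * g)⁻¹ = u * (g * t * g⁻¹) * u⁻¹ := by group
    rw [h1]
    exact hBF (huA _ (hAmem t ht)))
  have hcFo : c ∈ Fo F := caseA_Fo_mono (p := p) H δ F hT hc
  have hcF : c ∈ F := caseA_Fo_le F hcFo
  -- conjugation by `c⁻¹ u g` preserves `T1`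
  have hN1 : ∀ t ∈ T1 C K, (c⁻¹ * (u * g)) * t * (c⁻¹ * (u * g))⁻¹ ∈ T1 C K :=
    NN_conj_T1 H hcN
  have hN2 : ∀ t ∈ T1 C K, (c⁻¹ * (u * g))⁻¹ * t * (c⁻¹ * (u * g)) ∈ T1 C K := by
    intro t ht
    have h1 := NN_conj_T1 H (inv_mem hcN) t ht
    rwa [inv_inv] at h1
  let A' : Subgroup (LL C K ≃ₗ[K] LL C K) := (T1 C K).map (MulAut.conj c).toMonoidHom
  have hA'mem : ∀ t ∈ T1 C K, c * t * c⁻¹ ∈ A' := fun t ht => ⟨t, ht, rfl⟩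
  have hA'F : A' ≤ F := by
    rintro _ ⟨t, ht, rfl⟩
    exact mul_mem (mul_mem hcF (hT ht)) (inv_mem hcF)
  have hcA' : ¬ p ∣ Nat.card A' := by
    have h1 : Nat.card A' = Nat.card (T1 C K) :=
      Subgroup.card_map_of_injective (MulAut.conj c).injective
    rw [h1]
    exact T1_card H
  have hAA' : ∀ a ∈ A, u * a * u⁻¹ ∈ A' := by
    rintro _ ⟨t, ht, rfl⟩
    have h1 := hA'mem _ (hN1 t ht)
    have h2 : u * (g * t * g⁻¹) * u⁻¹ =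
        c * ((c⁻¹ * (u * g)) * t * (c⁻¹ * (u * g))⁻¹) * c⁻¹ := by group
    show u * (g * t * g⁻¹) * u⁻¹ ∈ A'
    rw [h2]
    exact h1
  have hA'A : ∀ a ∈ A', u⁻¹ * a * u ∈ A := by
    rintro _ ⟨t, ht, rfl⟩
    have h1 := hAmem _ (hN2 t ht)
    have h2 : u⁻¹ * (c * t * c⁻¹) * u =
        g * ((c⁻¹ * (u * g))⁻¹ * t * (c⁻¹ * (u * g))) * g⁻¹ := by group
    show u⁻¹ * (c * t * c⁻¹) * u ∈ A
    rw [h2]
    exact h1
  have hcom : ∀ a ∈ A, u * a * u⁻¹ * a⁻¹ ∈ F ⊓ Rad H δ := by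
    intro a ha
    refine Subgroup.mem_inf.2 ⟨mul_mem (hA'F (hAA' a ha)) (inv_mem (hAF ha)), ?_⟩
    have h1 : u * a * u⁻¹ * a⁻¹ = u * (a * u⁻¹ * a⁻¹) := by group
    rw [h1]
    exact mul_mem hu (CAe_conj_Rad H (hPar (hAF ha)) (inv_mem hu))
  have hQp : IsPGroup p (F ⊓ Rad H δ : Subgroup (LL C K ≃ₗ[K] LL C K)) :=
    (Rad_pgroup H δ).to_le inf_le_right
  have hQn : ∀ a ∈ F, ∀ v ∈ F ⊓ Rad H δ, a * v * a⁻¹ ∈ F ⊓ Rad H δ := fun a ha v hv =>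
    Subgroup.mem_inf.2 ⟨mul_mem (mul_mem ha (Subgroup.mem_inf.1 hv).1) (inv_mem ha),
      CAe_conj_Rad H (hPar ha) (Subgroup.mem_inf.1 hv).2⟩
  obtain ⟨u', hu', -, hu'A⟩ := EL.sz_conj (p := p) (F ⊓ Rad H δ) A' A hQp hcA' hcA
    (fun a ha v hv => hQn a (hA'F ha) v hv)
    (by
      intro b hb
      refine ⟨_, inv_mem (hcom b hb), _, hAA' b hb, ?_⟩
      group)
    (by
      intro a ha
      have h1 := hcom _ (hA'A a ha)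
      refine ⟨_, h1, _, hA'A a ha, ?_⟩
      group)
  refine ⟨u' * c, mul_mem ?_ hcFo, ?_⟩
  · exact caseA_pgroup_le_Fo H F (F ⊓ Rad H δ) inf_le_left hQp (inf_le_left.trans hF)
      (fun t ht v hv => hQn t (hT ht) v hv) hu'
  · refine mem_NN_of_conj H (mul_mem (inv_mem (mul_mem (hF (Subgroup.mem_inf.1 hu').1)
      (hF hcF))) hg) fun t ht => ?_
    obtain ⟨t', ht', htt⟩ := hu'A _ (hAmem t ht)
    have h1 : c * t' * c⁻¹ = u'⁻¹ * (g * t * g⁻¹) * u' := htt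
    have h2 : (u' * c)⁻¹ * g * t * ((u' * c)⁻¹ * g)⁻¹ =
        c⁻¹ * (u'⁻¹ * (g * t * g⁻¹) * u') * c := by group
    rw [h2, ← h1]
    have h3 : c⁻¹ * (c * t' * c⁻¹) * c = t' := by group
    rw [h3]
    exact ht'

end Pool.Agent.H33.EQ
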