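import Pool.Agent.H33.EQ.CBa
import Pool.Agent.H33.EQ.CBd
import Pool.Agent.H33.EQ.CBe
import Pool.Agent.H33.EQ.CBg

/-!
# Case B (assembled)
-/

namespace Pool.Agent.H33.EQ

variable {n : ℕ} {C : Matrix (Fin n) (Fin n) ℤ} {K : Type} [Field K] [Fintype (Rt C)]

theorem mem_cj {g x : LL C K ≃ₗ[K] LL C K} {F : Subgroup (LL C K ≃ₗ[K] LL C K)} :
    x ∈ cj g F ↔ g * x * g⁻¹ ∈ F := Iff.rfl

theorem cj_le_GG {g : LL C K ≃ₗ[K] LL C K} {F : Subgroup (LL C K ≃ₗ[K] LL C K)}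
    (hg : g ∈ GG C K) (hF : F ≤ GG C K) : cj g F ≤ GG C K := by
  intro x hx
  have h := hF (mem_cj.1 hx)
  have := mul_mem (mul_mem (inv_mem hg) h) hg
  simpa [mul_assoc] using this

theorem card_cj (g : LL C K ≃ₗ[K] LL C K) (F : Subgroup (LL C K ≃ₗ[K] LL C K)) :
    Nat.card (cj g F) = Nat.card F := by
  have h : cj g F = F.map (MulAut.conj g⁻¹).toMonoidHom := by
    ext x
    rw [mem_cj, Subgroup.mem_map]
    constructor
    · intro hx
      exact ⟨_, hx, by simp [mul_assoc]⟩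
    · rintro ⟨y, hy, rfl⟩
      simpa [mul_assoc] using hy
  rw [h]
  exact (Nat.card_congr (Subgroup.equivMapOfInjective F _
    (MulEquiv.injective (MulAut.conj g⁻¹))).toEquiv).symm

theorem caseB (H : Hyp C K) {p : ℕ} [Fact p.Prime] [CharP K p]
    (F : Subgroup (LL C K ≃ₗ[K] LL C K)) (hF : F ≤ GG C K) (hT : T1 C K ≤ F)
    (hO : ∀ P : Subgroup (LL C K ≃ₗ[K] LL C K), P ≤ F →
      (∀ f ∈ F, ∀ u ∈ P, f * u * f⁻¹ ∈ P) → IsPGroup p P → P = ⊥)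
    (hS0 : (SF F).Nonempty)
    (hS : ∀ g ∈ GG C K, T1 C K ≤ cj g F → (SF (cj g F)).Nonempty)
    (IH : ∀ F' : Subgroup (LL C K ≃ₗ[K] LL C K), F' ≤ GG C K → T1 C K ≤ F' →
      Nat.card F' < Nat.card F → Dst F') : Dst F := by
  intro g hg hgT
  have hsym : ∀ c ∈ SF F, ng c ∈ SF F := fun c hc => opp_mem H F hF hT hO hc
  have hO' : ∀ P : Subgroup (LL C K ≃ₗ[K] LL C K), P ≤ cj g F →
      (∀ f ∈ cj g F, ∀ u ∈ P, f * u * f⁻¹ ∈ P) → IsPGroup p P → P = ⊥ := by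
    intro P hP hn hp
    have h1 : P.map (MulAut.conj g).toMonoidHom = ⊥ := by
      apply hO
      · rintro x ⟨y, hy, rfl⟩
        exact hP hy
      · rintro f hf x ⟨y, hy, rfl⟩
        refine ⟨(g⁻¹ * f * g) * y * (g⁻¹ * f * g)⁻¹, hn _ ?_ y hy, ?_⟩
        · rw [mem_cj]
          simpa [mul_assoc] using hf
        · simp [mul_assoc]
      · exact hp.map _
    exact (Subgroup.map_eq_bot_iff_of_injective P
      (MulEquiv.injective (MulAut.conj g))).1 h1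
  have hF' := cj_le_GG hg hF
  have hsym' : ∀ c ∈ SF (cj g F), ng c ∈ SF (cj g F) :=
    fun c hc => opp_mem H (cj g F) hF' hgT hO' hc
  obtain ⟨b, hb⟩ := hS0
  by_cases h : ∃ b' ∈ SF (cj g F), ∀ v : LL C K, g v ∈ O1 F b ↔ v ∈ O1 (cj g F) b'
  · obtain ⟨b', hb', heq⟩ := h
    exact caseB1 H F hF hT hg hgT hsym hsym' hb hb' heq IH
  · exfalso
    refine caseB2 H F hF hT hg hgT hsym hO hb (hS g hg hgT) (fun b' hb' => ?_) IH
    rcases dich H F hF hT hg hgT hsym hsym' hb hb' with h1 | h1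
    · exact (h ⟨b', hb', h1⟩).elim
    · exact h1

end Pool.Agent.H33.EQ
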