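import Pool.Agent.H33.EL.Defs

/-!
# Torus overgroups over the field with 8 elements: definitions (helper33, MP_a408f4_al)

Same setting as `H33/EL/Defs.lean`, in characteristic two: the exponential of an extremal
vector is `1 + ad v - fm v _ • v` (no division by two), `TT` is the group of automorphisms
fixing all root lines.
-/

namespace Pool.Agent.H33.EQ

export Pool.Agent.H33.EL (ip cc eps Rt ng zk ek fk LL hh e brf fmf br fm hd L0 GG T1 NN cj wt Zc)

variable {n : ℕ} {C : Matrix (Fin n) (Fin n) ℤ} {K : Type} [Field K] [Fintype (Rt C)]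

/-- extremal vectors (valid in characteristic two) -/
def IsExt (v : LL C K) : Prop :=
  (∀ x, br v (br v x) = (-2 * fm v x) • v) ∧
  ∀ x y, br (br v x) (br v y) = fm v x • br v y - fm v y • br v x - fm v (br x y) • v

/-- `1 + ad v - fm v _ • v` -/
def exl (v : LL C K) : LL C K →ₗ[K] LL C K :=
  LinearMap.id + br v - (fm v).smulRight v

open Classical in
/-- `exp (ad v)` for an extremal vector `v` (the identity if `exl v` is not invertible with
inverse `exl (-v)`) -/
noncomputable def ex (v : LL C K) : LL C K ≃ₗ[K] LL C K :=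
  if h : (exl v).comp (exl (-v)) = LinearMap.id ∧ (exl (-v)).comp (exl v) = LinearMap.id then
    LinearEquiv.ofLinearMap (exl v) (exl (-v)) h.1 h.2 else LinearEquiv.refl K _

/-- the root element `x_a(s)` -/
noncomputable def xr (a : Rt C) (s : K) : LL C K ≃ₗ[K] LL C K := ex (s • e K a)

variable (C K) in
/-- automorphisms fixing all root lines -/
def TT : Subgroup (LL C K ≃ₗ[K] LL C K) where
  carrier := {g | g ∈ GG C K ∧ ∀ a : Rt C, ∃ s : K, g (e K a) = s • e K a}
  one_mem' := ⟨one_mem _, fun a => ⟨1, by rw [one_smul]; rfl⟩⟩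
  mul_mem' := by
    rintro a b ⟨ha, ha'⟩ ⟨hb, hb'⟩
    refine ⟨mul_mem ha hb, fun c => ?_⟩
    obtain ⟨s, hs⟩ := hb' c
    obtain ⟨t, ht⟩ := ha' c
    refine ⟨s * t, ?_⟩
    rw [LinearEquiv.mul_apply, hs, map_smul, ht, smul_smul]
  inv_mem' := by
    rintro a ⟨ha, ha'⟩
    refine ⟨inv_mem ha, fun c => ?_⟩
    obtain ⟨s, hs⟩ := ha' c
    have h0 : s ≠ 0 := by
      rintro rfl
      rw [zero_smul] at hs
      have h1 : e K c = 0 := a.injective (by rw [hs, map_zero])
      have h2 : (e K c : LL C K).2 c = 0 := by rw [h1]; rfl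
      have h3 : (e K c : LL C K).2 c = 1 := by
        show (Pi.single c (1 : K) : Rt C → K) c = 1
        exact Pi.single_eq_same c 1
      rw [h3] at h2
      exact one_ne_zero h2
    refine ⟨s⁻¹, ?_⟩
    apply a.injective
    have h1 : a (a⁻¹ (e K c)) = e K c := a.apply_symm_apply _
    rw [h1, map_smul, hs, smul_smul, inv_mul_cancel₀ h0, one_smul]

/-- the set of roots whose root group lies in `F` -/
def SF (F : Subgroup (LL C K ≃ₗ[K] LL C K)) : Set (Rt C) := {a | ∀ s : K, xr a s ∈ F}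

/-- the subgroup of `F` generated by its toral elements and its root groups -/
def Fo (F : Subgroup (LL C K ≃ₗ[K] LL C K)) : Subgroup (LL C K ≃ₗ[K] LL C K) :=
  Subgroup.closure {g | (g ∈ F ∧ g ∈ TT C K) ∨ ∃ a ∈ SF F, ∃ s : K, g = xr a s}

/-- the statement (D): all base tori of `F` are conjugate under `Fo F` -/
def Dst (F : Subgroup (LL C K ≃ₗ[K] LL C K)) : Prop :=
  ∀ g ∈ GG C K, T1 C K ≤ cj g F → ∃ c ∈ Fo F, c⁻¹ * g ∈ NN C K

/-- the standing hypotheses on the Gram matrix and the field with 8 elements -/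
structure Hyp (C : Matrix (Fin n) (Fin n) ℤ) [Fintype (Rt C)] (K : Type) [Field K] : Prop where
  symm : ∀ i j, C i j = C j i
  diag : ∀ i, C i i = 2
  pos : ∀ x : Fin n → ℤ, x ≠ 0 → 0 < ip C x x
  nd : ∀ h : Fin n → K, (∀ i, ∑ j, (C i j : K) * h j = 0) → h = 0
  r0 : ∀ y : Fin n → ℤ, (∀ i, Even (∑ j, C i j * y j)) → ∀ i, Even (y i)
  ra : ∀ a b : Rt C, (ip C a.1 b.1 = 0 ∨ ip C a.1 b.1 = 1 ∨ ip C a.1 b.1 = -1) →
    ∃ y : Rt C, ip C y.1 a.1 = 1 ∧ ip C y.1 b.1 = 0
  rb : ∀ a b : Rt C, ip C a.1 b.1 = 0 → ∃ y : Rt C, ip C y.1 a.1 = 1 ∧ ip C y.1 b.1 = -1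
  two : (2 : K) = 0
  card : Nat.card K = 8

end Pool.Agent.H33.EQ
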