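import Pool.Agent.H33.EQ.Inv

/-!
# EQ-06: exponentials of extremal vectors in characteristic two

`exl v x = x + br v x - fm v x • v` is an automorphism by the second extremal identity.
-/

namespace Pool.Agent.H33.EQ

variable {n : ℕ} {C : Matrix (Fin n) (Fin n) ℤ} {K : Type} [Field K] [Fintype (Rt C)]

theorem ExG_fm_br (H : Hyp C K) (v x : LL C K) : fm v (br v x) = 0 := by
  have h1 := fm_inv H v v x
  rw [br_self H, map_zero, LinearMap.zero_apply] at h1
  exact (neg_eq_zero.1 h1.symm)

/-- the map `exl` for an extremal vector -/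
theorem ExG_exl (_H : Hyp C K) {v : LL C K} (_hv : IsExt v) (x : LL C K) :
    exl v x = x + br v x - fm v x • v := rfl

theorem ExG_exl_smul (H : Hyp C K) {v : LL C K} (hv : IsExt v) (s : K) (x : LL C K) :
    exl (s • v) x = x + s • br v x - (s * s * fm v x) • v := by
  rw [ExG_exl H (hv.smul s) x]
  simp only [map_smul, LinearMap.smul_apply, smul_eq_mul, smul_smul]
  congr 2
  ring

theorem ExG_exl_comp (H : Hyp C K) {v : LL C K} (hv : IsExt v) (s t : K) (x : LL C K) :
    exl (s • v) (exl (t • v) x) = exl ((s + t) • v) x := by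
  rw [ExG_exl_smul H hv, ExG_exl_smul H hv, ExG_exl_smul H hv]
  have e1 : br v (x + t • br v x - (t * t * fm v x) • v) = br v x + (t * (-2 * fm v x)) • v := by
    rw [map_sub, map_add, map_smul, map_smul, hv.1 x, br_self H, smul_zero, sub_zero, smul_smul]
  have e2 : fm v (x + t • br v x - (t * t * fm v x) • v) = fm v x := by
    rw [map_sub, map_add, map_smul, map_smul, ExG_fm_br H, hv.fm_self H, smul_zero, smul_zero,
      add_zero, sub_zero]
  rw [e1, e2]
  module

theorem ExG_inv (H : Hyp C K) {v : LL C K} (hv : IsExt v) :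
    (exl v).comp (exl (-v)) = LinearMap.id ∧ (exl (-v)).comp (exl v) = LinearMap.id := by
  have h0 : ∀ x, exl ((0 : K) • v) x = x := by
    intro x
    rw [ExG_exl_smul H hv]
    simp
  constructor
  · apply LinearMap.ext
    intro x
    have h1 := ExG_exl_comp H hv 1 (-1) x
    rw [one_smul, neg_one_smul, add_neg_cancel, h0] at h1
    exact h1
  · apply LinearMap.ext
    intro x
    have h1 := ExG_exl_comp H hv (-1) 1 x
    rw [one_smul, neg_one_smul, neg_add_cancel, h0] at h1
    exact h1

theorem ExG_ex (H : Hyp C K) {v : LL C K} (hv : IsExt v) (x : LL C K) : ex v x = exl v x := by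
  unfold ex
  rw [dif_pos (ExG_inv H hv)]
  rfl

/-- the useful form -/
theorem ex_apply' (H : Hyp C K) {v : LL C K} (hv : IsExt v) (x : LL C K) :
    ex v x = x + br v x - fm v x • v := by
  rw [ExG_ex H hv, ExG_exl H hv]

theorem ex_mem_GG (H : Hyp C K) {v : LL C K} (hv : IsExt v) : ex v ∈ GG C K := by
  refine ⟨fun x y => ?_, fun x y => ?_⟩
  · rw [ex_apply' H hv, ex_apply' H hv, ex_apply' H hv]
    have e1 : br v (br x y) = br (br v x) y + br x (br v y) := jac H v x y
    have e3 : br x v = -br v x := br_skew H x v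
    have e4 : br (br v x) v = (2 * fm v x) • v := by
      rw [br_skew H (br v x) v, hv.1 x]
      module
    simp only [map_add, map_sub, map_smul, LinearMap.add_apply, LinearMap.sub_apply,
      LinearMap.smul_apply, br_self H, hv.1 x, hv.1 y, e4, e3, e1, hv.2 x y]
    module
  · rw [ex_apply' H hv, ex_apply' H hv]
    have e1 : fm (br v x) y = -fm x (br v y) := fm_inv H v x y
    have e2 : fm (br v x) (br v y) = 2 * fm v x * fm v y := by
      rw [fm_inv H v x, hv.1 y, map_smul, fm_comm H x v, smul_eq_mul]
      ring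
    have e3 : fm (br v x) v = 0 := by rw [fm_comm H, ExG_fm_br H]
    have e4 : fm v (br v y) = 0 := ExG_fm_br H v y
    simp only [map_add, map_sub, map_smul, LinearMap.add_apply, LinearMap.sub_apply,
      LinearMap.smul_apply, smul_eq_mul, e1, e2, e3, e4, hv.fm_self H, fm_comm H x v]
    ring

theorem ExG_isExt_zero : IsExt (0 : LL C K) := by
  constructor
  · intro x
    simp
  · intro x y
    simp

theorem ex_zero (H : Hyp C K) : ex (0 : LL C K) = 1 := by
  apply LinearEquiv.ext
  intro x
  rw [ex_apply' H ExG_isExt_zero]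
  simp

theorem ex_add (H : Hyp C K) {v : LL C K} (hv : IsExt v) (s t : K) :
    ex ((s + t) • v) = ex (s • v) * ex (t • v) := by
  apply LinearEquiv.ext
  intro x
  rw [LinearEquiv.mul_apply, ExG_ex H (hv.smul _), ExG_ex H (hv.smul _), ExG_ex H (hv.smul _),
    ExG_exl_comp H hv]

theorem ex_neg (H : Hyp C K) {v : LL C K} (hv : IsExt v) : ex (-v) = (ex v)⁻¹ := by
  have h1 := ex_add H hv (-1) 1
  rw [neg_add_cancel, zero_smul, ex_zero H, neg_one_smul, one_smul] at h1
  exact eq_inv_of_mul_eq_one_left h1.symm

theorem conj_ex (H : Hyp C K) {v : LL C K} (hv : IsExt v) {g : LL C K ≃ₗ[K] LL C K}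
    (hg : g ∈ GG C K) : g * ex v * g⁻¹ = ex (g v) := by
  apply LinearEquiv.ext
  intro x
  have h1 : g (g⁻¹ x) = x := g.apply_symm_apply x
  rw [LinearEquiv.mul_apply, LinearEquiv.mul_apply, ex_apply' H hv, ex_apply' H (hv.map hg),
    map_sub, map_add, map_smul, hg.1, h1, ← hg.2, h1]

theorem ex_pow (H : Hyp C K) {v : LL C K} (hv : IsExt v) (k : ℕ) :
    ex v ^ k = ex ((k : K) • v) := by
  induction k with
  | zero => rw [pow_zero, Nat.cast_zero, zero_smul, ex_zero H]
  | succ k ih =>
    rw [pow_succ, ih, Nat.cast_succ, ex_add H hv, one_smul]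

theorem ex_eq_one (H : Hyp C K) {v : LL C K} (hv : IsExt v) (h : ex v = 1) : v = 0 := by
  have h1 : ∀ x, br v x = fm v x • v := by
    intro x
    have h3 : ex v x = x := by
      rw [h]
      rfl
    rw [ex_apply' H hv, add_sub_assoc, add_eq_left, sub_eq_zero] at h3
    exact h3
  by_contra hv0
  apply hv0
  apply center_zero H
  intro x
  apply fm_nondeg H
  intro y
  have h3 := hv.2 x y
  rw [h1 x, h1 y, map_smul, map_smul br, LinearMap.smul_apply, br_self H, smul_zero, smul_zero,
    smul_smul, smul_smul, mul_comm (fm v y), sub_self, zero_sub, eq_comm, neg_eq_zero] at h3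
  have h4 := (smul_eq_zero.1 h3).resolve_right hv0
  rw [br_skew H v x, map_neg, LinearMap.neg_apply, fm_inv H x v y, neg_neg]
  exact h4

/-- the third identity: collinear pairs -/
theorem br_collinear (H : Hyp C K) {v a w : LL C K} (hv : IsExt v) (hw : w = br a v)
    (hf : fm v a = 0) (x : LL C K) : br v (br w x) = -(fm v x • w) - fm w x • v := by
  have e1 : br w x = br a (br v x) - br v (br a x) := by
    rw [hw, jac H a v x]
    abel
  have e2 : br v (br a (br v x)) = br (br v a) (br v x) + br a (br v (br v x)) := jac H v a _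
  have e3 : fm v (br a x) = -fm w x := by
    rw [hw, fm_inv H a v x, neg_neg]
  have e4 : br v a = -w := by rw [hw, br_skew H v a]
  rw [e1, map_sub, e2, hv.2 a x, hv.1, hv.1, hf, map_smul, ← hw, e3, e4]
  module

/-- commuting extremal vectors whose sum is extremal -/
theorem ex_add_comm (H : Hyp C K) {v w a : LL C K} (hv : IsExt v) (hw : IsExt w)
    (hvw : IsExt (v + w)) (ha : w = br a v) (hfa : fm v a = 0) :
    ex (v + w) = ex v * ex w := by
  have hb : br v w = 0 := by
    rw [ha, br_skew H a v, map_neg, hv.1, hfa, mul_zero, zero_smul, neg_zero]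
  have hf : fm v w = 0 := by
    rw [ha, br_skew H a v, map_neg, ExG_fm_br H, neg_zero]
  apply LinearEquiv.ext
  intro x
  rw [LinearEquiv.mul_apply, ex_apply' H hv, ex_apply' H hw, ex_apply' H hvw]
  have e4 := br_collinear H hv ha hfa x
  have hwv : br w v = 0 := by rw [br_skew H, hb, neg_zero]
  have e5 : fm v (br w x) = 0 := by
    have h3 := fm_inv H w v x
    rw [hwv, map_zero, LinearMap.zero_apply] at h3
    exact neg_eq_zero.1 h3.symm
  simp only [map_add, map_sub, map_smul, LinearMap.add_apply, hb, hf, e4, e5, smul_zero,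
    add_zero, sub_zero]
  module

/-- commuting extremal vectors are orthogonal -/
theorem fm_eq_zero_of_br (H : Hyp C K) {v w : LL C K} (hv : IsExt v) (hb : br v w = 0) :
    fm v w • v = 0 := by
  by_cases h0 : fm v w = 0
  · rw [h0, zero_smul]
  · have h1 : v = 0 := by
      apply center_zero H
      intro y
      have h2 := hv.2 w y
      have h3 : fm v (br w y) = 0 := by
        have h4 := fm_inv H w v y
        rw [br_skew H w v, hb, neg_zero, map_zero, LinearMap.zero_apply] at h4
        exact neg_eq_zero.1 h4.symm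
      rw [hb, h3, map_zero, LinearMap.zero_apply, smul_zero, zero_smul, sub_zero, sub_zero] at h2
      exact (smul_eq_zero.1 h2.symm).resolve_left h0
    rw [h1, smul_zero]

/-- commuting extremal vectors have commuting exponentials -/
theorem ex_commute (H : Hyp C K) {v w : LL C K} (hv : IsExt v) (hw : IsExt w)
    (hb : br v w = 0) : ex v * ex w = ex w * ex v := by
  have h1 := fm_eq_zero_of_br H hv hb
  have h5 : ex v w = w := by rw [ex_apply' H hv, hb, h1, add_zero, sub_zero]
  have h6 := conj_ex H hw (ex_mem_GG H hv)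
  rw [h5] at h6
  exact mul_inv_eq_iff_eq_mul.1 h6

end Pool.Agent.H33.EQ
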