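import Pool.Agent.H33.EQ.Jac

/-!
# EL-05: the invariant form, extremality of root vectors, the centre

* `fm_comm`: reindex the sum by `ng`.
* `fm_inv`: trilinear, check basis vectors: `(e_a, e_(-a), h)`: see header of `Jac`; for
  `e_a, e_b, e_c` both sides vanish unless `a+b+c=0` and then `ε(a,b)·(-1)` against
  `ε(a,c)·(+1)`, `ε(a,c) = ε(a,-a-b) = -ε(a,b)`.
* `isExt_e`: `[e_a,[e_a,x]] = -2 fm(e_a,x) e_a = 2 x_(-a) e_a`: on `hh h`:
  `[e_a, -(h,a) e_a] = 0`; on `e_b`, `(a,b) ≥ 0`: 0; `(a,b) = -1`: `[e_a, e_(a+b)]`, product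
  `(a,a+b) = 1`, is 0; on `e_(-a)`: `[e_a,-h_a] = 2 e_a`.
* `ext` vectors: `fm v v = 0` (take `x = v` in the definition, `[v,v]=0`, char not 2).
* `ext_fst_ne`: a non zero extremal vector has a non zero root coordinate: if `v = hh h` then for
  `x = hh k`: `0 = -2 (h,k) v`, so `(h,k) = 0` for all `k`, `h = 0` by `fk_nondeg`.
-/

namespace Pool.Agent.H33.EQ

variable {n : ℕ} {C : Matrix (Fin n) (Fin n) ℤ} {K : Type} [Field K] [Fintype (Rt C)]

theorem two_eq (H : Hyp C K) : (2 : K) = 0 := H.two

theorem kadd_self (H : Hyp C K) (x : K) : x + x = 0 := by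
  rw [← two_mul, H.two, zero_mul]

theorem kneg (H : Hyp C K) (x : K) : -x = x :=
  (eq_neg_of_add_eq_zero_left (kadd_self H x)).symm

theorem ladd_self (H : Hyp C K) (x : LL C K) : x + x = 0 := by
  rw [← two_smul K x, H.two, zero_smul]

theorem lneg (H : Hyp C K) (x : LL C K) : -x = x :=
  (eq_neg_of_add_eq_zero_left (ladd_self H x)).symm

theorem fm_comm (H : Hyp C K) (x y : LL C K) : fm x y = fm y x := by
  show fmf x y = fmf y x
  unfold fmf
  rw [fk_comm H]
  congr 1
  have hi : Function.Involutive (ng : Rt C → Rt C) := ng_ng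
  rw [← Equiv.sum_comp hi.toPerm]
  refine Finset.sum_congr rfl fun a _ => ?_
  show x.2 (ng a) * y.2 (ng (ng a)) = y.2 a * x.2 (ng a)
  rw [ng_ng, mul_comm]

omit [Fintype (Rt C)] in
theorem Inv_ng_ne {a b : Rt C} (h : b ≠ ng a) : ng b ≠ a := by
  intro h1
  apply h
  rw [← h1, ng_ng]

theorem Inv_fm_inv_hh (H : Hyp C K) (h : Fin n → K) (y z : LL C K) :
    fm (br (hh C h) y) z = -fm y (br (hh C h) z) := by
  show fmf (br (hh C h) y) z = -fmf y (br (hh C h) z)
  unfold fmf
  rw [br_hh_fst, br_hh_fst, fk_zero_left, fk_zero_right]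
  simp only [br_hh_snd]
  rw [zero_sub, zero_sub, neg_neg, ← Finset.sum_neg_distrib]
  refine Finset.sum_congr rfl fun a _ => ?_
  rw [ng_val, zk_neg, fk_neg_right]
  ring

theorem Inv_fm_inv_e_hh (H : Hyp C K) (a : Rt C) (k : Fin n → K) (z : LL C K) :
    fm (br (e K a) (hh C k)) z = -fm (hh C k) (br (e K a) z) := by
  rw [br_e_hh, map_smul, LinearMap.smul_apply, fm_e_left, fm_hh_left, br_e_fst H, fk_smul_right,
    smul_eq_mul]
  ring

theorem Inv_fm_inv_e_e (H : Hyp C K) (a b : Rt C) (z : LL C K) :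
    fm (br (e K a) (e K b)) z = -fm (e K b) (br (e K a) z) := by
  rw [fm_e_left, neg_neg]
  by_cases hb : b = ng a
  · rw [hb, br_e_ng H, map_neg, LinearMap.neg_apply, fm_hh_left, ng_ng, br_e_snd_self H,
      fk_comm H]
  · have hb' := Inv_ng_ne hb
    by_cases hm : ip C a.1 b.1 = -1
    · have hc := root_add H hm
      have hz : (ng (⟨a.1 + b.1, hc⟩ : Rt C)).1 = (ng b).1 - a.1 := by
        rw [ng_val, ng_val]
        show -(a.1 + b.1) = -b.1 - a.1
        abel
      have hr : ip C (ng b).1 a.1 = 1 := by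
        rw [ng_val, ip_neg_left, ip_comm H.symm, hm]
        rfl
      rw [br_e_e_add H (c := ⟨a.1 + b.1, hc⟩) rfl, map_smul, LinearMap.smul_apply, fm_e_left,
        br_e_snd H a z (ng b) hr _ hz, ng_val, ek_neg_right]
      show ek K C a.1 b.1 • -z.2 _ = ek K C a.1 (a.1 + b.1) * z.2 _
      rw [ek_add_right, ek_self H, smul_eq_mul]
      ring
    · have h0 : 0 ≤ ip C a.1 b.1 := by
        rcases ip_cases H a b with h | h | h | h | h
        · exact absurd h hb
        · exact absurd h hm
        · rw [h]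
        · rw [h]; norm_num
        · rw [h, a.2]; norm_num
      rw [br_e_e_zero H h0, map_zero, LinearMap.zero_apply]
      symm
      apply br_e_snd_zero H a z (ng b) _ hb'
      rw [ng_val, ip_neg_left, ip_comm H.symm]
      omega

theorem Inv_fm_inv_e (H : Hyp C K) (a : Rt C) (y z : LL C K) :
    fm (br (e K a) y) z = -fm y (br (e K a) z) := by
  have key : (fm.flip z).comp (br (e K a)) = -(fm.flip (br (e K a) z)) := by
    apply ext_basis
    · intro k
      exact Inv_fm_inv_e_hh H a k z
    · intro b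
      exact Inv_fm_inv_e_e H a b z
  exact LinearMap.congr_fun key y

theorem fm_inv (H : Hyp C K) (x y z : LL C K) : fm (br x y) z = -fm y (br x z) := by
  have key : (fm.flip z).comp (br.flip y) = -((fm y).comp (br.flip z)) := by
    apply ext_basis
    · intro h
      exact Inv_fm_inv_hh H h y z
    · intro a
      exact Inv_fm_inv_e H a y z
  exact LinearMap.congr_fun key x

theorem fm_nondeg (H : Hyp C K) (x : LL C K) (h : ∀ y : LL C K, fm x y = 0) : x = 0 := by
  refine Prod.ext ?_ (funext fun a => ?_)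
  · apply fk_nondeg H
    intro a
    have := h (hh C (zk a.1))
    rwa [fm_hh_right] at this
  · have := h (e K (ng a))
    rw [fm_e_right, ng_ng] at this
    exact neg_eq_zero.mp this

theorem Inv_e1 (H : Hyp C K) (a : Rt C) (x : LL C K) :
    br (e K a) (br (e K a) x) = (-2 * fm (e K a) x) • e K a := by
  have h2 : br (e K a) (e K a) = 0 := br_e_e_zero H (by rw [a.2]; norm_num)
  have key : (br (e K a)).comp (br (e K a)) =
      ((-2 : K) • fm (e K a)).smulRight (e K a) := by
    apply ext_basis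
    · intro h
      show br (e K a) (br (e K a) (hh C h)) = ((-2 : K) * fm (e K a) (hh C h)) • e K a
      rw [br_e_hh, map_smul, h2, smul_zero, fm_e_left, hh_snd, neg_zero, mul_zero, zero_smul]
    · intro b
      show br (e K a) (br (e K a) (e K b)) = ((-2 : K) * fm (e K a) (e K b)) • e K a
      rw [fm_e_left]
      by_cases hb : b = ng a
      · rw [hb, br_e_ng H, map_neg, br_e_hh, e_snd_self, fk_zk_zk, a.2, neg_smul, neg_neg]
        norm_num
      · rw [e_snd_ne (Ne.symm hb), neg_zero, mul_zero, zero_smul]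
        by_cases hm : ip C a.1 b.1 = -1
        · have hc := root_add H hm
          rw [br_e_e_add H (c := ⟨a.1 + b.1, hc⟩) rfl, map_smul, br_e_e_zero H, smul_zero]
          show 0 ≤ ip C a.1 (a.1 + b.1)
          rw [ip_add_right, a.2, hm]
          norm_num
        · have h0 : 0 ≤ ip C a.1 b.1 := by
            rcases ip_cases H a b with h | h | h | h | h
            · exact absurd h hb
            · exact absurd h hm
            · rw [h]
            · rw [h]; norm_num
            · rw [h, a.2]; norm_num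
          rw [br_e_e_zero H h0, map_zero]
  exact LinearMap.congr_fun key x

/-- the second extremal identity for `e_a` -/
def IP2 (a : Rt C) (x y : LL C K) : Prop :=
  br (br (e K a) x) (br (e K a) y) =
    fm (e K a) x • br (e K a) y - fm (e K a) y • br (e K a) x - fm (e K a) (br x y) • e K a

theorem IP2_swap (H : Hyp C K) {a : Rt C} {x y : LL C K} (h : IP2 a x y) : IP2 a y x := by
  unfold IP2 at h ⊢
  rw [br_skew H (br (e K a) y) (br (e K a) x), h, br_skew H y x, map_neg]
  module

theorem IP2_ext {a : Rt C} {y : LL C K} (h1 : ∀ k, IP2 a (hh C k) y)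
    (h2 : ∀ b, IP2 a (e K b) y) (x : LL C K) : IP2 a x y := by
  have h0 : (br.flip (br (e K a) y)).comp (br (e K a)) =
      (fm (e K a)).smulRight (br (e K a) y) - fm (e K a) y • br (e K a) -
        ((fm (e K a)).comp (br.flip y)).smulRight (e K a) := ext_basis h1 h2
  exact congrArg (fun f : LL C K →ₗ[K] LL C K => f x) h0

theorem IP2_hh_hh (H : Hyp C K) (a : Rt C) (h k : Fin n → K) :
    IP2 (K := K) a (hh C h) (hh C k) := by
  unfold IP2
  rw [br_hh_hh, map_zero, fm_e_left, fm_e_left, hh_snd, hh_snd, br_e_hh, br_e_hh, map_smul,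
    map_smul, LinearMap.smul_apply, br_e_e_zero H (by rw [a.2]; norm_num)]
  simp

theorem IP2_hh_e (H : Hyp C K) (a : Rt C) (h : Fin n → K) (b : Rt C) :
    IP2 (K := K) a (hh C h) (e K b) := by
  unfold IP2
  rw [br_e_hh, map_smul, LinearMap.smul_apply, Inv_e1 H, br_hh_e, map_smul,
    fm_e_left a (hh C h), fm_e_left a (e K b), hh_snd]
  by_cases hb : b = ng a
  · rw [hb, e_snd_self, ng_val, zk_neg, fk_neg_right, smul_eq_mul]
    module
  · rw [e_snd_ne (a := b) (b := ng a) (Ne.symm hb)]
    simp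

theorem IP2_e_ng (H : Hyp C K) (a c : Rt C) (hc : c ≠ ng a) :
    IP2 (K := K) a (e K (ng a)) (e K c) := by
  unfold IP2
  have h1 : fm (e K a) (br (e K (ng a)) (e K c)) = 0 := by
    rw [fm_e_left, br_e_snd_self H, e_fst, fk_zero_left, neg_zero, neg_zero]
  rw [h1, br_e_ng H, fm_e_left, fm_e_left, e_snd_self, e_snd_ne (a := c) (b := ng a) (Ne.symm hc),
    map_neg, LinearMap.neg_apply]
  rcases ip_cases H a c with h | h | h | h | h
  · exact absurd h hc
  · rw [br_e_e_add H (c := ⟨a.1 + c.1, root_add H h⟩) rfl, map_smul, br_hh_e, fk_zk_zk,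
      ip_add_right, a.2, h]
    push_cast
    module
  · rw [br_e_e_zero H h.ge]
    simp
  · rw [br_e_e_zero H (by rw [h]; norm_num)]
    simp
  · rw [br_e_e_zero H (by rw [h, a.2]; norm_num)]
    simp

theorem IP2_e_e (H : Hyp C K) (a b c : Rt C) : IP2 (K := K) a (e K b) (e K c) := by
  by_cases hb : b = ng a
  · by_cases hc : c = ng a
    · rw [hb, hc]
      unfold IP2
      rw [br_self H, br_self H, map_zero]
      module
    · rw [hb]
      exact IP2_e_ng H a c hc
  by_cases hc : c = ng a
  · rw [hc]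
    exact IP2_swap H (IP2_e_ng H a b hb)
  unfold IP2
  rw [fm_e_left, fm_e_left, fm_e_left, e_snd_ne (a := b) (b := ng a) (Ne.symm hb),
    e_snd_ne (a := c) (b := ng a) (Ne.symm hc), neg_zero, zero_smul, zero_smul, sub_zero,
    zero_sub, neg_smul, neg_neg]
  have haa : ip C a.1 a.1 = 2 := a.2
  have hbb : ip C b.1 b.1 = 2 := b.2
  have hcc : ip C c.1 c.1 = 2 := c.2
  by_cases hsum : b.1 + c.1 = -a.1
  · -- the sum of the three roots is zero
    have hab : ip C a.1 b.1 = -1 := by
      have h1 : ip C (b.1 + c.1) (b.1 + c.1) = 2 := by rw [hsum, ip_neg_left, ip_neg_right, haa]; rfl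
      rw [ip_add_left, ip_add_right, ip_add_right, hbb, hcc, ip_comm H.symm c.1 b.1] at h1
      have h2 : ip C a.1 b.1 = -(ip C (b.1 + c.1) b.1) := by rw [hsum, ip_neg_left, neg_neg]
      rw [h2, ip_add_left, hbb, ip_comm H.symm c.1 b.1]
      omega
    have hac : ip C a.1 c.1 = -1 := by
      have h2 : ip C a.1 (b.1 + c.1) = -2 := by rw [hsum, ip_neg_right, haa]
      rw [ip_add_right, hab] at h2
      omega
    have hbc : ip C b.1 c.1 = -1 := by
      have h2 : ip C (b.1 + c.1) c.1 = 1 := by rw [hsum, ip_neg_left, hac]; rfl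
      rw [ip_add_left, hcc] at h2
      omega
    have hb1 : (ng c).1 = a.1 + b.1 := by
      rw [ng_val, ← sub_eq_zero]
      have h3 : -c.1 - (a.1 + b.1) = -(b.1 + c.1 - (-a.1)) := by abel
      rw [h3, hsum, sub_self, neg_zero]
    have hc1 : (ng b).1 = a.1 + c.1 := by
      rw [ng_val, ← sub_eq_zero]
      have h3 : -b.1 - (a.1 + c.1) = -(b.1 + c.1 - (-a.1)) := by abel
      rw [h3, hsum, sub_self, neg_zero]
    have ha1 : a.1 = (ng c).1 + (ng b).1 := by
      rw [ng_val, ng_val, ← sub_eq_zero]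
      have h3 : a.1 - (-c.1 + -b.1) = b.1 + c.1 - (-a.1) := by abel
      rw [h3, hsum, sub_self]
    have hn1 : (ng a).1 = b.1 + c.1 := by rw [ng_val, hsum]
    rw [br_e_e_add H hb1, br_e_e_add H hc1, map_smul, map_smul, LinearMap.smul_apply,
      br_e_e_add H ha1, br_e_e_add H hn1, smul_smul, smul_smul]
    congr 1
    show _ = ek K C b.1 c.1 * (e K (ng a)).2 (ng a)
    rw [e_snd_self, mul_one, ng_val, ng_val, ek_neg_left, ek_neg_right,
      ek_comm_odd H c.1 b.1 (by rw [ip_comm H.symm, hbc]; decide)]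
    have h4 : ek K C a.1 c.1 * ek K C a.1 b.1 = -1 := by
      rw [← ek_add_right, add_comm, hsum, ek_neg_right, ek_self H]
    have h5 : ek K C a.1 b.1 * ek K C a.1 c.1 = -1 := by rw [mul_comm, h4]
    first
      | rw [h4]; ring
      | rw [h5]; ring
  · -- otherwise both sides vanish
    have hR : (br (e K b) (e K c)).2 (ng a) = 0 := by
      rcases ip_cases H b c with h | h | h | h | h
      · rw [h, br_e_ng H]
        show -(hh C (zk b.1) : LL C K).2 (ng a) = 0
        rw [hh_snd, neg_zero]
      · rw [br_e_e_add H (c := ⟨b.1 + c.1, root_add H h⟩) rfl]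
        show ek K C b.1 c.1 * (e K (⟨b.1 + c.1, root_add H h⟩ : Rt C)).2 (ng a) = 0
        rw [e_snd_ne, mul_zero]
        intro h3
        exact hsum (congrArg Subtype.val h3).symm
      · rw [br_e_e_zero H h.ge]; rfl
      · rw [br_e_e_zero H (by rw [h]; norm_num)]; rfl
      · rw [br_e_e_zero H (by rw [h, hbb]; norm_num)]; rfl
    rw [hR, zero_smul]
    rcases ip_cases H a b with h | h | h | h | h
    · exact absurd h hb
    · rcases ip_cases H a c with h' | h' | h' | h' | h'
      · exact absurd h' hc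
      · rw [br_e_e_add H (c := ⟨a.1 + b.1, root_add H h⟩) rfl,
          br_e_e_add H (c := ⟨a.1 + c.1, root_add H h'⟩) rfl, map_smul, map_smul,
          LinearMap.smul_apply, br_e_e_zero H, smul_zero, smul_zero]
        show 0 ≤ ip C (a.1 + b.1) (a.1 + c.1)
        rw [ip_add_left, ip_add_right, ip_add_right, haa, h', ip_comm H.symm b.1 a.1, h]
        rcases ip_cases H b c with h3 | h3 | h3 | h3 | h3
        · exfalso
          rw [h3, ng_val, ip_neg_right, h] at h'
          omega
        · exfalso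
          apply hsum
          have h4 : ip C (⟨b.1 + c.1, root_add H h3⟩ : Rt C).1 a.1 = -2 := by
            show ip C (b.1 + c.1) a.1 = -2
            rw [ip_add_left, ip_comm H.symm b.1 a.1, ip_comm H.symm c.1 a.1, h, h']
            rfl
          have h5 := eq_ng_of_ip H h4
          have h6 : a.1 = -(b.1 + c.1) := congrArg Subtype.val h5
          rw [h6, neg_neg]
        · rw [h3]; norm_num
        · rw [h3]; norm_num
        · rw [h3, hbb]; norm_num
      · rw [br_e_e_zero H (a := a) (b := c) h'.ge, map_zero]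
      · rw [br_e_e_zero H (a := a) (b := c) (by rw [h']; norm_num), map_zero]
      · rw [br_e_e_zero H (a := a) (b := c) (by rw [h', haa]; norm_num), map_zero]
    · rw [br_e_e_zero H (a := a) (b := b) h.ge, map_zero, LinearMap.zero_apply]
    · rw [br_e_e_zero H (a := a) (b := b) (by rw [h]; norm_num), map_zero, LinearMap.zero_apply]
    · rw [br_e_e_zero H (a := a) (b := b) (by rw [h, haa]; norm_num), map_zero,
        LinearMap.zero_apply]

theorem Inv_e2 (H : Hyp C K) (a : Rt C) (x y : LL C K) :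
    br (br (e K a) x) (br (e K a) y) =
      fm (e K a) x • br (e K a) y - fm (e K a) y • br (e K a) x -
        fm (e K a) (br x y) • e K a := by
  refine IP2_ext (fun k => ?_) (fun b => ?_) x
  · exact IP2_swap H (IP2_ext (fun h => IP2_hh_hh H a h k)
      (fun b => IP2_swap H (IP2_hh_e H a k b)) y)
  · exact IP2_swap H (IP2_ext (fun h => IP2_hh_e H a h b) (fun c => IP2_e_e H a c b) y)

theorem isExt_e (H : Hyp C K) (a : Rt C) : IsExt (e K a) := ⟨Inv_e1 H a, Inv_e2 H a⟩

theorem IsExt.smul {v : LL C K} (hv : IsExt v) (s : K) : IsExt (s • v) := by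
  refine ⟨fun x => ?_, fun x y => ?_⟩
  · rw [map_smul, LinearMap.smul_apply, LinearMap.smul_apply, map_smul, hv.1, map_smul,
      LinearMap.smul_apply, smul_smul, smul_smul, smul_smul, smul_eq_mul]
    congr 1
    ring
  · simp only [map_smul, LinearMap.smul_apply, hv.2, smul_sub, smul_smul, smul_eq_mul]
    congr 1
    · congr 1
      · congr 1
        ring
      · congr 1
        ring
    · congr 1
      ring

theorem IsExt.map {v : LL C K} (hv : IsExt v) {g : LL C K ≃ₗ[K] LL C K} (hg : g ∈ GG C K) :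
    IsExt (g v) := by
  refine ⟨fun x => ?_, fun x y => ?_⟩
  · obtain ⟨y, rfl⟩ := g.surjective x
    rw [← hg.1, ← hg.1, hv.1, map_smul, hg.2]
  · obtain ⟨x, rfl⟩ := g.surjective x
    obtain ⟨y, rfl⟩ := g.surjective y
    rw [← hg.1, ← hg.1, ← hg.1, hv.2, map_sub, map_sub, map_smul, map_smul, map_smul,
      ← hg.1 x y, hg.2, hg.2, hg.2]

/-- the form is alternating in characteristic two -/
theorem fm_self (H : Hyp C K) (v : LL C K) : fm v v = 0 := by
  classical
  have h1 : fk C v.1 v.1 = 0 := by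
    unfold fk
    rw [← Finset.sum_product' Finset.univ Finset.univ
      (fun i j => v.1 i * (C i j : K) * v.1 j)]
    refine Finset.sum_involution (fun p _ => (p.2, p.1)) ?_ ?_ ?_ ?_
    · rintro ⟨i, j⟩ _
      show v.1 i * (C i j : K) * v.1 j + v.1 j * (C j i : K) * v.1 i = 0
      rw [H.symm j i]
      have h1 := H.two
      linear_combination v.1 i * (C i j : K) * v.1 j * h1
    · rintro ⟨i, j⟩ _ h1 h2
      have h3 : j = i := congrArg Prod.fst h2
      apply h1
      show v.1 i * (C i j : K) * v.1 j = 0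
      rw [h3, H.diag]
      have h4 : ((2 : ℤ) : K) = 0 := by exact_mod_cast H.two
      rw [h4]
      ring
    · rintro ⟨i, j⟩ _
      exact Finset.mem_product.2 ⟨Finset.mem_univ _, Finset.mem_univ _⟩
    · rintro ⟨i, j⟩ _
      rfl
  have h2 : ∑ a : Rt C, v.2 a * v.2 (ng a) = 0 := by
    refine Finset.sum_involution (fun a _ => ng a) ?_ ?_ ?_ ?_
    · intro a _
      rw [ng_ng, mul_comm (v.2 (ng a))]
      exact kadd_self H _
    · intro a _ _
      exact ng_ne H a
    · intro a _
      exact Finset.mem_univ _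
    · intro a _
      exact ng_ng a
  show fk C v.1 v.1 - ∑ a : Rt C, v.2 a * v.2 (ng a) = 0
  rw [h1, h2, sub_zero]

theorem IsExt.fm_self (H : Hyp C K) {v : LL C K} (_hv : IsExt v) : fm v v = 0 :=
  Pool.Agent.H33.EQ.fm_self H v

theorem ext_root_coord (H : Hyp C K) {v : LL C K} (hv : IsExt v) (h0 : v ≠ 0) :
    ∃ a : Rt C, v.2 (ng a) ≠ 0 := by
  by_contra hcon
  push Not at hcon
  have h2 : v.2 = 0 := by
    funext b
    have := hcon (ng b)
    rwa [ng_ng] at this
  have h3 : v = hh C v.1 := Prod.ext rfl h2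
  apply h0
  have h4 : v.1 = 0 := by
    apply fk_nondeg H
    intro a
    by_contra hc
    have h5 := hv.2 (e K a) (e K (ng a))
    rw [h3, br_hh_e, br_hh_e, fm_hh_left, fm_hh_left, e_fst, e_fst, fk_zero_right, zero_smul,
      zero_smul, sub_zero, zero_sub, br_e_ng H, fm_hh_left, map_smul, map_smul br,
      LinearMap.smul_apply, br_e_ng H, ng_val, zk_neg, fk_neg_right] at h5
    have h6 := congrArg (fun u : LL C K => fk C u.1 (zk a.1)) h5
    have h7 : fk C (zk a.1 : Fin n → K) (zk a.1) = 0 := by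
      rw [fk_zk_zk, a.2]
      exact_mod_cast H.two
    simp only [Prod.fst_neg, Prod.smul_fst, hh_fst, fk_neg_left, fk_smul_left, h7, mul_zero,
      neg_zero, fk_neg_right, neg_mul, neg_neg] at h6
    exact hc (mul_self_eq_zero.mp h6.symm)
  exact Prod.ext h4 h2

/-- the centre of the Lie algebra is zero -/
theorem center_zero (H : Hyp C K) (v : LL C K) (h : ∀ x : LL C K, br v x = 0) : v = 0 := by
  have h2 : v.2 = 0 := by
    funext r
    show v.2 r = 0
    by_contra hr
    have h3 : ∀ k : Fin n → K, fk C k (zk r.1) = 0 := by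
      intro k
      have h4 : br (hh C k) v = 0 := by
        rw [br_skew H, h, neg_zero]
      have h5 := br_hh_snd k v r
      rw [h4] at h5
      have h6 : fk C k (zk r.1) * v.2 r = 0 := h5.symm
      rcases mul_eq_zero.mp h6 with h7 | h7
      · exact h7
      · exact absurd h7 hr
    obtain ⟨y, hy⟩ := exists_one H r
    have h8 := h3 (zk y.1)
    rw [fk_zk_zk, hy] at h8
    exact one_ne_zero (by exact_mod_cast h8 : (1 : K) = 0)
  have h3 : v = hh C v.1 := Prod.ext rfl h2
  have h4 : v.1 = 0 := by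
    apply fk_nondeg H
    intro a
    have h5 := h (e K a)
    rw [h3, br_hh_e] at h5
    rcases smul_eq_zero.mp h5 with h6 | h6
    · exact h6
    · exact absurd h6 (e_ne_zero a)
  exact Prod.ext h4 h2

end Pool.Agent.H33.EQ
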