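import Pool.Agent.H33.EQ.Defs

/-!
# EL-01: the root lattice form, roots, signs

Everything is elementary: `ip`, `cc` are bilinear; `eps` is bimultiplicative;
`cc x y + cc y x = ip x y` (symmetric `C`, diagonal entries 2) so
`eps x y * eps y x = (-1)^(ip x y)` and `eps a a = (-1)^(ip a a / 2) = -1` for a root.
Roots: `0 ≤ ip (x - y) (x - y) = 4 - 2 ip x y` with equality iff `x = y`, etc.
-/

namespace Pool.Agent.H33.EQ

variable {n : ℕ} {C : Matrix (Fin n) (Fin n) ℤ}

theorem ip_add_left (x y z : Fin n → ℤ) : ip C (x + y) z = ip C x z + ip C y z := by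
  simp only [ip, Pi.add_apply, add_mul, Finset.sum_add_distrib]
theorem ip_add_right (x y z : Fin n → ℤ) : ip C x (y + z) = ip C x y + ip C x z := by
  simp only [ip, Pi.add_apply, mul_add, Finset.sum_add_distrib]
theorem ip_neg_left (x y : Fin n → ℤ) : ip C (-x) y = -ip C x y := by
  simp only [ip, Pi.neg_apply, neg_mul, Finset.sum_neg_distrib]
theorem ip_neg_right (x y : Fin n → ℤ) : ip C x (-y) = -ip C x y := by
  simp only [ip, Pi.neg_apply, mul_neg, Finset.sum_neg_distrib]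
theorem ip_sub_left (x y z : Fin n → ℤ) : ip C (x - y) z = ip C x z - ip C y z := by
  rw [sub_eq_add_neg, ip_add_left, ip_neg_left, sub_eq_add_neg]
theorem ip_sub_right (x y z : Fin n → ℤ) : ip C x (y - z) = ip C x y - ip C x z := by
  rw [sub_eq_add_neg, ip_add_right, ip_neg_right, sub_eq_add_neg]
theorem ip_zero_left (x : Fin n → ℤ) : ip C 0 x = 0 := by
  simp only [ip, Pi.zero_apply, zero_mul, Finset.sum_const_zero]
theorem ip_zero_right (x : Fin n → ℤ) : ip C x 0 = 0 := by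
  simp only [ip, Pi.zero_apply, mul_zero, Finset.sum_const_zero]
theorem ip_smul_left (k : ℤ) (x y : Fin n → ℤ) : ip C (k • x) y = k * ip C x y := by
  simp only [ip, Pi.smul_apply, smul_eq_mul, Finset.mul_sum, mul_assoc]
theorem ip_smul_right (k : ℤ) (x y : Fin n → ℤ) : ip C x (k • y) = k * ip C x y := by
  simp only [ip, Pi.smul_apply, smul_eq_mul, Finset.mul_sum, mul_left_comm]
theorem ip_sum_left {ι : Type*} (s : Finset ι) (f : ι → Fin n → ℤ) (y : Fin n → ℤ) :
    ip C (∑ i ∈ s, f i) y = ∑ i ∈ s, ip C (f i) y := by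
  classical
  induction s using Finset.induction_on with
  | empty => rw [Finset.sum_empty, Finset.sum_empty, ip_zero_left]
  | insert a s ha ih => rw [Finset.sum_insert ha, Finset.sum_insert ha, ip_add_left, ih]
theorem ip_single_left (i : Fin n) (y : Fin n → ℤ) :
    ip C (Pi.single i 1) y = ∑ j, C i j * y j := by
  unfold ip
  rw [Finset.sum_eq_single i]
  · simp only [Pi.single_eq_same, one_mul]
  · intro k _ hk
    simp only [Pi.single_eq_of_ne hk, zero_mul, Finset.sum_const_zero]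
  · intro h
    exact absurd (Finset.mem_univ i) h

theorem ip_comm (hs : ∀ i j, C i j = C j i) (x y : Fin n → ℤ) : ip C x y = ip C y x := by
  unfold ip
  rw [Finset.sum_comm]
  refine Finset.sum_congr rfl fun i _ => Finset.sum_congr rfl fun j _ => ?_
  rw [hs j i]
  ring

theorem ng_val (a : Rt C) : (ng a).1 = -a.1 := rfl
theorem ng_ng (a : Rt C) : ng (ng a) = a := by
  apply Subtype.ext
  rw [ng_val, ng_val, neg_neg]

theorem Ip_cc_add_left (x y z : Fin n → ℤ) : cc C (x + y) z = cc C x z + cc C y z := by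
  simp only [cc, Pi.add_apply, add_mul, Finset.sum_add_distrib]

theorem Ip_cc_add_right (x y z : Fin n → ℤ) : cc C x (y + z) = cc C x y + cc C x z := by
  simp only [cc, Pi.add_apply, mul_add, Finset.sum_add_distrib]

theorem Ip_cc_neg_left (x y : Fin n → ℤ) : cc C (-x) y = -cc C x y := by
  simp only [cc, Pi.neg_apply, neg_mul, Finset.sum_neg_distrib]

theorem Ip_cc_neg_right (x y : Fin n → ℤ) : cc C x (-y) = -cc C x y := by
  simp only [cc, Pi.neg_apply, mul_neg, Finset.sum_neg_distrib]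

theorem Ip_cc_comm (hs : ∀ i j, C i j = C j i) (hd : ∀ i, C i i = 2) (x y : Fin n → ℤ) :
    cc C x y + cc C y x = ip C x y := by
  unfold cc ip
  rw [Finset.sum_comm (f := fun i j =>
    y i * (if j < i then C i j else if i = j then C i i / 2 else 0) * x j)]
  rw [← Finset.sum_add_distrib]
  refine Finset.sum_congr rfl fun i _ => ?_
  rw [← Finset.sum_add_distrib]
  refine Finset.sum_congr rfl fun j _ => ?_
  rcases lt_trichotomy j i with h | h | h
  · rw [if_pos h, if_neg (not_lt.2 h.le), if_neg h.ne]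
    ring
  · subst h
    rw [if_neg (lt_irrefl j), if_pos rfl, hd j]
    norm_num
    ring
  · rw [if_neg (not_lt.2 h.le), if_neg h.ne, if_pos h, hs j i]
    ring

theorem eps_add_left (x y z : Fin n → ℤ) : eps C (x + y) z = eps C x z * eps C y z := by
  unfold eps
  rw [Ip_cc_add_left, zpow_add]
theorem eps_add_right (x y z : Fin n → ℤ) : eps C x (y + z) = eps C x y * eps C x z := by
  unfold eps
  rw [Ip_cc_add_right, zpow_add]
theorem eps_neg_left (x y : Fin n → ℤ) : eps C (-x) y = eps C x y := by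
  unfold eps
  rw [Ip_cc_neg_left, zpow_neg, Int.units_inv_eq_self]
theorem eps_neg_right (x y : Fin n → ℤ) : eps C x (-y) = eps C x y := by
  unfold eps
  rw [Ip_cc_neg_right, zpow_neg, Int.units_inv_eq_self]
theorem eps_mul_self (x y : Fin n → ℤ) : eps C x y * eps C x y = 1 := Int.units_mul_self _
theorem eps_comm (hs : ∀ i j, C i j = C j i) (hd : ∀ i, C i i = 2) (x y : Fin n → ℤ) :
    eps C x y * eps C y x = (-1) ^ (ip C x y) := by
  unfold eps
  rw [← zpow_add, Ip_cc_comm hs hd]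
theorem eps_self (hs : ∀ i j, C i j = C j i) (hd : ∀ i, C i i = 2) (a : Rt C) :
    eps C a.1 a.1 = -1 := by
  have h1 := Ip_cc_comm hs hd a.1 a.1
  have h2 : ip C a.1 a.1 = 2 := a.2
  have h3 : cc C a.1 a.1 = 1 := by omega
  unfold eps
  rw [h3, zpow_one]

section
variable {K : Type} [Field K] [Fintype (Rt C)]

theorem even_norm (H : Hyp C K) (x : Fin n → ℤ) : Even (ip C x x) :=
  ⟨cc C x x, (Ip_cc_comm H.symm H.diag x x).symm⟩

theorem Ip_norm_add (H : Hyp C K) (a b : Rt C) :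
    ip C (a.1 + b.1) (a.1 + b.1) = 4 + 2 * ip C a.1 b.1 := by
  have h1 : ip C a.1 a.1 = 2 := a.2
  have h2 : ip C b.1 b.1 = 2 := b.2
  rw [ip_add_left, ip_add_right, ip_add_right, ip_comm H.symm b.1 a.1, h1, h2]
  ring

theorem Ip_norm_sub (H : Hyp C K) (a b : Rt C) :
    ip C (a.1 - b.1) (a.1 - b.1) = 4 - 2 * ip C a.1 b.1 := by
  have h1 : ip C a.1 a.1 = 2 := a.2
  have h2 : ip C b.1 b.1 = 2 := b.2
  rw [ip_sub_left, ip_sub_right, ip_sub_right, ip_comm H.symm b.1 a.1, h1, h2]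
  ring

theorem Ip_nonneg (H : Hyp C K) (x : Fin n → ℤ) : 0 ≤ ip C x x := by
  by_cases hx : x = 0
  · rw [hx, ip_zero_left]
  · exact (H.pos x hx).le

theorem Ip_eq_zero (H : Hyp C K) {x : Fin n → ℤ} (h : ip C x x = 0) : x = 0 := by
  by_contra hx
  exact absurd h (H.pos x hx).ne'

theorem ip_le_two (H : Hyp C K) (a b : Rt C) : ip C a.1 b.1 ≤ 2 := by
  have h1 := Ip_nonneg H (a.1 - b.1)
  rw [Ip_norm_sub H] at h1
  omega
theorem neg_two_le_ip (H : Hyp C K) (a b : Rt C) : -2 ≤ ip C a.1 b.1 := by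
  have h1 := Ip_nonneg H (a.1 + b.1)
  rw [Ip_norm_add H] at h1
  omega
theorem eq_of_ip_two (H : Hyp C K) {a b : Rt C} (h : ip C a.1 b.1 = 2) : a = b := by
  have h1 := Ip_norm_sub H a b
  rw [h] at h1
  exact Subtype.ext (sub_eq_zero.1 (Ip_eq_zero H (h1.trans (by norm_num))))
theorem eq_ng_of_ip (H : Hyp C K) {a b : Rt C} (h : ip C a.1 b.1 = -2) : b = ng a := by
  have h1 := Ip_norm_add H a b
  rw [h] at h1
  apply Subtype.ext
  rw [ng_val]
  exact (neg_eq_of_add_eq_zero_right (Ip_eq_zero H (h1.trans (by norm_num)))).symm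
theorem root_add (H : Hyp C K) {a b : Rt C} (h : ip C a.1 b.1 = -1) :
    ip C (a.1 + b.1) (a.1 + b.1) = 2 := by
  rw [Ip_norm_add H, h]
  norm_num
theorem root_sub (H : Hyp C K) {a b : Rt C} (h : ip C a.1 b.1 = 1) :
    ip C (a.1 - b.1) (a.1 - b.1) = 2 := by
  rw [Ip_norm_sub H, h]
  norm_num
theorem ip_of_root_add (H : Hyp C K) {a b : Rt C}
    (h : ip C (a.1 + b.1) (a.1 + b.1) = 2) : ip C a.1 b.1 = -1 := by
  rw [Ip_norm_add H] at h
  omega
theorem ip_of_root_sub (H : Hyp C K) {a b : Rt C}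
    (h : ip C (a.1 - b.1) (a.1 - b.1) = 2) : ip C a.1 b.1 = 1 := by
  rw [Ip_norm_sub H] at h
  omega
theorem ng_ne (H : Hyp C K) (a : Rt C) : ng a ≠ a := by
  intro h
  have h1 : ip C a.1 (ng a).1 = 2 := by
    rw [h]
    exact a.2
  rw [ng_val, ip_neg_right] at h1
  have h2 : ip C a.1 a.1 = 2 := a.2
  omega
/-- the five cases -/
theorem ip_cases (H : Hyp C K) (a b : Rt C) :
    b = ng a ∨ ip C a.1 b.1 = -1 ∨ ip C a.1 b.1 = 0 ∨ ip C a.1 b.1 = 1 ∨ b = a := by
  have h1 := ip_le_two H a b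
  have h2 := neg_two_le_ip H a b
  have h3 : ip C a.1 b.1 = -2 ∨ ip C a.1 b.1 = -1 ∨ ip C a.1 b.1 = 0 ∨ ip C a.1 b.1 = 1 ∨
      ip C a.1 b.1 = 2 := by omega
  rcases h3 with h | h | h | h | h
  · exact Or.inl (eq_ng_of_ip H h)
  · exact Or.inr (Or.inl h)
  · exact Or.inr (Or.inr (Or.inl h))
  · exact Or.inr (Or.inr (Or.inr (Or.inl h)))
  · exact Or.inr (Or.inr (Or.inr (Or.inr (eq_of_ip_two H h).symm)))
/-- the simple roots are roots -/
theorem ip_simple (H : Hyp C K) (i : Fin n) :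
    ip C (Pi.single i 1) (Pi.single i 1) = 2 := by
  rw [ip_single_left, Finset.sum_eq_single i]
  · rw [Pi.single_eq_same, mul_one, H.diag]
  · intro k _ hk
    rw [Pi.single_eq_of_ne hk, mul_zero]
  · intro h
    exact absurd (Finset.mem_univ i) h
/-- a root with product one exists -/
theorem exists_one (H : Hyp C K) (a : Rt C) : ∃ y : Rt C, ip C y.1 a.1 = 1 := by
  by_contra hcon
  push Not at hcon
  have h1 : ∀ i, Even (∑ j, C i j * a.1 j) := by
    intro i
    obtain ⟨s, hs⟩ : ∃ s : Rt C, s.1 = Pi.single i 1 := ⟨⟨Pi.single i 1, ip_simple H i⟩, rfl⟩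
    rw [← ip_single_left, ← hs]
    have h2 := ip_le_two H s a
    have h3 := neg_two_le_ip H s a
    have h4 := hcon s
    have h5 := hcon (ng s)
    rw [ng_val, ip_neg_left] at h5
    rw [Int.even_iff]
    omega
  have h4 : ip C a.1 a.1 = 2 := a.2
  have h2 := H.r0 a.1 h1
  choose r hr using h2
  have h3 : a.1 = r + r := funext hr
  rw [h3, ip_add_left, ip_add_right] at h4
  have h5 := even_norm H r
  rw [Int.even_iff] at h5
  omega
end

end Pool.Agent.H33.EQ
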