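import Pool.Agent.H33.EQ.LemCd

/-!
# EL-14: see part (2) of the header of `LemCd`
-/

namespace Pool.Agent.H33.EQ

variable {n : ℕ} {C : Matrix (Fin n) (Fin n) ℤ} {K : Type} [Field K] [Fintype (Rt C)]

/-- the vector of a weight -/
def LemCb_vec (x : Option (Rt C)) : Fin n → ℤ :=
  match x with
  | none => 0
  | some a => a.1

theorem LemCb_wt (y : Fin n → ℤ) (c : Kˣ) (x : Option (Rt C)) :
    wt' (hd C y c : LL C K ≃ₗ[K] LL C K) x = ((c ^ (ip C y (LemCb_vec x)) : Kˣ) : K) := by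
  cases x with
  | none =>
    show (1 : K) = _
    rw [show LemCb_vec (none : Option (Rt C)) = 0 from rfl, ip_zero_right, zpow_zero,
      Units.val_one]
  | some a => exact wt_hd y c a

/-- relations between weights on `T1`, in terms of the form -/
theorem LemCb_rel (H : Hyp C K) {i : ℕ} {x y u v : Option (Rt C)}
    (h : ∀ t ∈ T1 C K, wt' t x * wt' t y ^ i = wt' t u * wt' t v ^ i) (z : Fin n → ℤ) :
    (7 : ℤ) ∣ ip C z (LemCb_vec x) + i * ip C z (LemCb_vec y) - ip C z (LemCb_vec u) -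
      i * ip C z (LemCb_vec v) := by
  classical
  have hfin : Finite K := by
    apply Nat.finite_of_card_ne_zero
    rw [H.card]; norm_num
  have := Fintype.ofFinite K
  obtain ⟨c, hc⟩ := IsCyclic.exists_generator (α := Kˣ)
  have hord : orderOf c = 7 := by
    have h8 := H.card
    rw [orderOf_eq_card_of_forall_mem_zpowers hc, Nat.card_eq_fintype_card, Fintype.card_units,
      ← Nat.card_eq_fintype_card, h8]
  have h1 := h (hd C z c) (hd_mem_T1 H z c)
  rw [LemCb_wt, LemCb_wt, LemCb_wt, LemCb_wt, ← Units.val_pow_eq_pow_val,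
    ← Units.val_pow_eq_pow_val, ← Units.val_mul, ← Units.val_mul] at h1
  have h2 := Units.ext h1
  rw [← zpow_natCast, ← zpow_natCast, ← zpow_mul, ← zpow_mul, ← zpow_add, ← zpow_add] at h2
  have h3 : c ^ (ip C z (LemCb_vec x) + i * ip C z (LemCb_vec y) - ip C z (LemCb_vec u) -
      i * ip C z (LemCb_vec v)) = 1 := by
    rw [show ip C z (LemCb_vec x) + i * ip C z (LemCb_vec y) - ip C z (LemCb_vec u) -
      i * ip C z (LemCb_vec v) = (ip C z (LemCb_vec x) + ip C z (LemCb_vec y) * i) -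
      (ip C z (LemCb_vec u) + ip C z (LemCb_vec v) * i) by ring, zpow_sub, h2, mul_inv_cancel]
  have h4 := orderOf_dvd_iff_zpow_eq_one.mpr h3
  rw [hord] at h4
  exact_mod_cast h4

theorem LemCb_ip_le_one (H : Hyp C K) {a b : Rt C} (h : a ≠ b) : ip C a.1 b.1 ≤ 1 := by
  have h1 := ip_le_two H a b
  have h2 : ip C a.1 b.1 ≠ 2 := fun h2 => h (eq_of_ip_two H h2)
  omega

/-- two different weights differ on `T1`, even up to sign -/
theorem no_sign (H : Hyp C K) {x y : Option (Rt C)} (hxy : x ≠ y) :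
    ∃ t ∈ T1 C K, wt' t x ^ 2 ≠ wt' t y ^ 2 := by
  by_contra hcon
  push Not at hcon
  have key : ∀ z : Fin n → ℤ, (7 : ℤ) ∣ 2 * (ip C z (LemCb_vec x) - ip C z (LemCb_vec y)) := by
    intro z
    have h1 := LemCb_rel H (i := 1) (x := x) (y := x) (u := y) (v := y)
      (fun t ht => by have := hcon t ht; rw [pow_one, pow_one, ← sq, ← sq]; exact this) z
    have h2 : ip C z (LemCb_vec x) + ((1 : ℕ) : ℤ) * ip C z (LemCb_vec x) - ip C z (LemCb_vec y) -
      ((1 : ℕ) : ℤ) * ip C z (LemCb_vec y) =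
      2 * (ip C z (LemCb_vec x) - ip C z (LemCb_vec y)) := by push_cast; ring
    rw [h2] at h1
    exact h1
  cases x with
  | none =>
    cases y with
    | none => exact hxy rfl
    | some b =>
      have h1 := key b.1
      rw [show LemCb_vec (none : Option (Rt C)) = 0 from rfl,
        show LemCb_vec (some b) = b.1 from rfl, ip_zero_right, show ip C b.1 b.1 = 2 from b.2]
        at h1
      omega
  | some a =>
    cases y with
    | none =>
      have h1 := key a.1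
      rw [show LemCb_vec (none : Option (Rt C)) = 0 from rfl,
        show LemCb_vec (some a) = a.1 from rfl, ip_zero_right, show ip C a.1 a.1 = 2 from a.2]
        at h1
      omega
    | some b =>
      have hab : a ≠ b := fun h => hxy (by rw [h])
      have h1 := key a.1
      rw [show LemCb_vec (some b) = b.1 from rfl,
        show LemCb_vec (some a) = a.1 from rfl, show ip C a.1 a.1 = 2 from a.2] at h1
      have h3 := neg_two_le_ip H a b
      have h4 := LemCb_ip_le_one H hab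
      omega

/-- a coset of a subgroup of order 7 of the character group does not consist of weights -/
theorem no_coset (H : Hyp C K) {r : ℕ} (hr : r.Prime) (hm : r ∣ Nat.card K - 1)
    (γ : Fin r → Option (Rt C)) (hγ : Function.Injective γ)
    (h : ∃ a b : T1 C K → K, ∀ i, ∀ t : T1 C K,
        wt' (t : LL C K ≃ₗ[K] LL C K) (γ i) = a t * b t ^ (i : ℕ)) : False := by
  have hr7 : r = 7 := by
    rw [H.card, show 8 - 1 = 7 from rfl] at hm
    rcases (Nat.dvd_prime (by norm_num)).1 hm with h1 | h1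
    · exact absurd h1 hr.one_lt.ne'
    · exact h1
  subst hr7
  obtain ⟨a, b, hab⟩ := h
  have key : ∀ (i : Fin 7) (z : Fin n → ℤ), (7 : ℤ) ∣ ip C z (LemCb_vec (γ i)) +
      (i : ℕ) * ip C z (LemCb_vec (γ 0)) - ip C z (LemCb_vec (γ 0)) -
      (i : ℕ) * ip C z (LemCb_vec (γ 1)) := by
    intro i z
    apply LemCb_rel H
    intro t ht
    rw [hab i ⟨t, ht⟩, hab 0 ⟨t, ht⟩, hab 1 ⟨t, ht⟩]
    rw [show ((0 : Fin 7) : ℕ) = 0 from rfl, show ((1 : Fin 7) : ℕ) = 1 from rfl, pow_zero,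
      pow_one, mul_one, mul_pow]
    ring
  -- the norms
  have hnorm : ∀ i : Fin 7, ∃ k : ℤ, ip C (LemCb_vec (γ i)) (LemCb_vec (γ i)) =
      ip C (LemCb_vec (γ 0)) (LemCb_vec (γ 0)) + 2 * (i : ℕ) *
        (ip C (LemCb_vec (γ 0)) (LemCb_vec (γ 1)) - ip C (LemCb_vec (γ 0)) (LemCb_vec (γ 0))) +
      (i : ℕ) ^ 2 * (ip C (LemCb_vec (γ 1)) (LemCb_vec (γ 1)) -
        2 * ip C (LemCb_vec (γ 0)) (LemCb_vec (γ 1)) +
        ip C (LemCb_vec (γ 0)) (LemCb_vec (γ 0))) + 7 * k := by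
    intro i
    obtain ⟨k1, h1⟩ := key i (LemCb_vec (γ i))
    obtain ⟨k2, h2⟩ := key i (LemCb_vec (γ 0))
    obtain ⟨k3, h3⟩ := key i (LemCb_vec (γ 1))
    have s1 := ip_comm H.symm (LemCb_vec (γ i)) (LemCb_vec (γ 0))
    have s2 := ip_comm H.symm (LemCb_vec (γ i)) (LemCb_vec (γ 1))
    have s3 := ip_comm H.symm (LemCb_vec (γ 0)) (LemCb_vec (γ 1))
    rw [s1, s2] at h1
    rw [← s3] at h3
    refine ⟨k1 + (1 - (i : ℕ)) * k2 + (i : ℕ) * k3, ?_⟩
    linear_combination h1 + (1 - ((i : ℕ) : ℤ)) * h2 + ((i : ℕ) : ℤ) * h3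
  have hv : ∀ x : Option (Rt C), (x = none ∧ ip C (LemCb_vec x) (LemCb_vec x) = 0) ∨
      (x ≠ none ∧ ip C (LemCb_vec x) (LemCb_vec x) = 2) := by
    intro x
    cases x with
    | none => exact Or.inl ⟨rfl, ip_zero_left _⟩
    | some a => exact Or.inr ⟨by simp, a.2⟩
  have h0 := hnorm 0
  have h1 := hnorm 1
  have h2 := hnorm 2
  have h3 := hnorm 3
  have h4 := hnorm 4
  have h5 := hnorm 5
  have h6 := hnorm 6
  rw [show ((0 : Fin 7) : ℕ) = 0 from rfl] at h0
  rw [show ((1 : Fin 7) : ℕ) = 1 from rfl] at h1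
  rw [show ((2 : Fin 7) : ℕ) = 2 from rfl] at h2
  rw [show ((3 : Fin 7) : ℕ) = 3 from rfl] at h3
  rw [show ((4 : Fin 7) : ℕ) = 4 from rfl] at h4
  rw [show ((5 : Fin 7) : ℕ) = 5 from rfl] at h5
  rw [show ((6 : Fin 7) : ℕ) = 6 from rfl] at h6
  push_cast at h0 h1 h2 h3 h4 h5 h6
  obtain ⟨k1, h1⟩ := h1
  obtain ⟨k2, h2⟩ := h2
  obtain ⟨k3, h3⟩ := h3
  obtain ⟨k4, h4⟩ := h4
  obtain ⟨k5, h5⟩ := h5
  obtain ⟨k6, h6⟩ := h6
  have hone : ∀ i j : Fin 7, i ≠ j → ¬ (γ i = none ∧ γ j = none) := by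
    rintro i j hij ⟨h, h'⟩
    exact hij (hγ (h.trans h'.symm))
  have h01 : -2 ≤ ip C (LemCb_vec (γ 0)) (LemCb_vec (γ 1)) ∧
      ip C (LemCb_vec (γ 0)) (LemCb_vec (γ 1)) ≤ 1 := by
    have hne : γ 0 ≠ γ 1 := fun h => absurd (hγ h) (by decide)
    cases h0 : γ 0 with
    | none =>
      rw [show LemCb_vec (none : Option (Rt C)) = 0 from rfl, ip_zero_left]
      omega
    | some a =>
      cases h1 : γ 1 with
      | none =>
        rw [show LemCb_vec (none : Option (Rt C)) = 0 from rfl, ip_zero_right]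
        omega
      | some b =>
        have hab : a ≠ b := fun h => hne (by rw [h0, h1, h])
        exact ⟨neg_two_le_ip H a b, LemCb_ip_le_one H hab⟩
  have e0 := hv (γ 0)
  have e1 := hv (γ 1)
  have e2 := hv (γ 2)
  have e3 := hv (γ 3)
  have e4 := hv (γ 4)
  have e5 := hv (γ 5)
  have e6 := hv (γ 6)
  have n12 := hone 1 2 (by decide)
  have n01 := hone 0 1 (by decide)
  have n02 := hone 0 2 (by decide)
  have n03 := hone 0 3 (by decide)
  have n04 := hone 0 4 (by decide)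
  have n05 := hone 0 5 (by decide)
  have n06 := hone 0 6 (by decide)
  have n13 := hone 1 3 (by decide)
  have n14 := hone 1 4 (by decide)
  have n15 := hone 1 5 (by decide)
  have n16 := hone 1 6 (by decide)
  have n23 := hone 2 3 (by decide)
  have n24 := hone 2 4 (by decide)
  have n25 := hone 2 5 (by decide)
  have n26 := hone 2 6 (by decide)
  have n34 := hone 3 4 (by decide)
  have n35 := hone 3 5 (by decide)
  have n36 := hone 3 6 (by decide)
  have n45 := hone 4 5 (by decide)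
  have n46 := hone 4 6 (by decide)
  have n56 := hone 5 6 (by decide)
  rcases e0 with ⟨a0, e0⟩ | ⟨a0, e0⟩
  · rcases e1 with ⟨a1, e1⟩ | ⟨a1, e1⟩
    · exact n01 ⟨a0, a1⟩
    rcases e2 with ⟨a2, e2⟩ | ⟨a2, e2⟩
    · exact n02 ⟨a0, a2⟩
    rcases e3 with ⟨a3, e3⟩ | ⟨a3, e3⟩
    · exact n03 ⟨a0, a3⟩
    omega
  · rcases e1 with ⟨a1, e1⟩ | ⟨a1, e1⟩
    · rcases e2 with ⟨a2, e2⟩ | ⟨a2, e2⟩
      · exact n12 ⟨a1, a2⟩
      rcases e3 with ⟨a3, e3⟩ | ⟨a3, e3⟩
      · exact n13 ⟨a1, a3⟩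
      omega
    rcases e2 with ⟨a2, e2⟩ | ⟨a2, e2⟩
    · rcases e3 with ⟨a3, e3⟩ | ⟨a3, e3⟩
      · exact n23 ⟨a2, a3⟩
      rcases e4 with ⟨a4, e4⟩ | ⟨a4, e4⟩
      · exact n24 ⟨a2, a4⟩
      omega
    omega

end Pool.Agent.H33.EQ
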