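import Pool.Agent.H33.EQ.LemCd

/-!
# EL-13: see part (1) of the header of `LemCd`
-/

namespace Pool.Agent.H33.EQ

variable {n : ℕ} {C : Matrix (Fin n) (Fin n) ℤ} {K : Type} [Field K] [Fintype (Rt C)]

private theorem lca_TT_apply (H : Hyp C K) {t : LL C K ≃ₗ[K] LL C K} (ht : t ∈ TT C K)
    (y : LL C K) : (t y).1 = y.1 ∧ ∀ b, (t y).2 b = wt t b * y.2 b := by
  classical
  have h2 : t y = hh C y.1 + ∑ a : Rt C, (y.2 a * wt t a) • e K a := by
    conv_lhs => rw [decomp y]
    rw [map_add, map_sum, TT_fix H ht (hh_mem_L0 _)]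
    congr 1
    refine Finset.sum_congr rfl fun a _ => ?_
    rw [map_smul, TT_e H ht, smul_smul]
  rw [h2]
  constructor
  · simp [hh, e, Prod.fst_sum]
  · intro b
    simp [hh, e, Prod.snd_sum, Finset.sum_apply, Pi.single_apply, mul_comm]

private theorem lca_weight (H : Hyp C K) {y : LL C K} (hy : y ≠ 0) (ψ : T1 C K → K)
    (h : ∀ t : T1 C K, (t : LL C K ≃ₗ[K] LL C K) y = ψ t • y) :
    ∃ γ : Option (Rt C), ∀ t : T1 C K, wt' (t : LL C K ≃ₗ[K] LL C K) γ = ψ t := by
  by_cases h1 : y.1 = 0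
  · have h2 : ∃ b, y.2 b ≠ 0 := by
      by_contra hc
      push Not at hc
      exact hy (Prod.ext h1 (funext hc))
    obtain ⟨b, hb⟩ := h2
    refine ⟨some b, fun t => ?_⟩
    have h3 := (lca_TT_apply H (T1_le_TT H t.2) y).2 b
    rw [h t] at h3
    exact (mul_right_cancel₀ hb h3).symm
  · refine ⟨none, fun t => ?_⟩
    have h3 := (lca_TT_apply H (T1_le_TT H t.2) y).1
    rw [h t] at h3
    have h4 : ψ t • y.1 = (1 : K) • y.1 := by
      rw [one_smul]
      exact h3
    exact (smul_left_injective K h1 h4).symm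

private theorem lca_line {a b : Rt C} {c d : K} (h : c • e K a = d • e K b) (hc : c ≠ 0) :
    a = b := by
  by_contra hab
  have h1 := congrFun (congrArg Prod.snd h) a
  simp only [Prod.smul_snd, Pi.smul_apply, e_snd_self, e_snd_ne hab, smul_eq_mul, mul_one,
    mul_zero] at h1
  exact hc h1

private theorem lca_enough (H : Hyp C K) : HasEnoughRootsOfUnity K (Nat.card K - 1) := by
  have hfin : Finite K := by
    apply Nat.finite_of_card_ne_zero
    have hc8 := H.card; omega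
  have : Fintype K := Fintype.ofFinite K
  have : NeZero (Nat.card K - 1) := ⟨by have hc8 := H.card; omega⟩
  apply HasEnoughRootsOfUnity.of_card_le
  have h1 : rootsOfUnity (Nat.card K - 1) K = ⊤ := by
    rw [eq_top_iff]
    intro u _
    rw [mem_rootsOfUnity]
    ext
    rw [Units.val_pow_eq_pow_val, Nat.card_eq_fintype_card, Units.val_one]
    exact FiniteField.pow_card_sub_one_eq_one _ u.ne_zero
  rw [h1, Subgroup.card_top, Nat.card_units]

/-- a character of prime order, trivial on a proper subgroup -/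
private theorem lca_char (H : Hyp C K) (S : Subgroup (T1 C K)) {t0 : T1 C K} (h0 : t0 ∉ S) :
    ∃ (r : ℕ) (η : T1 C K →* Kˣ), r.Prime ∧ r ∣ Nat.card K - 1 ∧ (∀ t ∈ S, η t = 1) ∧
      (∀ t, η t ^ r = 1) ∧ ∀ i j : ℕ, i < r → j < r → (∀ t, η t ^ i = η t ^ j) → i = j := by
  classical
  have hfin : Finite K := by
    apply Nat.finite_of_card_ne_zero
    have hc8 := H.card; omega
  have : Fintype K := Fintype.ofFinite K
  have hm0 : 0 < Nat.card K - 1 := by have hc8 := H.card; omega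
  have : Finite (LL C K ≃ₗ[K] LL C K) := finite_group H
  let _ : CommGroup (T1 C K) :=
    { (inferInstance : Group (T1 C K)) with
      mul_comm := fun a b => Subtype.ext (TT_comm H (T1_le_TT H a.2) (T1_le_TT H b.2)) }
  have := lca_enough H
  have hexp : Monoid.exponent (T1 C K) ∣ Nat.card K - 1 := by
    apply Monoid.exponent_dvd_of_forall_pow_eq_one
    intro t
    apply Subtype.ext
    exact TT_pow_card H (T1_le_TT H t.2)
  have : NeZero (Nat.card K - 1) := ⟨hm0.ne'⟩
  have : HasEnoughRootsOfUnity K (Monoid.exponent (T1 C K)) :=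
    HasEnoughRootsOfUnity.of_dvd K hexp
  have h1 := (CommGroup.forall_monoidHom_apply_eq_one_iff K S t0).not.2 h0
  push Not at h1
  obtain ⟨φ, hφS, hφ⟩ := h1
  have hpow : ∀ u : Kˣ, u ^ (Nat.card K - 1) = 1 := by
    intro u
    ext
    rw [Units.val_pow_eq_pow_val, Nat.card_eq_fintype_card, Units.val_one]
    exact FiniteField.pow_card_sub_one_eq_one _ u.ne_zero
  have hφm : φ ^ (Nat.card K - 1) = 1 :=
    MonoidHom.ext fun t => by rw [MonoidHom.pow_apply, hpow, MonoidHom.one_apply]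
  have hN : orderOf φ ∣ Nat.card K - 1 := orderOf_dvd_of_pow_eq_one hφm
  have hN0 : orderOf φ ≠ 0 := fun h => by
    rw [h] at hN
    exact hm0.ne' (Nat.eq_zero_of_zero_dvd hN)
  have hN1 : orderOf φ ≠ 1 := by
    intro h
    rw [orderOf_eq_one_iff] at h
    rw [h] at hφ
    exact hφ rfl
  have hr : (orderOf φ).minFac.Prime := Nat.minFac_prime hN1
  have hrN : (orderOf φ).minFac ∣ orderOf φ := Nat.minFac_dvd _
  have hord : orderOf (φ ^ (orderOf φ / (orderOf φ).minFac)) = (orderOf φ).minFac := by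
    rw [orderOf_pow_of_dvd (Nat.div_ne_zero_iff.2 ⟨hr.ne_zero, Nat.minFac_le (Nat.pos_of_ne_zero hN0)⟩)
      (Nat.div_dvd_of_dvd hrN), Nat.div_div_self hrN hN0]
  obtain ⟨η, hη⟩ : ∃ η, η = φ ^ (orderOf φ / (orderOf φ).minFac) := ⟨_, rfl⟩
  rw [← hη] at hord
  refine ⟨(orderOf φ).minFac, η, hr, hrN.trans hN, ?_, ?_, ?_⟩
  · intro t ht
    rw [hη, MonoidHom.pow_apply, hφS t ht, one_pow]
  · intro t
    have h2 : η ^ orderOf η = 1 := pow_orderOf_eq_one η
    rw [← hord, ← MonoidHom.pow_apply, h2, MonoidHom.one_apply]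
  · intro i j hi hj hij
    have h2 : η ^ i = η ^ j :=
      MonoidHom.ext fun t => by rw [MonoidHom.pow_apply, MonoidHom.pow_apply, hij t]
    exact pow_injOn_Iio_orderOf (by rw [Set.mem_Iio, hord]; exact hi)
      (by rw [Set.mem_Iio, hord]; exact hj) h2

/-- job EL-13 -/
theorem weights_coset (H : Hyp C K) {g : LL C K ≃ₗ[K] LL C K} (hg : g ∈ GG C K)
    (h : ∀ t ∈ T1 C K, g * t * g⁻¹ ∈ NN C K)
    (hmove : ∃ t ∈ T1 C K, ∃ a : Rt C, ∀ k : K, (g * t * g⁻¹) (e K a) ≠ k • e K a) :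
    ∃ r : ℕ, r.Prime ∧ r ∣ Nat.card K - 1 ∧ ∃ γ : Fin r → Option (Rt C),
      Function.Injective γ ∧ ∃ a b : T1 C K → K, ∀ i, ∀ t : T1 C K,
        wt' (t : LL C K ≃ₗ[K] LL C K) (γ i) = a t * b t ^ (i : ℕ) := by
  classical
  obtain ⟨t0, ht0, α, hmove⟩ := hmove
  choose w k hk hw hw2 hw3 hw4 using fun t : T1 C K => NN_perm H (h t.1 t.2)
  -- composition
  have hg1 : ∀ z, g (g⁻¹ z) = z := fun z => g.apply_symm_apply z
  have hg2 : ∀ z, g⁻¹ (g z) = z := fun z => g.symm_apply_apply z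
  have hcomp : ∀ (s t : T1 C K) (z : LL C K), (g * ((s * t : T1 C K) : LL C K ≃ₗ[K] LL C K) * g⁻¹) z =
      (g * (s : LL C K ≃ₗ[K] LL C K) * g⁻¹) ((g * (t : LL C K ≃ₗ[K] LL C K) * g⁻¹) z) := by
    intro s t z
    simp only [LinearEquiv.mul_apply, Subgroup.coe_mul, hg2]
  have hwmul : ∀ (s t : T1 C K) (a : Rt C), w (s * t) a = w s (w t a) := by
    intro s t a
    have h1 := hcomp s t (e K a)
    rw [hw, hw t, map_smul, hw s, smul_smul] at h1
    exact lca_line h1 (hk _ _)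
  have hwone : ∀ a : Rt C, w 1 a = a := by
    intro a
    have h1 := hw 1 a
    have h2 : (g * ((1 : T1 C K) : LL C K ≃ₗ[K] LL C K) * g⁻¹) (e K a) = (1 : K) • e K a := by
      simp only [LinearEquiv.mul_apply, Subgroup.coe_one, LinearEquiv.coe_one, id_eq, hg1, one_smul]
    rw [h2] at h1
    exact (lca_line h1 one_ne_zero).symm
  have hwinv : ∀ (t : T1 C K) (a : Rt C), w t⁻¹ (w t a) = a := by
    intro t a
    rw [← hwmul, inv_mul_cancel, hwone]
  -- the stabiliser
  let S : Subgroup (T1 C K) :=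
    { carrier := {t | w t α = α}
      one_mem' := hwone α
      mul_mem' := fun {a b} ha hb => by
        show w (a * b) α = α
        rw [hwmul]
        rw [show w b α = α from hb]
        exact ha
      inv_mem' := fun {a} ha => by
        show w a⁻¹ α = α
        conv_lhs => rw [← show w a α = α from ha]
        exact hwinv a α }
  have hS : (⟨t0, ht0⟩ : T1 C K) ∉ S := by
    intro hmem
    have h1 := hw ⟨t0, ht0⟩ α
    rw [show w ⟨t0, ht0⟩ α = α from hmem] at h1
    exact hmove _ h1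
  obtain ⟨r, η, hr, hrm, hηS, hηr, hηi⟩ := lca_char H S hS
  -- the function θ on the orbit
  let O : Set (Rt C) := {b | ∃ t : T1 C K, w t α = b}
  obtain ⟨θ, hθ⟩ : ∃ θ : Rt C → Kˣ, ∀ t : T1 C K, θ (w t α) = η t := by
    refine ⟨fun b => if hb : ∃ t : T1 C K, w t α = b then η hb.choose else 1, fun t => ?_⟩
    have hb : ∃ s : T1 C K, w s α = w t α := ⟨t, rfl⟩
    simp only [hb, dif_pos]
    have hgen : ∀ s : T1 C K, w s α = w t α → η s = η t := by
      intro s hs
      have h1 : s⁻¹ * t ∈ S := by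
        show w (s⁻¹ * t) α = α
        rw [hwmul, ← hs]
        exact hwinv _ _
      have h2 := hηS _ h1
      rw [map_mul, map_inv, inv_mul_eq_one] at h2
      exact h2
    exact hgen _ hb.choose_spec
  have hθO : ∀ (t : T1 C K) (b : Rt C), b ∈ O → w t b ∈ O ∧ θ (w t b) = η t * θ b := by
    rintro t b ⟨s, rfl⟩
    rw [← hwmul]
    exact ⟨⟨t * s, rfl⟩, by rw [hθ, hθ, map_mul]⟩
  have hOiff : ∀ (t : T1 C K) (b : Rt C), w t b ∈ O → b ∈ O := by
    rintro t b ⟨s, hs⟩
    exact ⟨t⁻¹ * s, by rw [hwmul, hs, hwinv]⟩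
  have hαO : α ∈ O := ⟨1, hwone α⟩
  -- coordinates
  have hL0 : ∀ (t : T1 C K) (z : Fin n → K) (b : Rt C),
      ((g * (t : LL C K ≃ₗ[K] LL C K) * g⁻¹) (hh C z)).2 b = 0 := by
    intro t z b
    have h1 := ((h t.1 t.2).2 (hh C z)).2 (hh_mem_L0 z)
    rw [mem_L0] at h1
    rw [h1]
    rfl
  have hexp : ∀ (t : T1 C K) (u : LL C K), (g * (t : LL C K ≃ₗ[K] LL C K) * g⁻¹) u =
      (g * (t : LL C K ≃ₗ[K] LL C K) * g⁻¹) (hh C u.1) +
        ∑ a : Rt C, (u.2 a * k t a) • e K (w t a) := by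
    intro t u
    conv_lhs => rw [decomp u]
    rw [map_add, map_sum]
    congr 1
    refine Finset.sum_congr rfl fun a _ => ?_
    rw [map_smul, hw, smul_smul]
  have hco : ∀ (t : T1 C K) (u : LL C K) (b : Rt C),
      ((g * (t : LL C K ≃ₗ[K] LL C K) * g⁻¹) u).2 (w t b) = k t b * u.2 b := by
    intro t u b
    rw [hexp t u, Prod.snd_add, Pi.add_apply, hL0, zero_add, Prod.snd_sum, Finset.sum_apply]
    rw [Finset.sum_eq_single b]
    · rw [Prod.smul_snd, Pi.smul_apply, e_snd_self, smul_eq_mul, mul_one, mul_comm]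
    · intro a _ hab
      have : w t b ≠ w t a := fun h => hab ((w t).injective h).symm
      rw [Prod.smul_snd, Pi.smul_apply, e_snd_ne this, smul_zero]
    · intro hb
      exact absurd (Finset.mem_univ b) hb
  have hfst : ∀ (t : T1 C K) (u : LL C K), u.1 = 0 →
      ((g * (t : LL C K ≃ₗ[K] LL C K) * g⁻¹) u).1 = 0 := by
    intro t u hu
    rw [hexp t u, hu, hh_zero, map_zero, zero_add, Prod.fst_sum]
    refine Finset.sum_eq_zero fun a _ => ?_
    rw [Prod.smul_fst, e_fst, smul_zero]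
  -- an eigenvector with non-zero coordinate at α
  have hgt : ∀ (t : T1 C K) (z : LL C K), (g * (t : LL C K ≃ₗ[K] LL C K) * g⁻¹) (g z) =
      g ((t : LL C K ≃ₗ[K] LL C K) z) := by
    intro t z
    simp only [LinearEquiv.mul_apply, hg2]
  obtain ⟨γ0, x, hxα, hx⟩ : ∃ (γ0 : Option (Rt C)) (x : LL C K), x.2 α ≠ 0 ∧
      ∀ t : T1 C K, (g * (t : LL C K ≃ₗ[K] LL C K) * g⁻¹) x =
        wt' (t : LL C K ≃ₗ[K] LL C K) γ0 • x := by
    by_contra hcon
    push Not at hcon
    have hA : (g (hh C (g⁻¹ (e K α)).1)).2 α = 0 := by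
      by_contra hne
      obtain ⟨t, ht⟩ := hcon none _ hne
      apply ht
      rw [hgt, TT_fix H (T1_le_TT H t.2) (hh_mem_L0 _)]
      exact (one_smul K _).symm
    have hB : ∀ b : Rt C, (g (e K b)).2 α = 0 := by
      intro b
      by_contra hne
      obtain ⟨t, ht⟩ := hcon (some b) _ hne
      apply ht
      rw [hgt, TT_e H (T1_le_TT H t.2), map_smul]
      rfl
    have h1 : e K α = g (hh C (g⁻¹ (e K α)).1) +
        ∑ a : Rt C, (g⁻¹ (e K α)).2 a • g (e K a) := by
      conv_lhs => rw [← hg1 (e K α), decomp (g⁻¹ (e K α))]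
      rw [map_add, map_sum]
      congr 1
      exact Finset.sum_congr rfl fun a _ => map_smul _ _ _
    have h2 : (e K α).2 α = 0 := by
      rw [h1, Prod.snd_add, Pi.add_apply, hA, zero_add, Prod.snd_sum, Finset.sum_apply]
      refine Finset.sum_eq_zero fun a _ => ?_
      rw [Prod.smul_snd, Pi.smul_apply, hB, smul_zero]
    rw [e_snd_self] at h2
    exact one_ne_zero h2
  have hwt0 : ∀ t : T1 C K, wt' (t : LL C K ≃ₗ[K] LL C K) γ0 ≠ 0 := by
    intro t
    cases γ0 with
    | none => exact one_ne_zero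
    | some b => exact wt_ne_zero H (T1_le_TT H t.2) b
  -- the twisted eigenvectors
  have hγ : ∀ i : Fin r, ∃ γ : Option (Rt C), ∀ t : T1 C K,
      wt' (t : LL C K ≃ₗ[K] LL C K) γ =
        wt' (t : LL C K ≃ₗ[K] LL C K) γ0 * ((((η t)⁻¹) ^ (i : ℕ) : Kˣ) : K) := by
    intro i
    let u : LL C K := (0, fun b => if b ∈ O then ((θ b ^ (i : ℕ) : Kˣ) : K) * x.2 b else 0)
    have hu : ∀ t : T1 C K, (g * (t : LL C K ≃ₗ[K] LL C K) * g⁻¹) u =
        (wt' (t : LL C K ≃ₗ[K] LL C K) γ0 * ((((η t)⁻¹) ^ (i : ℕ) : Kˣ) : K)) • u := by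
      intro t
      refine Prod.ext ?_ (funext fun b' => ?_)
      · rw [hfst t u rfl]
        simp [u]
      · obtain ⟨b, rfl⟩ := (w t).surjective b'
        rw [hco]
        rw [Prod.smul_snd, Pi.smul_apply, smul_eq_mul]
        by_cases hb : b ∈ O
        · obtain ⟨h1, h2⟩ := hθO t b hb
          have h3 : k t b * x.2 b = wt' (t : LL C K ≃ₗ[K] LL C K) γ0 * x.2 (w t b) := by
            rw [← hco, hx t]
            rfl
          simp only [u, hb, h1, if_true]
          rw [h2]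
          have h4 : ((((η t)⁻¹) ^ (i : ℕ) : Kˣ) : K) * (((η t * θ b) ^ (i : ℕ) : Kˣ) : K) =
              ((θ b ^ (i : ℕ) : Kˣ) : K) := by
            rw [← Units.val_mul, ← mul_pow, inv_mul_cancel_left]
          calc k t b * (((θ b ^ (i : ℕ) : Kˣ) : K) * x.2 b)
              = ((θ b ^ (i : ℕ) : Kˣ) : K) * (k t b * x.2 b) := by ring
            _ = ((θ b ^ (i : ℕ) : Kˣ) : K) *
                (wt' (t : LL C K ≃ₗ[K] LL C K) γ0 * x.2 (w t b)) := by rw [h3]
            _ = _ := by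
                rw [← h4]
                ring
        · have h1 : w t b ∉ O := fun h => hb (hOiff t b h)
          simp only [u, hb, h1, if_false, mul_zero]
    have hu0 : g⁻¹ u ≠ 0 := by
      intro h0
      have h1 : u = 0 := by
        rw [← hg1 u, h0, map_zero]
      have h2 : u.2 α = 0 := by rw [h1]; rfl
      simp only [u, hαO, if_true] at h2
      exact (mul_ne_zero (Units.ne_zero _) hxα) h2
    refine lca_weight H hu0 (fun t => wt' (t : LL C K ≃ₗ[K] LL C K) γ0 *
      ((((η t)⁻¹) ^ (i : ℕ) : Kˣ) : K)) fun t => ?_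
    apply g.injective
    rw [← hgt, hg1, hu, map_smul, hg1]
  choose γ hγ using hγ
  refine ⟨r, hr, hrm, γ, ?_, ?_⟩
  · intro i j hij
    apply Fin.ext
    apply hηi _ _ i.2 j.2
    intro t
    have h1 := hγ i t
    rw [hij, hγ j t] at h1
    have h2 := mul_left_cancel₀ (hwt0 t) h1
    have h3 := Units.ext h2
    rw [inv_pow, inv_pow] at h3
    exact (inv_injective h3).symm
  · refine ⟨fun t => wt' (t : LL C K ≃ₗ[K] LL C K) γ0, fun t => (((η t)⁻¹ : Kˣ) : K),
      fun i t => ?_⟩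
    rw [hγ, Units.val_pow_eq_pow_val]

end Pool.Agent.H33.EQ
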