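import Pool.Agent.H33.EQ.Nor

/-!
# EL-13, EL-14: Lemma C'

`g ∈ GG`, `g T1 g⁻¹ ≤ NN` implies `g L0 = L0`, i.e. `g ∈ NN`.

Proof.  `A = g T1 g⁻¹` is abelian, `a^m = 1` for `a ∈ A`, `m = |K| - 1`.
(1) `weights_coset`: suppose some `a0 ∈ A` moves a root line.  Then there is a prime `r`
dividing `m` and pairwise different `γ_0, …, γ_(r-1) ∈ Φ ∪ {0}` (as characters of `T1`, `none`
is the zero weight) with `r (γ_i - γ_0) = 0` on `T1`:  let `O` be a non trivial `A`-orbit on
the root lines (via `NN_perm`), `α ∈ O`, `A_0` the stabiliser of `K e_α` in `A`, a proper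
subgroup.  Choose a subgroup `A_0 ≤ A_1 < A` of prime index `r` (`A` is finite abelian), and
`a ∈ A`, `a ∉ A_1`; `r ∣ m` since `a^m = 1`, `a^r ∈ A_1`.  Let `V = ∑_(O) K e_β` (a sum of root
lines permuted by `A`).  A character `ψ` of `A` (values in `K`, which contains all `m`-th roots
of unity) which occurs in `V`: take any simultaneous eigenvector `x ∈ V` of `A` (exists since
the elements of `A` commute and are diagonalizable, `X^m - 1` splits with simple roots).
`x = ∑_(β ∈ O) x_β e_β`.  Since `A` is transitive on `O` all `x_β ≠ 0`.  Let `η : A → K^*` be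
any character trivial on `A_1`, `η(a) = ζ` of order `r`.  Define `y = ∑ η(β) x_β e_β` where
`η(aα) := η(a)^(-1)` (well defined on `O` as `η` is trivial on `A_0`); then
`a' y = ψ(a') η(a') y`.  So `ψ η^i`, `i = 0..r-1` all occur; transported by `g` (if `a' x =
ψ(a') x` for all `a' = g t g⁻¹` then `t (g⁻¹ x) = ψ(g t g⁻¹) g⁻¹ x`, and an eigenvector of `T1`
is in `L0` or a multiple of a root vector) they are weights `γ_i` of `T1`.
Alternative for existence: `P_ψ x = ∑_(t ∈ T1) ψ(t)⁻¹ (g t g⁻¹) x` is in the `ψ`-weight space;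
`∑_ψ P_ψ e_α = |T1| e_α ≠ 0` (or: some `P_ψ e_α ≠ 0`), and
the `β`-coordinate of `P_(ψη) e_α` is `η(β)⁻¹` times that of `P_ψ e_α` for `η` trivial on `A_0`.
Characters: `CommGroup.exists_apply_ne_one_of_hasEnoughRootsOfUnity` for `A/A_0` (or T1 modulo
the stabiliser of the line), a power of it has prime order `r`.
Conclusion used below: `∃ r prime, r ∣ m`, and a function `γ : Fin r → Option (Rt C)`,
injective, such that for all `t ∈ T1` and all `i`: `(wt' t (γ i) / wt' t (γ 0))^r = 1`, where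
`wt' t none = 1`, `wt' t (some a) = wt t a`.  In fact more precisely
`wt' t (γ i) = wt' t (γ 0) * η(t)^i` with `η(t)^r = 1`.
(2) arithmetic (`no_coset`): this is impossible.  Evaluate at `t = hd y c`, `y` a root, `c` a
generator of `K^*`: `r * ip y (γ_i - γ_0) = 0 mod m`, i.e. `ip y (γ_i - γ_0) = 0 mod m/r`.
 * `r = 2`, `m/2 ∈ {3,4,5}`: if one of `γ_0, γ_1` is `none`, the other a root `β`, take `y = β`:
   `2 = 0 mod m/2`, no.  Otherwise `y = γ_0`: `2 - (γ_0,γ_1) ∈ {1,2,3,4}` is divisible by `m/2`: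
   `m/2 = 3`, `(γ_0,γ_1) = -1`: take `y` with `(y,γ_0) = 1`, `(y,γ_1) = 0`: `1 = 0 mod 3`, no.
   `m/2 = 4`, `(γ_0,γ_1) = -2`: `γ_1 = -γ_0`, `y` with `(y,γ_0) = 1`: `2 = 0 mod 4`, no.
 * `r` odd: `r = 3`, `m = 6` or `r = 5`, `m = 10`; `m/r = 2`: `(y, γ_i - γ_0)` is even for
   all roots `y`, so `γ_i - γ_0 ∈ 2 ℤ^n` by `H.r0` (simple roots), so its norm is divisible by
   8.  If `γ_i` or `γ_0` is `none`: norm 2, no.  Otherwise norm `4 - 2 (γ_i,γ_0) ≤ 8`, non zero,
   so `(γ_i,γ_0) = -2`, `γ_i = -γ_0`.  For `i = 1, 2`: `γ_1 = γ_2`, contradiction.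
(3) So `A` fixes all root lines, `A ≤ TT` (`mem_TT_of`), and `mem_NN_of_conj_TT`.
-/

namespace Pool.Agent.H33.EQ

variable {n : ℕ} {C : Matrix (Fin n) (Fin n) ℤ} {K : Type} [Field K] [Fintype (Rt C)]

/-- weight with the zero weight `none` -/
def wt' (t : LL C K ≃ₗ[K] LL C K) : Option (Rt C) → K
  | none => 1
  | some a => wt t a

end Pool.Agent.H33.EQ
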