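import Pool.Agent.H33.EQ.Tor

/-!
# EQ-10: the stabiliser of the zero weight space permutes the root lines (characteristic two)

Roots which agree modulo 2 on the root lattice are equal up to sign, so `g e_a` lies in
`K e_b + K e_(-b)`, and the second extremal identity excludes both coordinates nonzero.
The product `-1` is recognised by `[e_a,e_b] ≠ 0`.
-/

namespace Pool.Agent.H33.EQ

variable {n : ℕ} {C : Matrix (Fin n) (Fin n) ℤ} {K : Type} [Field K] [Fintype (Rt C)]

theorem NorA_inj (H : Hyp C K) {a b : Rt C}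
    (h : ∀ y : Rt C, ((ip C y.1 a.1 : ℤ) : K) = ((ip C y.1 b.1 : ℤ) : K)) : b = a ∨ b = ng a := by
  have hra : (ip C a.1 b.1 = 0 ∨ ip C a.1 b.1 = 1 ∨ ip C a.1 b.1 = -1) → b = a ∨ b = ng a := by
    intro hab
    obtain ⟨y, hy1, hy2⟩ := H.ra a b hab
    have h3 := h y
    rw [hy1, hy2, Int.cast_one, Int.cast_zero] at h3
    exact absurd h3 one_ne_zero
  rcases ip_cases H a b with h1 | h1 | h1 | h1 | h1
  · exact Or.inr h1
  · exact hra (Or.inr (Or.inr h1))
  · exact hra (Or.inl h1)
  · exact hra (Or.inr (Or.inl h1))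
  · exact Or.inl h1

theorem NorA_inj' (H : Hyp C K) {a b : Rt C}
    (h : ∀ k : Fin n → K, fk C k (zk a.1) = fk C k (zk b.1)) : b = a ∨ b = ng a := by
  apply NorA_inj (K := K) H
  intro y
  rw [← fk_zk_zk, ← fk_zk_zk]
  exact h _

/-- the simultaneous eigenspaces of `L0` -/
theorem eigen_root2 (H : Hyp C K) (x : LL C K) (hx : x ≠ 0) (f : (Fin n → K) → K)
    (hf : ∀ h : Fin n → K, br (hh C h) x = f h • x) (hf0 : ∃ h, f h ≠ 0) :
    ∃ (b : Rt C) (k l : K), k ≠ 0 ∧ x = k • e K b + l • e K (ng b) := by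
  obtain ⟨h0, hh0⟩ := hf0
  have h1 : x.1 = 0 := by
    have h3 := congrArg Prod.fst (hf h0)
    rw [br_hh_fst] at h3
    exact (smul_eq_zero.1 h3.symm).resolve_left hh0
  have h2 : ∀ h r, fk C h (zk r.1) * x.2 r = f h * x.2 r := by
    intro h r
    have h3 := congrFun (congrArg Prod.snd (hf h)) r
    rw [br_hh_snd] at h3
    exact h3
  have h3 : ∃ b, x.2 b ≠ 0 := by
    by_contra hcon
    push Not at hcon
    exact hx (Prod.ext h1 (funext hcon))
  obtain ⟨b, hb⟩ := h3
  have h4 : ∀ h, fk C h (zk b.1) = f h := fun h => mul_right_cancel₀ hb (h2 h b)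
  refine ⟨b, x.2 b, x.2 (ng b), hb, ?_⟩
  refine Prod.ext ?_ (funext fun r => ?_)
  · rw [h1]
    show (0 : Fin n → K) = x.2 b • (e K b).1 + x.2 (ng b) • (e K (ng b)).1
    rw [e_fst, e_fst, smul_zero, smul_zero, add_zero]
  · show x.2 r = x.2 b * (e K b).2 r + x.2 (ng b) * (e K (ng b)).2 r
    by_cases hr : r = b
    · rw [hr, e_snd_self, mul_one, e_snd_ne (ng_ne H b).symm, mul_zero, add_zero]
    · rw [e_snd_ne hr, mul_zero, zero_add]
      by_cases hr2 : r = ng b
      · rw [hr2, e_snd_self, mul_one]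
      · rw [e_snd_ne hr2, mul_zero]
        by_contra hxr
        rcases NorA_inj' (K := K) H (a := b) (b := r) (by
          intro k
          rw [h4]
          exact (mul_right_cancel₀ hxr (h2 k r)).symm) with h5 | h5
        · exact hr h5
        · exact hr2 h5

theorem eigen_root (H : Hyp C K) (x : LL C K) (hx : x ≠ 0) (f : (Fin n → K) → K)
    (hf : ∀ h : Fin n → K, br (hh C h) x = f h • x) (hf0 : ∃ h, f h ≠ 0) (hext : IsExt x) :
    ∃ (b : Rt C) (k : K), k ≠ 0 ∧ x = k • e K b := by
  obtain ⟨b, k, l, hk, hxb⟩ := eigen_root2 H x hx f hf hf0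
  refine ⟨b, k, hk, ?_⟩
  have hl : l = 0 := by
    by_contra hl
    obtain ⟨c, hc⟩ := exists_one H b
    have hcb : ip C c.1 b.1 = 1 := hc
    obtain ⟨f0, hf1, hf2⟩ := H.ra c b (Or.inr (Or.inl hcb))
    have hfc : ip C f0.1 c.1 = 1 := hf1
    obtain ⟨d, hd⟩ : ∃ d : Rt C, d.1 = f0.1 - c.1 := ⟨⟨f0.1 - c.1, root_sub H hfc⟩, rfl⟩
    have hdb : ip C d.1 b.1 = -1 := by
      rw [hd, ip_sub_left, hf2, hcb]; norm_num
    have hcd : ip C c.1 d.1 = -1 := by
      have h2 : ip C c.1 c.1 = 2 := c.2
      rw [hd, ip_sub_right, ip_comm H.symm c.1 f0.1, hfc, h2]; norm_num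
    have hbb : ip C b.1 b.1 = 2 := b.2
    obtain ⟨c', hc'⟩ : ∃ c' : Rt C, c'.1 = (ng b).1 + c.1 :=
      ⟨⟨(ng b).1 + c.1, root_add H (by rw [ng_val, ip_neg_left, ip_comm H.symm, hcb])⟩, rfl⟩
    obtain ⟨d', hd'⟩ : ∃ d' : Rt C, d'.1 = b.1 + d.1 :=
      ⟨⟨b.1 + d.1, root_add H (by rw [ip_comm H.symm, hdb])⟩, rfl⟩
    have e1 : br x (e K c) = (l * ek K C (ng b).1 c.1) • e K c' := by
      rw [hxb, map_add, LinearMap.add_apply, map_smul, map_smul, LinearMap.smul_apply,
        LinearMap.smul_apply, br_e_e_zero H (by rw [ip_comm H.symm, hcb]; norm_num), smul_zero,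
        zero_add, br_e_e_add H hc', smul_smul]
    have e2 : br x (e K d) = (k * ek K C b.1 d.1) • e K d' := by
      rw [hxb, map_add, LinearMap.add_apply, map_smul, map_smul, LinearMap.smul_apply,
        LinearMap.smul_apply, br_e_e_zero H (a := ng b)
          (by rw [ng_val, ip_neg_left, ip_comm H.symm, hdb]; norm_num), smul_zero,
        add_zero, br_e_e_add H hd', smul_smul]
    have hr0 : (e K c : LL C K).2 (ng b) = 0 ∧ (e K c : LL C K).2 b = 0 := by
      constructor
      · refine e_snd_ne ?_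
        intro h
        rw [← h, ng_val, ip_neg_left, hbb] at hcb
        omega
      · refine e_snd_ne ?_
        intro h
        rw [← h, hbb] at hcb
        omega
    have hr1 : (e K d : LL C K).2 (ng b) = 0 ∧ (e K d : LL C K).2 b = 0 := by
      constructor
      · refine e_snd_ne ?_
        intro h
        rw [← h, ng_val, ip_neg_left, hbb] at hdb
        omega
      · refine e_snd_ne ?_
        intro h
        rw [← h, hbb] at hdb
        omega
    have hfm : ∀ y : LL C K, y.2 (ng b) = 0 → y.2 b = 0 → fm x y = 0 := by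
      intro y hy1 hy2
      rw [hxb, map_add, LinearMap.add_apply, map_smul, map_smul, LinearMap.smul_apply,
        LinearMap.smul_apply, fm_e_left, fm_e_left, ng_ng, hy1, hy2]
      simp
    obtain ⟨g0, hg0⟩ : ∃ g0 : Rt C, g0.1 = c.1 + d.1 := ⟨⟨c.1 + d.1, root_add H hcd⟩, rfl⟩
    have e3 : br (e K c) (e K d) = ek K C c.1 d.1 • e K g0 := br_e_e_add H hg0
    have hg1 : ip C g0.1 b.1 = 0 := by
      rw [hg0, ip_add_left, hcb, hdb]; norm_num
    have e4 : fm x (br (e K c) (e K d)) = 0 := by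
      rw [e3]
      apply hfm
      · show ek K C c.1 d.1 * (e K g0).2 (ng b) = 0
        rw [e_snd_ne, mul_zero]
        intro h
        rw [← h, ng_val, ip_neg_left, hbb] at hg1
        omega
      · show ek K C c.1 d.1 * (e K g0).2 b = 0
        rw [e_snd_ne, mul_zero]
        intro h
        rw [← h, hbb] at hg1
        omega
    have h5 := hext.2 (e K c) (e K d)
    rw [hfm _ hr0.1 hr0.2, hfm _ hr1.1 hr1.2, e4, zero_smul, zero_smul, zero_smul, sub_zero,
      sub_zero, e1, e2, map_smul, map_smul, LinearMap.smul_apply,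
      br_e_e_add H (c := g0) (by rw [hc', hd', hg0, ng_val]; abel), smul_smul, smul_smul] at h5
    have h6 := (smul_eq_zero.1 h5).resolve_right (e_ne_zero g0)
    have h7 := ek_ne_zero (K := K) (C := C) (ng b).1 c.1
    have h8 := ek_ne_zero (K := K) (C := C) b.1 d.1
    have h9 := ek_ne_zero (K := K) (C := C) c'.1 d'.1
    simp only [mul_eq_zero, hl, hk, h7, h8, h9, or_self] at h6
  rw [hxb, hl, zero_smul, add_zero]

theorem NN_perm (H : Hyp C K) {g : LL C K ≃ₗ[K] LL C K} (hg : g ∈ NN C K) :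
    ∃ (w : Equiv.Perm (Rt C)) (k : Rt C → K), (∀ a, k a ≠ 0) ∧
      (∀ a, g (e K a) = k a • e K (w a)) ∧
      (∀ a b, ip C (w a).1 (w b).1 = ip C a.1 b.1) ∧ (∀ a, w (ng a) = ng (w a)) ∧
      ∀ a, g (hh C (zk a.1)) = hh C (zk (w a).1) := by
  have hg' := hg.1
  obtain ⟨⟨hgb, hgf⟩, hgL⟩ := hg
  have hgg : ∀ x, g (g⁻¹ x) = x := fun x => g.apply_symm_apply x
  have hgg' : ∀ x, g⁻¹ (g x) = x := fun x => g.symm_apply_apply x
  have hinvL : ∀ h : Fin n → K, g⁻¹ (hh C h) ∈ L0 C K := by
    intro h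
    rw [← hgL, hgg]
    exact hh_mem_L0 h
  have hmapL : ∀ h : Fin n → K, g (hh C h) ∈ L0 C K := fun h => (hgL _).2 (hh_mem_L0 h)
  -- step 1
  have step1 : ∀ a : Rt C, ∃ (b : Rt C) (k : K), k ≠ 0 ∧ g (e K a) = k • e K b := by
    intro a
    apply eigen_root H (g (e K a)) _ (fun h => fk C (g⁻¹ (hh C h)).1 (zk a.1))
    · intro h
      have e1 : hh C h = g (hh C (g⁻¹ (hh C h)).1) := by
        rw [← eq_hh_of_mem (hinvL h), hgg]
      calc br (hh C h) (g (e K a)) = br (g (hh C (g⁻¹ (hh C h)).1)) (g (e K a)) := by rw [← e1]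
        _ = _ := by rw [← hgb, br_hh_e, map_smul]
    · obtain ⟨y, hy⟩ := exists_one H a
      refine ⟨(g (hh C (zk y.1))).1, ?_⟩
      rw [← eq_hh_of_mem (hmapL _), hgg', hh_fst, fk_zk_zk, hy, Int.cast_one]
      exact one_ne_zero
    · exact (isExt_e H a).map hg'
    · intro h0
      exact e_ne_zero (K := K) a ((LinearEquiv.map_eq_zero_iff g).1 h0)
  choose w0 k hk hw0 using step1
  have hinj : Function.Injective w0 := by
    intro a b hab
    by_contra hne
    have e1 : g (k b • e K a) = g (k a • e K b) := by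
      rw [map_smul, map_smul, hw0, hw0, hab, smul_smul, smul_smul, mul_comm]
    have e2 := congrFun (congrArg Prod.snd (g.injective e1)) a
    have e3 : k b * (e K a).2 a = k a * (e K b).2 a := e2
    rw [e_snd_self, e_snd_ne hne, mul_one, mul_zero] at e3
    exact hk b e3
  obtain ⟨w, hw⟩ : ∃ w : Equiv.Perm (Rt C), ∀ a, w a = w0 a :=
    ⟨Equiv.ofBijective w0 (Finite.injective_iff_bijective.1 hinj), fun a => rfl⟩
  have hwe : ∀ a, g (e K a) = k a • e K (w a) := by
    intro a
    rw [hw0, hw]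
  -- step 2
  have hform : ∀ a, k a * (k (ng a) * (e K (w (ng a))).2 (ng (w a))) = 1 := by
    intro a
    have e1 := hgf (e K a) (e K (ng a))
    rw [hwe, hwe, map_smul, map_smul, LinearMap.smul_apply, fm_e_left, fm_e_left, e_snd_self]
      at e1
    simp only [smul_eq_mul] at e1
    linear_combination -e1
  have hng : ∀ a, w (ng a) = ng (w a) := by
    intro a
    by_contra hne
    have e1 := hform a
    rw [e_snd_ne (Ne.symm hne), mul_zero, mul_zero] at e1
    exact zero_ne_one e1
  have hkk : ∀ a, k a * k (ng a) = 1 := by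
    intro a
    have e1 := hform a
    rw [hng, e_snd_self, mul_one] at e1
    exact e1
  have hh1 : ∀ a, g (hh C (zk a.1)) = hh C (zk (w a).1) := by
    intro a
    have e1 : (hh C (zk a.1) : LL C K) = -br (e K a) (e K (ng a)) := by
      rw [br_e_ng H, neg_neg]
    rw [e1, map_neg, hgb, hwe, hwe, hng, map_smul, map_smul, LinearMap.smul_apply, br_e_ng H,
      smul_smul, mul_comm, hkk, one_smul, neg_neg]
  have hipK : ∀ a b, ((ip C (w a).1 (w b).1 : ℤ) : K) = ((ip C a.1 b.1 : ℤ) : K) := by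
    intro a b
    have e1 := hgf (hh C (zk a.1)) (hh C (zk b.1))
    rw [hh1, hh1, fm_hh_left, fm_hh_left, hh_fst, hh_fst, fk_zk_zk, fk_zk_zk] at e1
    exact e1
  refine ⟨w, k, hk, hwe, ?_, hng, hh1⟩
  intro a b
  have hmid : (ip C a.1 b.1 = -1 ∨ ip C a.1 b.1 = 0 ∨ ip C a.1 b.1 = 1) →
      ip C (w a).1 (w b).1 = ip C a.1 b.1 := by
    intro hab
    have hba : b ≠ a := by
      intro h
      rw [h] at hab
      have h3 : ip C a.1 a.1 = 2 := a.2
      omega
    have hban : b ≠ ng a := by
      intro h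
      rw [h, ng_val, ip_neg_right] at hab
      have h3 : ip C a.1 a.1 = 2 := a.2
      omega
    have h1 : ip C (w a).1 (w b).1 = -1 ∨ ip C (w a).1 (w b).1 = 0 ∨
        ip C (w a).1 (w b).1 = 1 := by
      rcases ip_cases H (w a) (w b) with h | h | h | h | h
      · rw [← hng] at h
        exact absurd (w.injective h) hban
      · exact Or.inl h
      · exact Or.inr (Or.inl h)
      · exact Or.inr (Or.inr h)
      · exact absurd (w.injective h) hba
    have h3 := hipK a b
    have hpar : ∀ m : ℤ, ((2 * m : ℤ) : K) = 0 := by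
      intro m
      rw [Int.cast_mul]
      have : ((2 : ℤ) : K) = 0 := by exact_mod_cast H.two
      rw [this, zero_mul]
    have hm1 : ∀ a b : Rt C, b ≠ ng a → (ip C a.1 b.1 = -1 ↔ br (e K a : LL C K) (e K b) ≠ 0) := by
      intro a b hne
      constructor
      · intro h
        rw [br_e_e_add H (c := ⟨a.1 + b.1, root_add H h⟩) rfl]
        exact smul_ne_zero (ek_ne_zero _ _) (e_ne_zero _)
      · intro h
        rcases ip_cases H a b with h5 | h5 | h5 | h5 | h5
        · exact absurd h5 hne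
        · exact h5
        · exact absurd (br_e_e_zero H (by omega)) h
        · exact absurd (br_e_e_zero H (by omega)) h
        · refine absurd (br_e_e_zero H ?_) h
          rw [h5]
          have : ip C a.1 a.1 = 2 := a.2
          omega
    have hban' : w b ≠ ng (w a) := by
      rw [← hng]
      exact fun h => hban (w.injective h)
    have h4 : ip C (w a).1 (w b).1 = -1 ↔ ip C a.1 b.1 = -1 := by
      rw [hm1 _ _ hban, hm1 _ _ hban']
      have e1 : g (br (e K a) (e K b)) = (k a * k b) • br (e K (w a)) (e K (w b)) := by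
        rw [hgb, hwe, hwe, map_smul, map_smul, LinearMap.smul_apply, smul_smul, mul_comm]
      constructor
      · intro h5 h6
        rw [h6, map_zero] at e1
        rcases smul_eq_zero.1 e1.symm with h7 | h7
        · exact mul_ne_zero (hk a) (hk b) h7
        · exact h5 h7
      · intro h5 h6
        rw [h6, smul_zero] at e1
        exact h5 ((LinearEquiv.map_eq_zero_iff g).1 e1)
    have h5 : ip C (w a).1 (w b).1 = 0 ↔ ip C a.1 b.1 = 0 := by
      constructor
      · intro h6
        rw [h6, Int.cast_zero] at h3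
        rcases hab with h7 | h7 | h7
        · rw [h7] at h3
          simp at h3
        · exact h7
        · rw [h7] at h3
          simp at h3
      · intro h6
        rw [h6, Int.cast_zero] at h3
        rcases h1 with h7 | h7 | h7
        · rw [h7] at h3
          simp at h3
        · exact h7
        · rw [h7] at h3
          simp at h3
    omega
  rcases ip_cases H a b with h | h | h | h | h
  · rw [h, hng, ng_val, ng_val, ip_neg_right, ip_neg_right]
    have e1 : ip C a.1 a.1 = 2 := a.2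
    have e2 : ip C (w a).1 (w a).1 = 2 := (w a).2
    rw [e1, e2]
  · exact hmid (Or.inl h)
  · exact hmid (Or.inr (Or.inl h))
  · exact hmid (Or.inr (Or.inr h))
  · rw [h]
    have e1 : ip C a.1 a.1 = 2 := a.2
    have e2 : ip C (w a).1 (w a).1 = 2 := (w a).2
    rw [e1, e2]

/-- additivity of the permutation -/
theorem perm_add (H : Hyp C K) (w : Equiv.Perm (Rt C))
    (hw : ∀ a b, ip C (w a).1 (w b).1 = ip C a.1 b.1) {a b c : Rt C}
    (hc : c.1 = a.1 + b.1) : (w c).1 = (w a).1 + (w b).1 := by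
  have h1 : ip C ((w c).1 - (w a).1 - (w b).1) ((w c).1 - (w a).1 - (w b).1) =
      ip C (c.1 - a.1 - b.1) (c.1 - a.1 - b.1) := by
    simp only [ip_sub_left, ip_sub_right, hw]
  have h3 : c.1 - a.1 - b.1 = 0 := by
    rw [hc]
    abel
  rw [h3, ip_zero_left] at h1
  have h4 := Ip_eq_zero H h1
  rw [sub_sub, sub_eq_zero] at h4
  exact h4

end Pool.Agent.H33.EQ
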