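import Pool.Agent.H33.EQ.XD
import Pool.Agent.H33.EQ.Nor

/-!
# EL-17: extremal vectors in `L0 + K e_a + K e_(-a)`

* `ext_sl2`: `v ≠ 0` extremal with root support in `{a, ng a}`.  If `v.2 (ng a) ≠ 0`: `xd` (the
  generating set is empty: `d = b - a` has `ip d a = -1` so `d ≠ ± a`).  If
  `v.2 (ng a) = 0` then `v.2 a ≠ 0` by `ext_root_coord`; apply `xd` with `ng a` instead of `a`:
  `v = k • xr (ng a) t (e a)`, its coordinate at `ng a` is `k t²` so `t = 0`.
* `xr_line_inj`: the lines `K xr a t e_(-a)` are different for different `t` and different from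
  `K e_a` (coordinates).
-/

namespace Pool.Agent.H33.EQ

variable {n : ℕ} {C : Matrix (Fin n) (Fin n) ℤ} {K : Type} [Field K] [Fintype (Rt C)]

theorem Sl2_aux (H : Hyp C K) {v : LL C K} (hv : IsExt v) (a : Rt C)
    (hs : ∀ d : Rt C, d ≠ a → d ≠ ng a → v.2 d = 0) (hc : v.2 (ng a) ≠ 0) :
    ∃ t : K, v = v.2 (ng a) • xr a t (e K (ng a)) := by
  obtain ⟨r, hr, t, ht⟩ := xd H hv a hc
  have h1 : {g : LL C K ≃ₗ[K] LL C K | ∃ (b d : Rt C) (s : K),
      ip C b.1 a.1 = 1 ∧ d.1 = b.1 - a.1 ∧ v.2 d ≠ 0 ∧ g = xr b s} = ∅ := by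
    rw [Set.eq_empty_iff_forall_notMem]
    rintro g ⟨b, d, s, hb, hd, hvd, -⟩
    have h2 : ip C a.1 a.1 = 2 := a.2
    have h3 : ip C d.1 a.1 = -1 := by
      rw [hd, ip_sub_left, hb, h2]
      norm_num
    refine hvd (hs d ?_ ?_)
    · rintro rfl
      rw [h2] at h3
      norm_num at h3
    · rintro rfl
      rw [ng_val, ip_neg_left, h2] at h3
      norm_num at h3
  rw [h1, Subgroup.closure_empty, Subgroup.mem_bot] at hr
  refine ⟨t, ?_⟩
  rw [hr] at ht
  exact ht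

theorem ext_sl2' (H : Hyp C K) {v : LL C K} (hv : IsExt v) (h0 : v ≠ 0) (a : Rt C)
    (hs : ∀ d : Rt C, d ≠ a → d ≠ ng a → v.2 d = 0) (h1 : v.2 (ng a) = 0) :
    ∃ k : K, k ≠ 0 ∧ v = k • e K a := by
  obtain ⟨b, hb⟩ := ext_root_coord H hv h0
  have hba : ng b = a := by
    by_contra hne
    by_cases h2 : ng b = ng a
    · rw [h2] at hb
      exact hb h1
    · exact hb (hs _ hne h2)
  rw [hba] at hb
  obtain ⟨t, ht⟩ := Sl2_aux H hv (ng a) (fun d h2 h3 => by
    rw [ng_ng] at h3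
    exact hs d h3 h2) (by rw [ng_ng]; exact hb)
  rw [xr_e_ng H, ng_ng] at ht
  have h2 : v.2 (ng a) = v.2 a * t ^ 2 := by
    have h3 := congrArg (fun u : LL C K => u.2 (ng a)) ht
    simp only [Prod.smul_snd, Prod.snd_add, Prod.snd_sub, Pi.smul_apply, Pi.add_apply,
      Pi.sub_apply, hh_snd, e_snd_self, e_snd_ne (ng_ne H a), smul_eq_mul] at h3
    rw [h3]
    ring
  rw [h1] at h2
  have ht0 : t = 0 := by
    have h3 : t ^ 2 = 0 := by
      rcases mul_eq_zero.mp h2.symm with h4 | h4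
      · exact absurd h4 hb
      · exact h4
    exact pow_eq_zero_iff (two_ne_zero) |>.mp h3
  refine ⟨v.2 a, hb, ?_⟩
  rw [ht0] at ht
  calc v = _ := ht
    _ = v.2 a • e K a := by
      rw [zero_smul, sub_zero, zero_pow two_ne_zero, zero_smul, add_zero]

theorem ext_sl2 (H : Hyp C K) {v : LL C K} (hv : IsExt v) (h0 : v ≠ 0) (a : Rt C)
    (hs : ∀ d : Rt C, d ≠ a → d ≠ ng a → v.2 d = 0) :
    (∃ k : K, k ≠ 0 ∧ v = k • e K a) ∨
      ∃ k t : K, k ≠ 0 ∧ v = k • xr a t (e K (ng a)) := by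
  by_cases h : v.2 (ng a) = 0
  · exact Or.inl (ext_sl2' H hv h0 a hs h)
  · obtain ⟨t, ht⟩ := Sl2_aux H hv a hs h
    exact Or.inr ⟨v.2 (ng a), t, h, ht⟩

theorem Sl2_smul_zk (H : Hyp C K) (a : Rt C) {c : K} (h : c • (zk a.1 : Fin n → K) = 0) :
    c = 0 := by
  obtain ⟨y, hy⟩ := exists_one H a
  have h1 : fk C (c • (zk a.1 : Fin n → K)) (zk y.1) = c := by
    rw [fk_smul_left, fk_zk_zk, ip_comm H.symm, hy]
    norm_num
  rw [h, fk_zero_left] at h1
  exact h1.symm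

theorem xr_line_inj (H : Hyp C K) (a : Rt C) {s t k : K} (hk : k ≠ 0)
    (h : xr a s (e K (ng a)) = k • xr a t (e K (ng a))) : s = t := by
  rw [xr_e_ng H, xr_e_ng H] at h
  have h1 : k = 1 := by
    have h3 := congrArg (fun u : LL C K => u.2 (ng a)) h
    simp only [Prod.smul_snd, Prod.snd_add, Prod.snd_sub, Pi.smul_apply, Pi.add_apply,
      Pi.sub_apply, hh_snd, e_snd_self, e_snd_ne (ng_ne H a), smul_eq_mul] at h3
    simpa using h3.symm
  have h2 := congrArg (fun u : LL C K => u.1) h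
  simp only [h1, one_smul, Prod.smul_fst, Prod.fst_add, Prod.fst_sub, hh_fst, e_fst,
    smul_zero, zero_sub, add_zero, neg_inj] at h2
  have h4 : (s - t) • (zk a.1 : Fin n → K) = 0 := by
    rw [sub_smul, h2, sub_self]
  exact sub_eq_zero.mp (Sl2_smul_zk H a h4)

/-- the group element is determined on `sl_2` up to `NN`: if `g` maps `K e_a` to itself and
`e_(-a)` to a multiple of `xr a t e_(-a)` then `xr a (-t) * g` fixes both lines -/
theorem fix_lines (H : Hyp C K) {g : LL C K ≃ₗ[K] LL C K} (hg : g ∈ GG C K) (a : Rt C)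
    {k l t : K} (h1 : g (e K a) = k • e K a)
    (h2 : g (e K (ng a)) = l • xr a t (e K (ng a))) :
    (xr a (-t) * g) (e K a) = k • e K a ∧
      (xr a (-t) * g) (e K (ng a)) = l • e K (ng a) := by
  constructor
  · rw [LinearEquiv.mul_apply, h1, map_smul, xr_e_nonneg H a (-t)
      (by rw [(a.2 : ip C a.1 a.1 = 2)]; norm_num)]
  · rw [LinearEquiv.mul_apply, h2, map_smul, xr_neg H]
    congr 1
    exact (xr a t).symm_apply_apply _

/-- an automorphism which maps `m = L0 + ∑_(b ∈ S) K e_b` to itself and fixes all lines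
`K e_b`, `b ∈ S` up to a permutation preserves `L0`:  for `x ∈ L0`, `y = g x ∈ m` satisfies
`[y, e_b] ∈ K e_b` for all `b ∈ S`, and the `L0`-part of `[y, e_(-b)]` is `-y_b h_b`. -/
theorem mem_NN_of_lines (H : Hyp C K) {g : LL C K ≃ₗ[K] LL C K} (hg : g ∈ GG C K)
    (S : Set (Rt C)) (hS : ∀ b ∈ S, ng b ∈ S)
    (hm : ∀ x : LL C K, (∀ d ∉ S, x.2 d = 0) → ∀ d ∉ S, (g x).2 d = 0)
    (hl : ∀ b ∈ S, ∃ d ∈ S, ∃ k : K, g (e K d) = k • e K b) : g ∈ NN C K := by
  have key : ∀ x ∈ L0 C K, g x ∈ L0 C K := by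
    intro x hx
    rw [mem_L0]
    have hx2 : x.2 = 0 := hx
    funext b
    show (g x).2 b = 0
    by_cases hb : b ∈ S
    · obtain ⟨d, -, k, hk⟩ := hl (ng b) (hS b hb)
      have hk0 : k ≠ 0 := by
        rintro rfl
        rw [zero_smul] at hk
        exact e_ne_zero d (g.map_eq_zero_iff.mp hk)
      have h1 : br x (e K d) = fk C x.1 (zk d.1) • e K d := by
        conv_lhs => rw [eq_hh_of_mem hx]
        exact br_hh_e _ _
      have h2 := hg.1 x (e K d)
      rw [h1, map_smul, hk, map_smul, br_skew H] at h2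
      have h3 := congrArg (fun u : LL C K => u.1) h2
      simp only [Prod.smul_fst, Prod.fst_neg, e_fst, smul_zero, br_e_fst H, ng_ng] at h3
      have h4 : (k * (g x).2 b) • (zk (ng b).1 : Fin n → K) = 0 := by
        rw [mul_smul, h3]
        simp
      rcases mul_eq_zero.mp (Sl2_smul_zk H (ng b) h4) with h5 | h5
      · exact absurd h5 hk0
      · exact h5
    · exact hm x (fun d _ => by rw [hx2]; rfl) b hb
  have hle : (L0 C K).map (g : LL C K →ₗ[K] LL C K) ≤ L0 C K := by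
    rintro _ ⟨x, hx, rfl⟩
    exact key x hx
  have heq : (L0 C K).map (g : LL C K →ₗ[K] LL C K) = L0 C K :=
    Submodule.eq_of_le_of_finrank_eq hle (LinearEquiv.finrank_map_eq g _)
  refine ⟨hg, fun x => ⟨fun hx => ?_, key x⟩⟩
  rw [← heq] at hx
  obtain ⟨y, hy, hyx⟩ := hx
  rwa [← g.injective hyx]

end Pool.Agent.H33.EQ
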