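import Pool.Agent.H33.EQ.PGa
import Pool.Agent.H33.EQ.Sl2

/-!
# EL-23: `pg_sl2`, proof in the header of `PGa`
-/

namespace Pool.Agent.H33.EQ

variable {n : ℕ} {C : Matrix (Fin n) (Fin n) ℤ} {K : Type} [Field K] [Fintype (Rt C)]

/-- the root elements of `±a` preserve `L0 + K e_a + K e_(-a)` -/
private theorem pgb_xr_m (H : Hyp C K) (a : Rt C) (s : K) (x : LL C K)
    (hx : ∀ d, d ≠ a → d ≠ ng a → x.2 d = 0) :
    ∀ d, d ≠ a → d ≠ ng a → (xr a s x).2 d = 0 := by
  intro d hd hd'
  by_cases h1 : ip C d.1 a.1 = 1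
  · have hr : ip C (d.1 - a.1) (d.1 - a.1) = 2 := root_sub H h1
    have hval : ip C (d.1 - a.1) a.1 = -1 := by
      rw [ip_sub_left, h1, a.2]
      norm_num
    rw [xr_snd_one H a s x d ⟨d.1 - a.1, hr⟩ rfl, hx d hd hd']
    have h2 : (⟨d.1 - a.1, hr⟩ : Rt C) ≠ a := by
      intro h
      have h3 : d.1 - a.1 = a.1 := congrArg Subtype.val h
      rw [h3, a.2] at hval
      norm_num at hval
    have h4 : (⟨d.1 - a.1, hr⟩ : Rt C) ≠ ng a := by
      intro h
      have h3 : d.1 - a.1 = -a.1 := congrArg Subtype.val h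
      rw [h3, ip_neg_left, a.2] at hval
      norm_num at hval
    rw [hx _ h2 h4]
    ring
  · rw [xr_snd_other H a s x d h1 hd]
    exact hx d hd hd'

omit [Fintype (Rt C)] in
private theorem pgb_e_m (a : Rt C) (b : Rt C) (hb : b = a ∨ b = ng a) :
    ∀ d, d ≠ a → d ≠ ng a → (e K b).2 d = 0 := by
  intro d hd hd'
  have : d ≠ b := by
    rcases hb with rfl | rfl
    · exact hd
    · exact hd'
  simp [e, this]

omit [Fintype (Rt C)] in
private theorem pgb_e_ne (a : Rt C) : e K a ≠ 0 := by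
  intro h
  have := congrFun (congrArg Prod.snd h) a
  simp [e] at this

omit [Fintype (Rt C)] in
private theorem pgb_inj {g : LL C K ≃ₗ[K] LL C K} {x : LL C K} (hx : x ≠ 0) : g x ≠ 0 := by
  intro h
  apply hx
  apply g.injective
  rw [h, map_zero]

/-- the representatives of the lines -/
private noncomputable def pgbV (a : Rt C) : Option K → LL C K
  | none => e K a
  | some t => xr a t (e K (ng a))

private theorem pgbV_m (H : Hyp C K) (a : Rt C) (x : Option K) :
    ∀ d, d ≠ a → d ≠ ng a → (pgbV a x).2 d = 0 := by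
  cases x with
  | none => exact pgb_e_m a a (Or.inl rfl)
  | some t => exact pgb_xr_m H a t _ (pgb_e_m a (ng a) (Or.inr rfl))

private theorem pgbV_ne (a : Rt C) (x : Option K) : pgbV a x ≠ 0 := by
  cases x with
  | none => exact pgb_e_ne a
  | some t => exact pgb_inj (pgb_e_ne _)

private theorem pgbV_ext (H : Hyp C K) (a : Rt C) (x : Option K) : IsExt (pgbV a x : LL C K) := by
  cases x with
  | none => exact isExt_e H a
  | some t => exact (isExt_e H _).map (xr_mem_GG H a t)

private theorem pgb_coord (H : Hyp C K) (a : Rt C) (t : K) :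
    (xr a t (e K (ng a))).2 (ng a) = 1 := by
  have h1 : ip C (ng a).1 a.1 ≠ 1 := by
    rw [ng_val, ip_neg_left, a.2]
    norm_num
  rw [xr_snd_other H a t _ (ng a) h1 (ng_ne H a)]
  simp [e]

private theorem pgb_e_coord (H : Hyp C K) (a : Rt C) : (e K a).2 (ng a) = 0 := by
  simp [e, ng_ne H a]

private theorem pgbV_inj (H : Hyp C K) (a : Rt C) {x y : Option K} {k l : K} (hk : k ≠ 0)
    (hl : l ≠ 0) (h : k • pgbV a x = l • pgbV a y) : x = y := by
  cases x with
  | none =>
    cases y with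
    | none => rfl
    | some t =>
      exfalso
      have h1 := congrFun (congrArg Prod.snd h) (ng a)
      change k * (e K a).2 (ng a) = l * (xr a t (e K (ng a))).2 (ng a) at h1
      rw [pgb_coord H, pgb_e_coord H, mul_zero, mul_one] at h1
      exact hl h1.symm
  | some s =>
    cases y with
    | none =>
      exfalso
      have h1 := congrFun (congrArg Prod.snd h) (ng a)
      change k * (xr a s (e K (ng a))).2 (ng a) = l * (e K a).2 (ng a) at h1
      rw [pgb_coord H, pgb_e_coord H, mul_zero, mul_one] at h1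
      exact hk h1
    | some t =>
      have h1 : xr a s (e K (ng a)) = (k⁻¹ * l) • xr a t (e K (ng a)) := by
        have h2 : k • xr a s (e K (ng a)) = l • xr a t (e K (ng a)) := h
        rw [mul_smul, ← h2, smul_smul, inv_mul_cancel₀ hk, one_smul]
      rw [xr_line_inj H a (mul_ne_zero (inv_ne_zero hk) hl) h1]

/-- `g` maps the line `x` to the line `y` -/
private def PgbR (a : Rt C) (g : LL C K ≃ₗ[K] LL C K) (x y : Option K) : Prop :=
  ∃ k : K, k ≠ 0 ∧ g (pgbV a x) = k • pgbV a y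

private theorem pgbR_uniq (H : Hyp C K) (a : Rt C) {g : LL C K ≃ₗ[K] LL C K} {x y z : Option K}
    (h1 : PgbR a g x y) (h2 : PgbR a g x z) : y = z := by
  obtain ⟨k, hk, e1⟩ := h1
  obtain ⟨l, hl, e2⟩ := h2
  exact pgbV_inj H a hk hl (e1.symm.trans e2)

private theorem pgbR_one (a : Rt C) (x : Option K) :
    PgbR a (1 : LL C K ≃ₗ[K] LL C K) x x := ⟨1, one_ne_zero, by rw [one_smul]; rfl⟩

private theorem pgbR_mul (a : Rt C) {g h : LL C K ≃ₗ[K] LL C K} {x y z : Option K}
    (h1 : PgbR a h x y) (h2 : PgbR a g y z) : PgbR a (g * h) x z := by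
  obtain ⟨k, hk, e1⟩ := h1
  obtain ⟨l, hl, e2⟩ := h2
  refine ⟨k * l, mul_ne_zero hk hl, ?_⟩
  rw [LinearEquiv.mul_apply, e1, map_smul, e2, smul_smul]

private theorem pgbR_ex (H : Hyp C K) (a : Rt C) {g : LL C K ≃ₗ[K] LL C K} (hg : g ∈ GG C K)
    (hm : ∀ x : LL C K, (∀ d, d ≠ a → d ≠ ng a → x.2 d = 0) →
      ∀ d, d ≠ a → d ≠ ng a → (g x).2 d = 0) (x : Option K) : ∃ y, PgbR a g x y := by
  rcases ext_sl2 H ((pgbV_ext H a x).map hg) (pgb_inj (pgbV_ne a x)) a
    (hm _ (pgbV_m H a x)) with ⟨k, hk, h⟩ | ⟨k, t, hk, h⟩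
  · exact ⟨none, k, hk, h⟩
  · exact ⟨some t, k, hk, h⟩

/-- the action on the lines -/
@[reducible] private noncomputable def pgbAct (H : Hyp C K) (a : Rt C)
    (P : Subgroup (LL C K ≃ₗ[K] LL C K))
    (hex : ∀ g ∈ P, ∀ x : Option K, ∃ y, PgbR a g x y) : MulAction P (Option K) where
  smul g x := Classical.choose (hex g.1 g.2 x)
  one_smul x := by
    have h := Classical.choose_spec (hex (1 : P).1 (1 : P).2 x)
    exact (pgbR_uniq H a (pgbR_one a x) h).symm
  mul_smul g h x := by
    have h1 := Classical.choose_spec (hex (g * h).1 (g * h).2 x)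
    have h2 := Classical.choose_spec (hex h.1 h.2 x)
    have h3 := Classical.choose_spec (hex g.1 g.2 (Classical.choose (hex h.1 h.2 x)))
    exact pgbR_uniq H a h1 (pgbR_mul a h2 h3)

private theorem pgb_tor (H : Hyp C K) (a : Rt C) {t : LL C K ≃ₗ[K] LL C K} (ht : t ∈ TT C K)
    (s : K) : PgbR a t (some s) (some (wt t a * s)) := by
  refine ⟨wt t (ng a), wt_ne_zero H ht _, ?_⟩
  change t (xr a s (e K (ng a))) = wt t (ng a) • xr a (wt t a * s) (e K (ng a))
  have h2 : xr a (wt t a * s) * t = t * xr a s := by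
    rw [← TT_conj_xr H ht a s, inv_mul_cancel_right]
  calc t (xr a s (e K (ng a))) = (t * xr a s) (e K (ng a)) := rfl
    _ = xr a (wt t a * s) (t (e K (ng a))) := by rw [← h2, LinearEquiv.mul_apply]
    _ = wt t (ng a) • xr a (wt t a * s) (e K (ng a)) := by rw [TT_e H ht (ng a), map_smul]

private theorem pgbR_inj (H : Hyp C K) (a : Rt C) {g : LL C K ≃ₗ[K] LL C K} {x y z : Option K}
    (h1 : PgbR a g x z) (h2 : PgbR a g y z) : x = y := by
  obtain ⟨k, hk, e1⟩ := h1
  obtain ⟨l, hl, e2⟩ := h2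
  refine pgbV_inj H a (inv_ne_zero hk) (inv_ne_zero hl) (g.injective ?_)
  rw [map_smul, map_smul, e1, e2, smul_smul, smul_smul, inv_mul_cancel₀ hk, inv_mul_cancel₀ hl]

/-- a linear map cannot interchange two of the lines and fix all others -/
private theorem pgb_swap (H : Hyp C K) (a : Rt C) {u : LL C K ≃ₗ[K] LL C K}
    (hs : ∀ s : K, s ≠ 0 → PgbR a u (some s) (some s)) (h1 : PgbR a u none (some 0))
    (h2 : PgbR a u (some 0) none) : False := by
  have hv0 : pgbV a (some (0 : K)) = e K (ng a) := by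
    change xr a 0 (e K (ng a)) = _
    rw [xr_zero H a]
    rfl
  obtain ⟨k, hk, e1⟩ := h1
  obtain ⟨l, hl, e2⟩ := h2
  rw [hv0] at e1 e2
  change u (e K a) = k • e K (ng a) at e1
  change u (e K (ng a)) = l • e K a at e2
  obtain ⟨A, hA⟩ : ∃ A, A = u (hh C (zk a.1)) := ⟨_, rfl⟩
  have hst : ∀ s : K, s ≠ 0 → ∃ c : K, c ≠ 0 ∧ A.1 = c • zk a.1 ∧
      s * A.2 a = l - c * s ^ 2 := by
    intro s hs0
    obtain ⟨c, hc, e3⟩ := hs s hs0
    change u (xr a s (e K (ng a))) = c • xr a s (e K (ng a)) at e3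
    rw [xr_e_ng H, map_add, map_sub, map_smul, map_smul, e1, e2, ← hA] at e3
    refine ⟨c, hc, ?_, ?_⟩
    · have h3 := congrArg Prod.fst e3
      simp only [Prod.fst_add, Prod.fst_sub, Prod.smul_fst, e_fst, hh_fst, smul_zero, zero_sub,
        add_zero, smul_neg, neg_inj] at h3
      rw [smul_comm c s] at h3
      exact smul_right_injective _ hs0 h3
    · have h3 := congrArg (fun z : LL C K => z.2 a) e3
      simp only [Prod.snd_add, Prod.snd_sub, Prod.smul_snd, Pi.add_apply, Pi.sub_apply,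
        Pi.smul_apply, smul_eq_mul, e_snd_self, e_snd_ne (ng_ne H a).symm, hh_snd, mul_zero,
        add_zero, mul_one, sub_zero, zero_add] at h3
      linear_combination -h3
  obtain ⟨c, hc, hc1, hc2⟩ := hst 1 one_ne_zero
  have hst' : ∀ s : K, s ≠ 0 → s ≠ 1 → c * s = -l := by
    intro s hs0 hs1
    obtain ⟨c', hc', hc1', hc2'⟩ := hst s hs0
    have hcc : c = c' := by
      have h3 : (c - c') • (zk a.1 : Fin n → K) = 0 := by
        rw [sub_smul, ← hc1, ← hc1', sub_self]
      exact sub_eq_zero.1 (Sl2_smul_zk H a h3)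
    rw [← hcc] at hc2'
    have h4 : (s - 1) * (c * s + l) = 0 := by
      linear_combination hc2' - s * hc2
    rcases mul_eq_zero.1 h4 with h5 | h5
    · exact absurd (sub_eq_zero.1 h5) hs1
    · exact eq_neg_of_add_eq_zero_left h5
  have hfin : Finite K := by
    apply Nat.finite_of_card_ne_zero
    rw [H.card]; norm_num
  have := Fintype.ofFinite K
  classical
  have hcard : Fintype.card K = 8 := by rw [← Nat.card_eq_fintype_card, H.card]
  obtain ⟨s, hs⟩ : ∃ s : K, s ∉ ({0, 1} : Finset K) := by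
    by_contra hcon
    push Not at hcon
    have h3 : (Finset.univ : Finset K) ⊆ {0, 1} := fun x _ => hcon x
    have h4 := (Finset.card_le_card h3).trans Finset.card_le_two
    rw [Finset.card_univ, hcard] at h4
    omega
  obtain ⟨t, ht⟩ : ∃ t : K, t ∉ ({0, 1, s} : Finset K) := by
    by_contra hcon
    push Not at hcon
    have h3 : (Finset.univ : Finset K) ⊆ {0, 1, s} := fun x _ => hcon x
    have h4 := (Finset.card_le_card h3).trans Finset.card_le_three
    rw [Finset.card_univ, hcard] at h4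
    omega
  simp only [Finset.mem_insert, Finset.mem_singleton, not_or] at hs ht
  have h5 := hst' s hs.1 hs.2
  have h6 := hst' t ht.1 ht.2.1
  have h7 : c * (s - t) = 0 := by rw [mul_sub, h5, h6, sub_self]
  rcases mul_eq_zero.1 h7 with h8 | h8
  · exact hc h8
  · exact ht.2.2 (sub_eq_zero.1 h8).symm

private theorem pgb_fix (H : Hyp C K) {p : ℕ} [Fact p.Prime] [CharP K p]
    (P : Subgroup (LL C K ≃ₗ[K] LL C K)) (hP : IsPGroup p P) (hPG : P ≤ GG C K)
    (hT : ∀ t ∈ T1 C K, ∀ u ∈ P, t * u * t⁻¹ ∈ P) (a : Rt C)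
    (hm : ∀ u ∈ P, ∀ x : LL C K, (∀ d, d ≠ a → d ≠ ng a → x.2 d = 0) →
      ∀ d, d ≠ a → d ≠ ng a → (u x).2 d = 0) :
    (∀ u ∈ P, ∃ k : K, u (e K a) = k • e K a) ∨
      ∀ u ∈ P, ∃ k : K, u (e K (ng a)) = k • e K (ng a) := by
  have hex : ∀ g ∈ P, ∀ x : Option K, ∃ y, PgbR a g x y := fun g hg x =>
    pgbR_ex H a (hPG hg) (hm g hg) x
  have hfin : Finite K := by
    apply Nat.finite_of_card_ne_zero
    rw [H.card]; norm_num
  let _ : MulAction P (Option K) := pgbAct H a P hex
  have hspec : ∀ (g : P) (x : Option K), PgbR a g.1 x (g • x) := fun g x =>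
    Classical.choose_spec (hex g.1 g.2 x)
  have hfixed : ∀ x : Option K, x ∈ MulAction.fixedPoints P (Option K) ↔
      ∀ u ∈ P, PgbR a u x x := by
    intro x
    rw [MulAction.mem_fixedPoints]
    constructor
    · intro h u hu
      have h1 := hspec ⟨u, hu⟩ x
      rw [h ⟨u, hu⟩] at h1
      exact h1
    · intro h g
      exact pgbR_uniq H a (hspec g x) (h g.1 g.2)
  have hcard := hP.card_modEq_card_fixedPoints (Option K)
  have hpq : p ∣ Nat.card K := by
    have := Fintype.ofFinite K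
    obtain ⟨m, -, hm⟩ := FiniteField.card K p
    rw [Nat.card_eq_fintype_card, hm]
    exact dvd_pow_self p m.ne_zero
  have hcO : Nat.card (Option K) = Nat.card K + 1 := Finite.card_option
  rw [hcO] at hcard
  have hp1 : ¬ p ∣ 1 := by
    intro h
    exact (Fact.out : p.Prime).one_lt.ne' (Nat.dvd_one.mp h)
  by_cases hn : (none : Option K) ∈ MulAction.fixedPoints P (Option K)
  · left
    intro u hu
    obtain ⟨k, -, hk⟩ := (hfixed none).1 hn u hu
    exact ⟨k, hk⟩
  by_cases h0 : (some 0 : Option K) ∈ MulAction.fixedPoints P (Option K)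
  · right
    intro u hu
    obtain ⟨k, -, hk⟩ := (hfixed (some 0)).1 h0 u hu
    refine ⟨k, ?_⟩
    have e1 : pgbV a (some (0 : K)) = e K (ng a) := by
      change xr a 0 (e K (ng a)) = _
      rw [xr_zero H a]
      rfl
    rw [e1] at hk
    exact hk
  exfalso
  by_cases hs : ∃ s : K, (some s : Option K) ∈ MulAction.fixedPoints P (Option K)
  · obtain ⟨s, hs⟩ := hs
    have hs0 : s ≠ 0 := by
      rintro rfl
      exact h0 hs
    have hall : ∀ r : K, r ≠ 0 → (some r : Option K) ∈ MulAction.fixedPoints P (Option K) := by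
      intro r hr
      obtain ⟨t, ht, hwt⟩ := T1_surj H a (c := r / s) (div_ne_zero hr hs0)
      have htT := T1_le_TT H ht
      have h1 := pgb_tor H a htT s
      have hrs : wt t a * s = r := by
        rw [hwt]
        field_simp
      rw [hrs] at h1
      rw [hfixed]
      intro u hu
      have hu' : t⁻¹ * u * t ∈ P := by
        have := hT t⁻¹ (inv_mem ht) u hu
        rwa [inv_inv] at this
      obtain ⟨k, hk, hk2⟩ := (hfixed (some s)).1 hs _ hu'
      obtain ⟨l, hl, hl2⟩ := h1
      refine ⟨k, hk, ?_⟩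
      have h3 : u (t (pgbV a (some s))) = t ((t⁻¹ * u * t) (pgbV a (some s))) := by
        rw [LinearEquiv.mul_apply, LinearEquiv.mul_apply]
        exact (t.apply_symm_apply _).symm
      rw [hk2, map_smul, hl2, map_smul, smul_smul, mul_comm k l, mul_smul] at h3
      exact smul_right_injective _ hl h3
    obtain ⟨u, hu, hun⟩ : ∃ u ∈ P, ¬ PgbR a u none none := by
      by_contra hcon
      push Not at hcon
      exact hn ((hfixed none).2 hcon)
    have hfs : ∀ r : K, r ≠ 0 → PgbR a u (some r) (some r) := fun r hr =>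
      (hfixed (some r)).1 (hall r hr) u hu
    have hnone : PgbR a u none (some 0) := by
      obtain ⟨y, hy⟩ := hex u hu none
      cases y with
      | none => exact absurd hy hun
      | some r =>
        by_cases hr : r = 0
        · rwa [hr] at hy
        · have h3 := pgbR_inj H a hy (hfs r hr)
          cases h3
    have hzero : PgbR a u (some 0) none := by
      obtain ⟨y, hy⟩ := hex u hu (some 0)
      cases y with
      | none => exact hy
      | some r =>
        by_cases hr : r = 0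
        · rw [hr] at hy
          have h3 := pgbR_inj H a hy hnone
          cases h3
        · have h3 := pgbR_inj H a hy (hfs r hr)
          exact absurd (Option.some.inj h3).symm hr
    exact pgb_swap H a hfs hnone hzero
  · have hset : MulAction.fixedPoints P (Option K) = ∅ := by
      rw [Set.eq_empty_iff_forall_notMem]
      intro x hx
      cases x with
      | none => exact hn hx
      | some r => exact hs ⟨r, hx⟩
    have hcf : Nat.card (MulAction.fixedPoints P (Option K)) = 0 := by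
      rw [hset, Nat.card_coe_set_eq, Set.ncard_empty]
    rw [hcf] at hcard
    have h3 : p ∣ Nat.card K + 1 := (Nat.modEq_zero_iff_dvd).1 hcard
    exact hp1 ((Nat.dvd_add_right hpq).1 h3)

/-- the root group -/
private noncomputable def pgbX (H : Hyp C K) (a : Rt C) : Subgroup (LL C K ≃ₗ[K] LL C K) where
  carrier := {g | ∃ s : K, g = xr a s}
  one_mem' := ⟨0, (xr_zero H a).symm⟩
  mul_mem' := by
    rintro x y ⟨s, rfl⟩ ⟨t, rfl⟩
    exact ⟨s + t, (xr_add H a s t).symm⟩
  inv_mem' := by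
    rintro x ⟨s, rfl⟩
    exact ⟨-s, (xr_neg H a s).symm⟩

private theorem pgb_core (H : Hyp C K) {p : ℕ} [Fact p.Prime] [CharP K p]
    (P : Subgroup (LL C K ≃ₗ[K] LL C K)) (hP : IsPGroup p P) (hPG : P ≤ GG C K)
    (hT : ∀ t ∈ T1 C K, ∀ u ∈ P, t * u * t⁻¹ ∈ P) (a : Rt C)
    (hm : ∀ u ∈ P, ∀ x : LL C K, (∀ d, d ≠ a → d ≠ ng a → x.2 d = 0) →
      ∀ d, d ≠ a → d ≠ ng a → (u x).2 d = 0)
    (hfix : ∀ u ∈ P, ∃ k : K, u (e K a) = k • e K a) :
    P ≤ Subgroup.closure {g | ∃ b ∈ SF P, ∃ s : K, g = xr b s} := by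
  have hXp : IsPGroup p (pgbX H a) := by
    rintro ⟨g, s, rfl⟩
    refine ⟨1, ?_⟩
    apply Subtype.ext
    change xr a s ^ p ^ 1 = 1
    rw [pow_one, xr_pow H, CharP.cast_eq_zero, zero_mul, xr_zero H]
  have hnorm : P ≤ Subgroup.normalizer (pgbX H a : Set (LL C K ≃ₗ[K] LL C K)) := by
    intro u hu
    rw [Subgroup.mem_normalizer_iff]
    obtain ⟨k, hk⟩ := hfix u hu
    have hk0 : k ≠ 0 := by
      rintro rfl
      rw [zero_smul] at hk
      exact pgb_inj (pgb_e_ne a) hk
    intro g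
    constructor
    · rintro ⟨s, rfl⟩
      exact ⟨k * s, xr_conj H (hPG hu) hk s⟩
    · rintro ⟨s, hs⟩
      refine ⟨k⁻¹ * s, ?_⟩
      have h1 := xr_conj H (hPG hu) hk (k⁻¹ * s)
      rw [mul_inv_cancel_left₀ hk0, ← hs] at h1
      exact (mul_left_cancel (mul_right_cancel h1)).symm
  have hQ : IsPGroup p (P ⊔ pgbX H a : Subgroup (LL C K ≃ₗ[K] LL C K)) :=
    hP.to_sup_of_normal_right' hXp hnorm
  have hQT : ∀ t ∈ T1 C K, ∀ u ∈ P ⊔ pgbX H a, t * u * t⁻¹ ∈ P ⊔ pgbX H a := by
    intro t ht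
    have h1 : P ⊔ pgbX H a ≤ (P ⊔ pgbX H a).comap (MulAut.conj t).toMonoidHom := by
      refine sup_le ?_ ?_
      · intro u hu
        exact Subgroup.mem_sup_left (hT t ht u hu)
      · rintro u ⟨s, rfl⟩
        refine Subgroup.mem_sup_right ⟨wt t a * s, ?_⟩
        exact TT_conj_xr H (T1_le_TT H ht) a s
    intro u hu
    exact h1 hu
  have hQ0 : (P ⊔ pgbX H a) ⊓ NN C K = ⊥ := by
    apply pg_zero H _ (hQ.to_le inf_le_left) inf_le_right
    intro t ht u hu
    obtain ⟨hu1, hu2⟩ := Subgroup.mem_inf.1 hu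
    have htN : t ∈ NN C K := (TT_le_NN H) (T1_le_TT H ht)
    exact Subgroup.mem_inf.2 ⟨hQT t ht u hu1, mul_mem (mul_mem htN hu2) (inv_mem htN)⟩
  have hgx : ∀ g ∈ P, ∃ t : K, g = xr a t := by
    intro g hg
    obtain ⟨k, hk⟩ := hfix g hg
    have hv := ext_sl2 H ((isExt_e H (ng a)).map (hPG hg)) (pgb_inj (pgb_e_ne _)) a
      (hm g hg _ (pgb_e_m a (ng a) (Or.inr rfl)))
    rcases hv with ⟨k', hk', h⟩ | ⟨l, t, hl, h⟩
    · exfalso
      have h1 : g (k • e K (ng a)) = g (k' • e K a) := by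
        rw [map_smul, map_smul, h, hk, smul_comm]
      have h2 := congrFun (congrArg Prod.snd (g.injective h1)) a
      have h3 : (e K (ng a)).2 a = 0 := by
        simp [e, (ng_ne H a).symm]
      have h4 : (e K a).2 a = 1 := by
        simp [e]
      change k * (e K (ng a)).2 a = k' * (e K a).2 a at h2
      rw [h3, h4, mul_zero, mul_one] at h2
      exact hk' h2.symm
    · obtain ⟨f1, f2⟩ := fix_lines H (hPG hg) a hk h
      have hG : xr a (-t) * g ∈ GG C K := mul_mem (xr_mem_GG H a _) (hPG hg)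
      have hN : xr a (-t) * g ∈ NN C K := by
        apply mem_NN_of_lines H hG {a, ng a}
        · rintro b (rfl | hb)
          · exact Or.inr rfl
          · have hb' : b = ng a := hb
            rw [hb', ng_ng]
            exact Or.inl rfl
        · intro x hx d hd
          have hx' : ∀ d, d ≠ a → d ≠ ng a → x.2 d = 0 := by
            intro d h1 h2
            apply hx
            rintro (h | h)
            · exact h1 h
            · exact h2 h
          have h1 := pgb_xr_m H a (-t) (g x) (hm g hg x hx')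
          exact h1 d (fun h => hd (Or.inl h)) (fun h => hd (Or.inr h))
        · rintro b (rfl | hb)
          · exact ⟨b, Or.inl rfl, k, f1⟩
          · have hb' : b = ng a := hb
            rw [hb']
            exact ⟨ng a, Or.inr rfl, l, f2⟩
      have hmem : xr a (-t) * g ∈ (P ⊔ pgbX H a) ⊓ NN C K :=
        Subgroup.mem_inf.2 ⟨mul_mem (Subgroup.mem_sup_right ⟨-t, rfl⟩) (Subgroup.mem_sup_left hg),
          hN⟩
      rw [hQ0, Subgroup.mem_bot] at hmem
      refine ⟨t, ?_⟩
      rw [xr_neg H] at hmem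
      exact (inv_mul_eq_one.1 hmem).symm
  intro g hg
  obtain ⟨t, rfl⟩ := hgx g hg
  by_cases ht : t = 0
  · rw [ht, xr_zero H]
    exact one_mem _
  · exact Subgroup.subset_closure ⟨a, xr_all H hT ht hg, t, rfl⟩

theorem pg_sl2 (H : Hyp C K) {p : ℕ} [Fact p.Prime] [CharP K p]
    (P : Subgroup (LL C K ≃ₗ[K] LL C K)) (hP : IsPGroup p P) (hPG : P ≤ GG C K)
    (hT : ∀ t ∈ T1 C K, ∀ u ∈ P, t * u * t⁻¹ ∈ P) (a : Rt C)
    (hm : ∀ u ∈ P, ∀ x : LL C K, (∀ d, d ≠ a → d ≠ ng a → x.2 d = 0) →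
      ∀ d, d ≠ a → d ≠ ng a → (u x).2 d = 0) :
    P ≤ Subgroup.closure {g | ∃ b ∈ SF P, ∃ s : K, g = xr b s} := by
  rcases pgb_fix H P hP hPG hT a hm with h | h
  · exact pgb_core H P hP hPG hT a hm h
  · refine pgb_core H P hP hPG hT (ng a) ?_ h
    intro u hu x hx d hd hd'
    rw [ng_ng] at hd'
    refine hm u hu x ?_ d hd' hd
    intro d h1 h2
    exact hx d h2 (by rw [ng_ng]; exact h1)

end Pool.Agent.H33.EQ
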