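import Pool.Agent.H33.EQ.Defs
import Pool.Agent.H33.EL.StdD

/-!
# Definitions for the standard description over the field with 8 elements
-/

namespace Pool.Agent.H33.EQ

export Pool.Agent.H33.EL (ClosedRt GSt StdDesc)

variable {n : ℕ}

/-- the root subgroup `X_a` as a subgroup of `GL(L)` -/
def Xg {C : Matrix (Fin n) (Fin n) ℤ} [Fintype (Rt C)] (K : Type) [Field K] (a : Rt C) :
    Subgroup (LL C K ≃ₗ[K] LL C K) := Subgroup.closure {g | ∃ s : K, g = xr a s}

/-- the adjoint Chevalley group generated by all root subgroups -/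
def Gr (C : Matrix (Fin n) (Fin n) ℤ) [Fintype (Rt C)] (K : Type) [Field K] :
    Subgroup (LL C K ≃ₗ[K] LL C K) := ⨆ a : Rt C, Xg K a

end Pool.Agent.H33.EQ
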