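import Pool.Agent.H33.EQ.XrA

/-!
# EL-15 (step 1): decomposition of extremal vectors

Let `v` be extremal with `v.2 (ng a) = c ≠ 0`.  The degree is `ip · a` (`-2` at `ng a`).
Step 1: there is `r1` in the group generated by the `xr b s` with `ip b a = 1` and
`v.2 (b - a) ≠ 0` such that `r1⁻¹ v` has `ng a`-coordinate `c` and all coordinates of degree
`-1` zero.  Induction on the number of non zero coordinates of degree `-1`: `xr b s v` changes
among the coordinates of degree `≤ -1` only the one at `b - a`, by `s ε(b,-a) c`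
(`xr_snd_one`, `xr_snd_other`; `d = r - b` has degree `deg r - 1`, so `d` has degree `-2` only
if `r = b - a`; `xr_snd_self` is in degree 1).
Step 2: let `v` be extremal, `v = c e_(-a) + v_0 + v_1 + v_2`, degrees `0,1,2`.
 For `x = e_y` of degree `-1`... use: for all `x` of degree 1 (`x = e_y`, `ip y a = 1`)
 `fm v x = 0` (no coordinate of degree `-1`), so `[v,[v,x]] = 0`; its part of degree `-1` is
 `[c e_(-a),[v_0,x]] + [v_0,[c e_(-a),x]] = 0`.  With `[v_0,[e_(-a),x]] = [[v_0,e_(-a)],x] +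
 [e_(-a),[v_0,x]]` and `[v_0,e_(-a)] = λ e_(-a)` (degree `-2` is one dimensional,
 `λ = -(v.1, a)`): `2 [e_(-a),[v_0,x]] = -λ [e_(-a),x]`, and `ad e_(-a)` is injective on
 degree 1: `[v_0,x] = -(λ/2) x`, i.e. `v_0` acts on degree 1 as the scalar `μ = (v.1,a)/2`.
 For `b` with `ip b a = 0`: choose `y` with `ip y a = 1`, `ip y b = -1` (`H.rb`): the
 coordinate of `[v_0,e_y]` at `y + b` is `± v_b`, so `v_b = 0`.  So `v_0 = hh v.1`,
 `(v.1, y) = μ` for all `y` with `ip y a = 1`; then `v.1 = μ • zk a` by `fk_nondeg`: check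
 `(v.1 - μ a, y) = 0` for `ip y a = ±1` (clear), `y = ±a` (definition of `μ`), and
 `ip y a = 0`: there is a root `z`, `ip z a = 1`, `ip z y = -1` (`H.rb`), `y = (z+y) - z`.
 Next `x = e_b` with `ip b a = 0`: `[c e_(-a), e_b] = 0`, and the part of degree `-1` of
 `[v,[v,e_b]] = -2 fm v e_b v` is `[c e_(-a),[v_1,e_b]] = 0` (`v` has no part of degree `-1`),
 so `[v_1,e_b] = 0`.  For `y` of degree 1 take `b` with `ip b a = 0`, `ip b y = -1`
 (`H.ra` for `ng y, a`): the coordinate of `[v_1,e_b]` at `y+b` is `± v_y`: so `v_1 = 0`.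
 Finally `0 = fm v v = 2 μ² - 2 c v_a`, so `v = c (e_(-a) + (μ/c) h_a + (μ/c)² e_a)
 = c xr a (-μ/c) e_(-a)` by `xr_e_ng`.
-/

namespace Pool.Agent.H33.EQ

variable {n : ℕ} {C : Matrix (Fin n) (Fin n) ℤ} {K : Type} [Field K] [Fintype (Rt C)]

open Classical in
private theorem xda_aux (H : Hyp C K) (v : LL C K) (a : Rt C) (hc : v.2 (ng a) ≠ 0) (m : ℕ) :
    ∀ (w : LL C K), w.2 (ng a) = v.2 (ng a) →
      (∀ d : Rt C, ip C d.1 a.1 = -1 → v.2 d = 0 → w.2 d = 0) →
      (Finset.univ.filter (fun d : Rt C => ip C d.1 a.1 = -1 ∧ w.2 d ≠ 0)).card = m →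
      ∃ r ∈ Subgroup.closure {g : LL C K ≃ₗ[K] LL C K | ∃ (b d : Rt C) (s : K),
        ip C b.1 a.1 = 1 ∧ d.1 = b.1 - a.1 ∧ v.2 d ≠ 0 ∧ g = xr b s},
      (r⁻¹ w).2 (ng a) = v.2 (ng a) ∧ ∀ d : Rt C, ip C d.1 a.1 = -1 → (r⁻¹ w).2 d = 0 := by
  induction m using Nat.strong_induction_on with
  | _ m ih =>
  intro w hw hsub hm
  by_cases hall : ∀ d : Rt C, ip C d.1 a.1 = -1 → w.2 d = 0
  · exact ⟨1, Subgroup.one_mem _, by rw [inv_one]; exact hw, by rw [inv_one]; exact hall⟩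
  push Not at hall
  obtain ⟨d, hda, hd⟩ := hall
  have haa : ip C a.1 a.1 = 2 := a.2
  -- the root `b = d + a`
  obtain ⟨b, hb⟩ : ∃ b : Rt C, b.1 = d.1 + a.1 := ⟨⟨d.1 + a.1, root_add H hda⟩, rfl⟩
  have hba : ip C b.1 a.1 = 1 := by
    rw [hb, ip_add_left, hda, haa]
    norm_num
  have hdb : d.1 = b.1 - a.1 := by
    rw [hb]
    abel
  have hvd : v.2 d ≠ 0 := fun h => hd (hsub d hda h)
  have hna : (ng a).1 = d.1 - b.1 := by
    rw [ng_val, hb]
    abel
  have hek := ek_ne_zero (K := K) (C := C) b.1 (ng a).1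
  have hwc : w.2 (ng a) ≠ 0 := by rw [hw]; exact hc
  obtain ⟨s, hs⟩ : ∃ s : K, w.2 d + s * ek K C b.1 (ng a).1 * w.2 (ng a) = 0 := by
    refine ⟨-(w.2 d) / (ek K C b.1 (ng a).1 * w.2 (ng a)), ?_⟩
    field_simp
    ring
  have hd0 : (xr b s w).2 d = 0 := by
    rw [xr_snd_one H b s w d (ng a) hna]
    exact hs
  have hother : ∀ r : Rt C, ip C r.1 a.1 = -1 → r ≠ d → (xr b s w).2 r = w.2 r := by
    intro r hr hrd
    refine xr_snd_other H b s w r ?_ ?_
    · intro h1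
      have h2 : ip C (r.1 - b.1) (r.1 - b.1) = 2 := root_sub H h1
      have h3 : ip C a.1 (r.1 - b.1) = -2 := by
        rw [ip_comm H.symm, ip_sub_left, hr, hba]
        norm_num
      have h4 := eq_ng_of_ip H (a := a) (b := ⟨r.1 - b.1, h2⟩) h3
      have h5 : r.1 - b.1 = -a.1 := by
        have := congrArg Subtype.val h4
        rw [ng_val] at this
        exact this
      apply hrd
      apply Subtype.ext
      rw [hdb, ← sub_add_cancel r.1 b.1, h5]
      abel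
    · rintro rfl
      rw [hba] at hr
      norm_num at hr
  have hnga : (xr b s w).2 (ng a) = v.2 (ng a) := by
    rw [← hw]
    refine xr_snd_other H b s w (ng a) ?_ ?_
    · rw [ng_val, ip_neg_left, ip_comm H.symm, hba]
      norm_num
    · intro h
      have h1 : ip C (ng a).1 a.1 = 1 := by rw [h]; exact hba
      rw [ng_val, ip_neg_left, haa] at h1
      norm_num at h1
  have hlt : (Finset.univ.filter (fun r : Rt C => ip C r.1 a.1 = -1 ∧
      (xr b s w).2 r ≠ 0)).card < m := by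
    rw [← hm]
    apply Finset.card_lt_card
    rw [Finset.ssubset_iff_of_subset]
    · exact ⟨d, by simp [hda, hd], by simp [hd0]⟩
    · intro r hr
      simp only [Finset.mem_filter, Finset.mem_univ, true_and] at hr ⊢
      refine ⟨hr.1, ?_⟩
      by_cases hrd : r = d
      · rw [hrd]; exact hd
      · rw [← hother r hr.1 hrd]
        exact hr.2
  obtain ⟨r', hr', h1, h2⟩ := ih _ hlt (xr b s w) hnga
    (by
      intro r hr hvr
      by_cases hrd : r = d
      · rw [hrd]; exact hd0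
      · rw [hother r hr hrd]
        exact hsub r hr hvr) rfl
  refine ⟨(xr b s)⁻¹ * r', Subgroup.mul_mem _ (Subgroup.inv_mem _ (Subgroup.subset_closure
    ⟨b, d, s, hba, hdb, hvd, rfl⟩)) hr', ?_⟩
  have h3 : ((xr b s)⁻¹ * r')⁻¹ w = r'⁻¹ (xr b s w) := by
    rw [mul_inv_rev, inv_inv, LinearEquiv.mul_apply]
  rw [h3]
  exact ⟨h1, h2⟩

/-- Step 1 -/
theorem xd_step1 (H : Hyp C K) (v : LL C K) (a : Rt C) (hc : v.2 (ng a) ≠ 0) :
    ∃ r ∈ Subgroup.closure {g : LL C K ≃ₗ[K] LL C K | ∃ (b d : Rt C) (s : K),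
        ip C b.1 a.1 = 1 ∧ d.1 = b.1 - a.1 ∧ v.2 d ≠ 0 ∧ g = xr b s},
      (r⁻¹ v).2 (ng a) = v.2 (ng a) ∧ ∀ d : Rt C, ip C d.1 a.1 = -1 → (r⁻¹ v).2 d = 0 :=
  xda_aux H v a hc _ v rfl (fun _ _ h => h) rfl

end Pool.Agent.H33.EQ
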